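import Pool.Agent.P.MP_d3fb3e_lc.AF.Defs

/-! Fair coins against biased coins for functions of low degree. -/

namespace Pool.Agent.P.MP_d3fb3e_lc.AF

open Finset Classical
open Pool.Agent.P.MP_d1c5a4_lc (pr pr_pi pr_congr)

namespace Bias

theorem wt_le {J : Type} [Fintype J] (y : J → F2) : wt y ≤ Fintype.card J :=
  card_le_univ _

theorem wt_comp {J J' : Type} [Fintype J] [Fintype J'] (e : J ≃ J') (y : J' → F2) :
    wt (fun j => y (e j)) = wt y := by
  unfold wt
  refine card_equiv e fun j => ?_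
  simp

theorem nwJ (h : PNW) (J : Type) [Fintype J] [DecidableEq J] (d r : ℕ) (f : (J → F2) → F2)
    (hf : Dg d f) : (univ.filter fun y => f y = 1).card * Nb (Fintype.card J) r ≤
      (univ.filter fun y => f y = 1 ∧ wt y ≤ r + d).card * 2 ^ Fintype.card J := by
  let e := Fintype.equivFin J
  have h1 := h (Fintype.card J) d r (fun y => f fun j => y (e j))
    (hf.comp fun j => Dg.coord (e j))
  let E : (Fin (Fintype.card J) → F2) ≃ (J → F2) := (Equiv.arrowCongr e (Equiv.refl F2)).symm
  have hE : ∀ y, E y = fun j => y (e j) := fun y => rfl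
  have h2 : (univ.filter fun y : Fin (Fintype.card J) → F2 => (f fun j => y (e j)) = 1).card =
      (univ.filter fun y => f y = 1).card := by
    refine card_equiv E fun y => ?_
    simp [hE]
  have h3 : (univ.filter fun y : Fin (Fintype.card J) → F2 =>
      (f fun j => y (e j)) = 1 ∧ wt y ≤ r + d).card =
      (univ.filter fun y => f y = 1 ∧ wt y ≤ r + d).card := by
    refine card_equiv E fun y => ?_
    simp [hE, wt_comp]
  rw [← h2, ← h3]
  convert h1

theorem cake (θ : ℝ) (k R : ℕ) : θ ^ min k R =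
    ∑ r ∈ range R, (θ ^ r - θ ^ (r + 1)) * (if k ≤ r then 1 else 0) + θ ^ R := by
  induction R with
  | zero => simp
  | succ R ih =>
    rw [sum_range_succ]
    by_cases hk : k ≤ R
    · rw [min_eq_left hk] at ih
      rw [min_eq_left (by omega), if_pos hk, ih]
      ring
    · rw [min_eq_right (by omega)] at ih
      rw [min_eq_right (by omega), if_neg hk]
      linarith

theorem cake_sum {α : Type} (s : Finset α) (c : α → ℝ) (w : α → ℕ) (θ : ℝ) (R : ℕ)
    (hw : ∀ x ∈ s, w x ≤ R) : ∑ x ∈ s, c x * θ ^ w x =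
      ∑ r ∈ range R, (θ ^ r - θ ^ (r + 1)) * (∑ x ∈ s, c x * if w x ≤ r then 1 else 0) +
        θ ^ R * ∑ x ∈ s, c x := by
  simp only [mul_sum]
  rw [sum_comm, ← sum_add_distrib]
  refine sum_congr rfl fun x hx => ?_
  have h := cake θ (w x) R
  rw [min_eq_left (hw x hx)] at h
  rw [h, mul_add, mul_sum, mul_comm (c x) (θ ^ R)]
  congr 1
  exact sum_congr rfl fun r _ => by ring

theorem ball_le (m d r : ℕ) : (∑ i ∈ range (m + 1), (m.choose i : ℝ) *
    if i + d ≤ r then 1 else 0) ≤ if d ≤ r then (Nb m (r - d) : ℝ) else 0 := by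
  split_ifs with hd
  · unfold Nb
    push_cast
    simp only [mul_ite, mul_one, mul_zero]
    rw [← sum_filter]
    refine sum_le_sum_of_subset_of_nonneg (fun i hi => ?_) fun _ _ _ => by positivity
    rw [mem_filter] at hi
    rw [mem_range]
    omega
  · refine (sum_eq_zero fun i _ => ?_).le
    rw [if_neg (by omega), mul_zero]

theorem gen (h : PNW) (J : Type) [Fintype J] [DecidableEq J] (d : ℕ) (f : (J → F2) → F2)
    (hf : Dg d f) (θ : ℝ) (h0 : 0 ≤ θ) (h1 : θ ≤ 1) :
    ((univ.filter fun y => f y = 1).card : ℝ) * (θ ^ d * (θ + 1) ^ Fintype.card J) ≤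
      (∑ y ∈ univ.filter fun y => f y = 1, θ ^ wt y) * 2 ^ Fintype.card J := by
  set m := Fintype.card J with hm
  set Y := univ.filter fun y => f y = 1 with hY
  have e1 : θ ^ d * (θ + 1) ^ m = ∑ i ∈ range (m + 1), (m.choose i : ℝ) * θ ^ (i + d) := by
    rw [add_pow, mul_sum]
    exact sum_congr rfl fun i _ => by ring
  have e2 : ∑ y ∈ Y, θ ^ wt y = ∑ y ∈ Y, (1 : ℝ) * θ ^ wt y := by simp
  have e3 : ∑ i ∈ range (m + 1), (m.choose i : ℝ) = 2 ^ m := by
    exact_mod_cast Nat.sum_range_choose m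
  rw [e1, e2, cake_sum _ _ (fun i => i + d) θ (m + d) (fun i hi => by
      rw [mem_range] at hi; omega),
    cake_sum Y (fun _ => 1) wt θ (m + d) (fun y _ => (wt_le y).trans (by omega)), e3,
    mul_add, add_mul, mul_sum, sum_mul]
  refine add_le_add (sum_le_sum fun r _ => ?_) (le_of_eq ?_)
  · have hδ : 0 ≤ θ ^ r - θ ^ (r + 1) :=
      sub_nonneg.2 (pow_le_pow_of_le_one h0 h1 (Nat.le_succ r))
    rw [mul_left_comm, mul_assoc]
    refine mul_le_mul_of_nonneg_left ?_ hδ
    refine (mul_le_mul_of_nonneg_left (ball_le m d r) (by positivity)).trans ?_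
    split_ifs with hd
    · have h4 := nwJ h J d (r - d) f hf
      rw [Nat.sub_add_cancel hd] at h4
      have h5 : (∑ y ∈ Y, (1 : ℝ) * if wt y ≤ r then 1 else 0) =
          ((univ.filter fun y => f y = 1 ∧ wt y ≤ r).card : ℝ) := by
        simp only [one_mul]
        rw [sum_boole, hY, filter_filter]
      rw [h5]
      exact_mod_cast h4
    · rw [mul_zero]
      refine mul_nonneg (sum_nonneg fun y _ => ?_) (by positivity)
      split_ifs <;> norm_num
  · simp only [sum_const, nsmul_eq_mul, mul_one]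
    ring

theorem pr_fib {A B : Type} [Fintype A] [Fintype B] (φ : A → B) (E : B → Prop) :
    pr (fun x => E (φ x)) = ∑ y ∈ univ.filter E, pr fun x => φ x = y := by
  unfold pr
  rw [← sum_div]
  congr 1
  rw [← Nat.cast_sum, card_eq_sum_card_fiberwise (f := φ) (t := univ.filter E)
    (fun x hx => by simpa using hx)]
  congr 1
  refine sum_congr rfl fun y hy => ?_
  congr 1
  ext x
  simp only [mem_filter, mem_univ, true_and] at hy ⊢
  exact ⟨fun h => h.2, fun h => ⟨h ▸ hy, h⟩⟩

theorem pr_coin {a b : ℕ} (hab : a ≤ b) (hb : 0 < b) (c : F2) :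
    pr (fun x : Fin b => bias a x = c) = if c = 1 then (a : ℝ) / b else ((b : ℝ) - a) / b := by
  have hb' : (b : ℝ) ≠ 0 := by positivity
  have : Nonempty (Fin b) := ⟨⟨0, hb⟩⟩
  have h1 : pr (fun x : Fin b => x.val < a) = (a : ℝ) / b := by
    unfold pr
    rw [Fintype.card_fin]
    congr 2
    have := Fin.card_filter_val_lt (n := b) (m := a)
    rw [min_eq_right hab] at this
    convert this
  rcases F2.cases c with rfl | rfl
  · rw [if_neg (by decide), pr_congr (F := fun x : Fin b => ¬ x.val < a) fun x => by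
      unfold bias; split_ifs with hx <;> simp [hx], Pool.Agent.P.MP_d1c5a4_lc.pr_not, h1]
    field_simp
  · rw [if_pos rfl, ← h1]
    exact pr_congr fun x => by unfold bias; split_ifs with hx <;> simp [hx]

end Bias

open Bias in
theorem pBias (h : PNW) : PBias := by
  intro J _ _ a b d ha hab f hf
  have ha' : (0 : ℝ) < a := by exact_mod_cast ha
  have hab' : 2 * (a : ℝ) ≤ b := by exact_mod_cast hab
  have hb' : (0 : ℝ) < b := by linarith
  have hba : (0 : ℝ) < b - a := by linarith
  set θ : ℝ := a / (b - a) with hθ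
  have h0 : 0 ≤ θ := by positivity
  have h1 : θ ≤ 1 := by rw [hθ, div_le_one hba]; linarith
  have hg := gen h J d f hf θ h0 h1
  set m := Fintype.card J with hm
  have e1 : pr (fun ξ : J → Fin b => f (fun j => bias a (ξ j)) = 1) =
      (((b : ℝ) - a) / b) ^ m * ∑ y ∈ univ.filter fun y => f y = 1, θ ^ wt y := by
    rw [pr_fib (fun ξ : J → Fin b => fun j => bias a (ξ j)) fun y => f y = 1, mul_sum]
    refine sum_congr (by congr) fun y _ => ?_
    rw [pr_congr (F := fun ξ : J → Fin b => ∀ j, bias a (ξ j) = y j) fun ξ => funext_iff,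
      pr_pi fun j (x : Fin b) => bias a x = y j]
    have e2 : ∀ j, pr (fun x : Fin b => bias a x = y j) =
        (((b : ℝ) - a) / b) * if y j = 1 then θ else 1 := fun j => by
      rw [pr_coin (by omega) (by omega)]
      split_ifs
      · rw [hθ]; field_simp
      · rw [mul_one]
    simp only [e2]
    rw [prod_mul_distrib, prod_const, card_univ, ← prod_filter, prod_const]
    congr
  have e3 : (((b : ℝ) - a) / b) ^ m * (θ + 1) ^ m = 1 := by
    rw [← mul_pow, hθ, show ((b : ℝ) - a) / b * (a / (b - a) + 1) = 1 by field_simp; ring,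
      one_pow]
  have e4 : (((b : ℝ) - a) / a) ^ d * θ ^ d = 1 := by
    rw [← mul_pow, hθ, show ((b : ℝ) - a) / a * (a / (b - a)) = 1 by field_simp, one_pow]
  have e5 : pr (fun y : J → F2 => f y = 1) =
      ((univ.filter fun y => f y = 1).card : ℝ) / 2 ^ m := by
    unfold pr
    rw [Fintype.card_fun, ZMod.card]
    push_cast
    congr
  rw [e1, e5, div_le_iff₀ (by positivity)]
  have hc : 0 ≤ (((b : ℝ) - a) / a) ^ d * (((b : ℝ) - a) / b) ^ m := by positivity
  have h6 := mul_le_mul_of_nonneg_left hg hc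
  calc ((univ.filter fun y => f y = 1).card : ℝ)
      = ((((b : ℝ) - a) / a) ^ d * θ ^ d) * ((((b : ℝ) - a) / b) ^ m * (θ + 1) ^ m) *
        (univ.filter fun y => f y = 1).card := by rw [e3, e4]; ring
    _ = _ := by ring
    _ ≤ _ := h6
    _ = _ := by ring

end Pool.Agent.P.MP_d3fb3e_lc.AF
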