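import Pool.Agent.P.MP_d3fb3e_lc.AF.Defs

/-! Fair coins against biased coins. -/

namespace Pool.Agent.P.MP_d3fb3e_lc.AF

open Finset Classical
open Pool.Agent.P.MP_d1c5a4_lc

namespace BiasA

theorem tel (θ : ℝ) (k R : ℕ) (h : k ≤ R) :
    θ ^ k = ∑ r ∈ range R, (if k ≤ r then θ ^ r - θ ^ (r + 1) else 0) + θ ^ R := by
  induction R, h using Nat.le_induction with
  | base => rw [sum_eq_zero fun r hr => if_neg (by simpa using hr), zero_add]
  | succ R h ih => rw [sum_range_succ, if_pos h]; linarith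

theorem abel {α : Type} (s : Finset α) (w : α → ℕ) (c : α → ℝ) (θ : ℝ) (R : ℕ)
    (h : ∀ a ∈ s, w a ≤ R) : ∑ a ∈ s, θ ^ w a * c a =
      ∑ r ∈ range R, (θ ^ r - θ ^ (r + 1)) * ∑ a ∈ s.filter fun a => w a ≤ r, c a +
        θ ^ R * ∑ a ∈ s, c a := by
  rw [sum_congr rfl fun a ha => by rw [tel θ (w a) R (h a ha), add_mul, sum_mul],
    sum_add_distrib, sum_comm, ← mul_sum]
  congr 1
  refine sum_congr rfl fun r _ => ?_
  rw [sum_filter, mul_sum]
  exact sum_congr rfl fun a _ => by split_ifs <;> simp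

theorem binom (θ : ℝ) (m : ℕ) : (θ + 1) ^ m =
    ∑ r ∈ range m, (θ ^ r - θ ^ (r + 1)) * Nb m r + θ ^ m * 2 ^ m := by
  have h1 := abel (range (m + 1)) id (fun i => (m.choose i : ℝ)) θ m fun a ha => by
    simpa [Nat.lt_succ_iff] using ha
  rw [add_pow]
  simp only [one_pow, mul_one, id] at h1 ⊢
  rw [h1, ← Nat.cast_sum, Nat.sum_range_choose]
  push_cast
  congr 1
  refine sum_congr rfl fun r hr => ?_
  rw [Nb, Nat.cast_sum]
  congr 2
  ext i
  simp only [mem_filter, mem_range] at hr ⊢
  omega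

theorem wt_le {J : Type} [Fintype J] (y : J → F2) : wt y ≤ Fintype.card J := card_le_univ _

theorem core (h : PNW) (m d : ℕ) (f : (Fin m → F2) → F2) (hf : Dg d f) {θ : ℝ} (h0 : 0 ≤ θ)
    (h1 : θ ≤ 1) : θ ^ d * (θ + 1) ^ m * (univ.filter fun y => f y = 1).card ≤
      (∑ y ∈ univ.filter fun y => f y = 1, θ ^ wt y) * 2 ^ m := by
  have h2 := abel (univ.filter fun y => f y = 1) wt (fun _ => 1) θ (d + m) fun y _ => by
    have := wt_le y
    rw [Fintype.card_fin] at this
    omega
  simp only [mul_one, sum_const, nsmul_eq_mul] at h2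
  have h3 : ∀ r, 0 ≤ θ ^ r - θ ^ (r + 1) := fun r =>
    sub_nonneg.2 (pow_le_pow_of_le_one h0 h1 (Nat.le_succ r))
  rw [h2, sum_range_add, binom, add_mul, add_mul, mul_add, add_mul, mul_sum, sum_mul, sum_mul,
    sum_mul]
  refine add_le_add (le_add_of_nonneg_of_le (sum_nonneg fun r _ =>
    mul_nonneg (mul_nonneg (h3 r) (by positivity)) (by positivity))
      (sum_le_sum fun r _ => ?_)) (le_of_eq (by ring))
  have h4 : (((univ.filter fun y => f y = 1).card : ℝ)) * Nb m r ≤
      (((univ.filter fun y => f y = 1).filter fun y => wt y ≤ d + r).card : ℝ) * 2 ^ m := by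
    rw [filter_filter, add_comm d r]
    exact_mod_cast h m d r f hf
  have h5 := mul_le_mul_of_nonneg_left h4 (h3 (d + r))
  calc _ = (θ ^ (d + r) - θ ^ (d + r + 1)) *
        (((univ.filter fun y => f y = 1).card : ℝ) * Nb m r) := by ring
    _ ≤ _ := by rw [mul_assoc]; exact h5

theorem fib {J : Type} [Fintype J] [DecidableEq J] {a b : ℕ} (hab : a ≤ b) (y : J → F2) :
    (univ.filter fun ξ : J → Fin b => (fun j => bias a (ξ j)) = y).card =
      a ^ wt y * (b - a) ^ (Fintype.card J - wt y) := by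
  have h1 : (univ.filter fun x : Fin b => bias a x = 1).card = a := by
    rw [filter_congr (q := fun x : Fin b => x.val < a) fun x _ => by simp [bias],
      Fin.card_filter_val_lt, min_eq_right hab]
  have h2 : (univ.filter fun x : Fin b => bias a x = 0).card = b - a := by
    have := card_filter_add_card_filter_not (s := (univ : Finset (Fin b))) fun x => bias a x = 1
    rw [h1, card_univ, Fintype.card_fin, filter_congr (q := fun x : Fin b => bias a x = 0)
      fun x _ => by rcases F2.cases (bias a x) with h | h <;> simp [h]] at this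
    omega
  have h3 : (univ.filter fun ξ : J → Fin b => (fun j => bias a (ξ j)) = y) =
      Fintype.piFinset fun j => univ.filter fun x : Fin b => bias a x = y j := by
    ext ξ
    simp [funext_iff]
  have h4 := card_filter_add_card_filter_not (s := (univ : Finset J)) fun j => y j = 1
  rw [h3, Fintype.card_piFinset, ← prod_filter_mul_prod_filter_not univ fun j => y j = 1,
    prod_congr rfl (g := fun _ => a) fun j hj => by rw [(mem_filter.1 hj).2, h1],
    prod_congr (s₁ := univ.filter fun j => ¬ y j = 1) rfl (g := fun _ => b - a) fun j hj => by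
      rw [(F2.cases _).resolve_right (mem_filter.1 hj).2, h2], prod_const, prod_const]
  rw [card_univ] at h4
  rw [wt]
  congr 2
  omega

theorem fin (h : PNW) (m a b d : ℕ) (ha : 1 ≤ a) (hab : 2 * a ≤ b) (f : (Fin m → F2) → F2)
    (hf : Dg d f) : pr (fun y => f y = 1) ≤
      (((b : ℝ) - a) / a) ^ d * pr fun ξ : Fin m → Fin b => f (fun j => bias a (ξ j)) = 1 := by
  obtain ⟨c, rfl⟩ : ∃ c, b = a + c := ⟨b - a, by omega⟩
  have a1 : (1 : ℝ) ≤ a := by exact_mod_cast ha
  have a2 : (a : ℝ) ≤ c := by exact_mod_cast (show a ≤ c by omega)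
  have a3 : (0 : ℝ) < c := by linarith
  have h1 := core h m d f hf (θ := a / c) (by positivity) ((div_le_one a3).2 a2)
  have h2 : ((univ.filter fun ξ : Fin m → Fin (a + c) => f (fun j => bias a (ξ j)) = 1).card : ℝ) =
      (∑ y ∈ univ.filter fun y => f y = 1, ((a : ℝ) / c) ^ wt y) * c ^ m := by
    rw [card_eq_sum_card_fiberwise (f := fun ξ : Fin m → Fin (a + c) => fun j => bias a (ξ j))
      (t := univ.filter fun y => f y = 1) (fun ξ => by simp), Nat.cast_sum, sum_mul]
    refine sum_congr rfl fun y hy => ?_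
    have h3 := wt_le y
    rw [filter_filter, filter_congr (q := fun ξ : Fin m → Fin (a + c) =>
      (fun j => bias a (ξ j)) = y) fun ξ _ => and_iff_right_of_imp fun e =>
        e ▸ (mem_filter.1 hy).2]
    have h4 := fib (Nat.le_add_right a c) y
    rw [Fintype.card_fin] at h3 h4
    obtain ⟨k, hk⟩ := Nat.exists_eq_add_of_le h3
    rw [Nat.add_sub_cancel_left, show m - wt y = k by omega] at h4
    rw [show (c : ℝ) ^ m = c ^ wt y * c ^ k by rw [← pow_add, ← hk], ← mul_assoc, ← mul_pow,
      div_mul_cancel₀ _ a3.ne']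
    exact_mod_cast h4
  have h5 : (a : ℝ) / c + 1 = (a + c) / c := by field_simp
  rw [h5] at h1
  unfold pr
  rw [show (univ.filter fun ξ : Fin m → Fin (a + c) => f (fun j => bias a (ξ j)) = 1) =
    univ.filter fun ξ : Fin m → Fin (a + c) => f (fun j => bias a (ξ j)) = 1 from by congr] at h2
  simp only [Fintype.card_fun, Fintype.card_fin, ZMod.card]
  push_cast
  rw [add_sub_cancel_left, ← mul_div_assoc, div_le_div_iff₀ (by positivity) (by positivity)]
  have h6 := mul_le_mul_of_nonneg_left h1 (show 0 ≤ ((c : ℝ) / a) ^ d * c ^ m by positivity)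
  calc _ = ((c : ℝ) / a) ^ d * c ^ m * ((a / c) ^ d * ((a + c) / c) ^ m *
        (univ.filter fun y => f y = 1).card) := by
        rw [div_pow, div_pow, div_pow]
        field_simp
    _ ≤ _ := h6
    _ = _ := by
        rw [show ((c : ℝ) / a) ^ d * c ^ m * ((∑ y ∈ univ.filter fun y => f y = 1,
          ((a : ℝ) / c) ^ wt y) * 2 ^ m) = ((c : ℝ) / a) ^ d * ((∑ y ∈ univ.filter
            fun y => f y = 1, ((a : ℝ) / c) ^ wt y) * c ^ m) * 2 ^ m by ring, ← h2]
        congr

end BiasA

theorem pBiasA (h : PNW) : PBias := by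
  intro J _ _ a b d ha hab f hf
  let e := Fintype.equivFin J
  have := BiasA.fin h (Fintype.card J) a b d ha hab (fun y => f fun j => y (e j))
    (hf.comp fun j => Dg.coord (e j))
  rw [← pr_bij (φ := fun (y : Fin (Fintype.card J) → F2) j => y (e j))
    (Equiv.arrowCongr e.symm (Equiv.refl F2)).bijective fun y => f y = 1,
    ← pr_bij (φ := fun (y : Fin (Fintype.card J) → Fin b) j => y (e j))
    (Equiv.arrowCongr e.symm (Equiv.refl (Fin b))).bijective
      fun ξ => f (fun j => bias a (ξ j)) = 1]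
  exact this

end Pool.Agent.P.MP_d3fb3e_lc.AF
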