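import Pool.Agent.P.MP_d3fb3e_lc.AF.Defs

/-! Many cells with adaptively chosen values, against many terms. -/

namespace Pool.Agent.P.MP_d3fb3e_lc.AF

open Finset Classical
open Pool.Agent.P.MP_d1c5a4_lc

namespace Box

theorem pr_prod_mono {A B : Type} [Fintype A] [Fintype B] {E F : A × B → Prop}
    (h : ∀ a, pr (fun b => E (a, b)) ≤ pr fun b => F (a, b)) : pr E ≤ pr F := by
  rw [pr_prod, pr_prod]
  exact div_le_div_of_nonneg_right (sum_le_sum fun a _ => h a) (Nat.cast_nonneg _)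

theorem re_exists {Z J : Type} {N : ℕ} (sz : Z → ℕ) (r : Z → Fin N)
    (β : (Z × Fin N × J → F2) → Z → Prop)
    (hβ : ∀ y y' z, (∀ ν, sz ν.1 < sz z → y ν = y' ν) → (β y z ↔ β y' z))
    (u0 u1 : Z → J → F2) (μ : Z × Fin N × J → F2) :
    ∃ y : Z × Fin N × J → F2, y = put r μ fun z => if β y z then u1 z else u0 z := by
  obtain ⟨σ, hσ⟩ := fix_exists (fun ν : Z × Fin N × J => sz ν.1)
    (fun σ : Z × Fin N × J → F2 => put r μ fun z => if β σ z then u1 z else u0 z)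
    (fun σ τ ν h => by
      have h1 : β σ ν.1 ↔ β τ ν.1 := hβ σ τ ν.1 h
      simp only [put]
      by_cases h2 : β σ ν.1
      · rw [if_pos h2, if_pos (h1.1 h2)]
      · rw [if_neg h2, if_neg fun h3 => h2 (h1.2 h3)])
  exact ⟨σ, funext hσ⟩

end Box

open Box

theorem pBox (h1 : PVis) (h2 : PHyb) (h3 : PShift) : PBox := by
  intro t m0 d κ η ε G Z _ _ sz M N D q Tr 𝓣 T β hN hκ hη hε hsz hΛ hA hT hβ hlt
  have : Nonempty (Fin N) := ⟨⟨0, hN⟩⟩
  have hre : ∀ (r : Z → Fin N) (u : Z → G.T0 × G.T1) (μ : Z × Fin N × G.J → F2),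
      ∃ y : Z × Fin N × G.J → F2, y = put r μ fun z =>
        if β r y z then G.e1 (u z).2 else G.e0 (u z).1 := fun r u μ =>
    re_exists sz r (β r) (hβ r) (fun z => G.e0 (u z).1) (fun z => G.e1 (u z).2) μ
  choose re hre using hre
  have hc : (0 : ℝ) ≤ κ ^ q * (2 * ε + q * η) + 2 * ε := by
    have : (0 : ℝ) ≤ κ := zero_le_one.trans hκ
    positivity
  have key : ∀ τ ∈ 𝓣,
      pr (fun ω : (Z → Fin N) × ((Z → G.T0 × G.T1) × (Z × Fin N × G.J → F2)) =>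
        T τ ω.1 (re ω.1 ω.2.1 ω.2.2)) ≤ (((M * D : ℕ) : ℝ) / N) ^ q +
          2 ^ q * (κ ^ q * (2 * ε + q * η) + 2 * ε) := by
    intro τ hτ
    obtain ⟨Λ, hΛ1, hΛ2⟩ := hΛ τ hτ
    have hv := h1 (Z × Fin N × G.J) Z (Fin N) (fun ν => some (ν.1, ν.2.1)) (fun ν => sz ν.1)
      (fun _ => Λ) M D q fun _ _ => hΛ1
    rw [Fintype.card_fin] at hv
    refine (pr_cond_le _ (fun r : Z → Fin N => ¬ ∃ Y : Finset Z, Y.card < q ∧
      Msk (fun ν : Z × Fin N × G.J => some (ν.1, ν.2.1)) (fun ν => sz ν.1) Λ M r Y)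
      (mul_nonneg (by positivity) hc) ?_).trans (add_le_add hv le_rfl)
    intro r hr
    obtain ⟨Y, hY, hM⟩ := not_not.1 hr
    have s1 : pr (fun p : (Z → G.T0 × G.T1) × (Z × Fin N × G.J → F2) => T τ r (re r p.1 p.2)) ≤
        pr fun p : (Z → G.T0 × G.T1) × (Z × Fin N × G.J → F2) =>
          ∃ B ∈ Y.powerset, T τ r (put r p.2 (G.sel (· ∈ B) p.1)) := by
      refine pr_prod_mono fun u => ?_
      refine (h3 Z G.J sz M N r Λ (T τ r) (β r) (fun z => G.e0 (u z).1) (fun z => G.e1 (u z).2) Y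
        (re r u) hsz (hΛ2 r) (hβ r) hM (hre r u)).trans (pr_mono ?_)
      rintro μ ⟨B, hB, hB'⟩
      refine ⟨B, hB, ?_⟩
      have e : G.sel (· ∈ B) u = fun z => if z ∈ B then G.e1 (u z).2 else G.e0 (u z).1 := by
        funext z
        by_cases hz : z ∈ B
        · rw [if_pos hz]
          exact if_pos hz
        · rw [if_neg hz]
          exact if_neg hz
      rw [e]
      exact hB'
    refine s1.trans ((pr_ex Y.powerset _ (ε := κ ^ q * (2 * ε + q * η) + 2 * ε) ?_).trans ?_)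
    · intro B hB
      have hBq : B.card ≤ q := (card_le_card (mem_powerset.1 hB)).trans hY.le
      rw [← pr_swap]
      refine pr_le_of_all _ hc fun μ => ?_
      refine (h2 t m0 d κ η ε G Z N r μ (T τ r) hκ hη (hA τ hτ r) (hT τ hτ r) B).trans ?_
      have e1 : κ ^ B.card ≤ κ ^ q := pow_le_pow_right₀ hκ hBq
      have e2 : (B.card : ℝ) * η ≤ q * η :=
        mul_le_mul_of_nonneg_right (Nat.cast_le.2 hBq) hη
      have e3 : (0 : ℝ) ≤ κ ^ q := pow_nonneg (zero_le_one.trans hκ) _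
      have e4 : (0 : ℝ) ≤ 2 * ε + B.card * η :=
        add_nonneg (mul_nonneg zero_le_two hε) (mul_nonneg (Nat.cast_nonneg _) hη)
      exact add_le_add (mul_le_mul e1 (add_le_add le_rfl e2) e4 e3) le_rfl
    · refine mul_le_mul_of_nonneg_right ?_ hc
      rw [card_powerset]
      exact_mod_cast Nat.pow_le_pow_right (by norm_num) hY.le
  obtain ⟨ω, hω⟩ := exists_of_pr_lt ((pr_ex 𝓣 _ key).trans_lt hlt)
  refine ⟨ω.1, re ω.1 ω.2.1 ω.2.2, fun z => ?_, fun τ hτ h => hω ⟨τ, hτ, h⟩⟩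
  have e : (fun j => re ω.1 ω.2.1 ω.2.2 (z, ω.1 z, j)) =
      if β ω.1 (re ω.1 ω.2.1 ω.2.2) z then G.e1 (ω.2.1 z).2 else G.e0 (ω.2.1 z).1 := by
    funext j
    exact (congrFun (hre ω.1 ω.2.1 ω.2.2) (z, ω.1 z, j)).trans (if_pos rfl)
  rw [e]
  by_cases hz : β ω.1 (re ω.1 ω.2.1 ω.2.2) z
  · rw [if_pos hz]
    exact iff_of_true (G.h1 _) hz
  · rw [if_neg hz]
    exact iff_of_false (G.h0 _) hz

end Pool.Agent.P.MP_d3fb3e_lc.AF
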