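import Pool.Agent.P.MP_d3fb3e_lc.AF.Defs
import Pool.Agent.P.MP_d3fb3e_lc.Stage

/-! Affine oracles: cells, conditions, and the statements of the parts of a stage. -/

namespace Pool.Agent.P.MP_d3fb3e_lc.AF

open Finset Classical Filter
open Pool.Agent.P.MP_d1c5a4_lc (pr)
open Pool.Agent.Lib.helper21 (sz)

/-- A scheme of parity queries. -/
structure Sch where
  E : List Bool → Finset (List Bool)
  len : ∀ q, ∀ w ∈ E q, w.length ≤ q.length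
  emb : ∀ w, E (false :: w) = {w}

/-- The extension of an oracle. -/
def Sch.ext (e : Sch) (A : List Bool → Bool) (q : List Bool) : Bool :=
  decide (∑ w ∈ e.E q, (if A w = true then 1 else 0 : F2) = 1)

/-- Every additive local extension operator comes from a scheme. -/
def PSch : Prop := ∀ X : (List Bool → Bool) → List Bool → Bool,
  (∀ A B q, X (fun w => xor (A w) (B w)) q = xor (X A q) (X B q)) →
  (∀ A B q, (∀ w : List Bool, w.length ≤ q.length → A w = B w) → X A q = X B q) →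
  (∀ A w, X A (false :: w) = A w) → ∃ e : Sch, ∀ A, X A = e.ext A

/-- A variable `(z, p, X, v)`: cell, location, row, leaf. -/
abbrev Var : Type := Cell × List Bool × List Bool × ℕ

/-- The address of a variable. -/
def ad (ν : Var) : List Bool := rA ν.1 ν.2.1 ν.2.2.2 ν.2.2.1

theorem ad_inj : Function.Injective ad := fun ⟨_, _, _, _⟩ ⟨_, _, _, _⟩ h => by
  obtain ⟨rfl, rfl, rfl, rfl⟩ := rA_inj h
  rfl

theorem ad_len (ν : Var) : sz ν.1 < (ad ν).length := by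
  rw [ad, rA_len]
  omega

/-- The oracle before the extension. -/
noncomputable def orc (π : Cell → ℕ → Bool) (κ : Var → F2) (w : List Bool) : Bool :=
  decide ((∃ z u, w = pA z u ∧ π z u.length = true) ∨ ∃ ν, w = ad ν ∧ κ ν = 1)

theorem orc_pA (π : Cell → ℕ → Bool) (κ : Var → F2) (z : Cell) (u : List Bool) :
    orc π κ (pA z u) = π z u.length := by
  rw [Bool.eq_iff_iff, orc, decide_eq_true_eq]
  refine ⟨?_, fun h => Or.inl ⟨z, u, rfl, h⟩⟩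
  rintro (⟨z', w', h1, h2⟩ | ⟨ν, h1, -⟩)
  · obtain ⟨⟩ := enc_prod enc_cell enc_bits (List.cons.inj h1).2
    exact h2
  · simp [pA, ad, rA] at h1

theorem orc_ad (π : Cell → ℕ → Bool) (κ : Var → F2) (ν : Var) :
    orc π κ (ad ν) = decide (κ ν = 1) := by
  rw [orc, decide_eq_decide]
  refine ⟨?_, fun h => Or.inr ⟨ν, rfl, h⟩⟩
  rintro (⟨z', w', h1, h2⟩ | ⟨ν', h1, h2⟩)
  · simp [pA, ad, rA] at h1
  · exact ad_inj h1 ▸ h2

namespace Sch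

variable (e : Sch)

/-- The variables in a query. -/
noncomputable def S (a : List Bool) : Finset Var := (e.E a).preimage ad ad_inj.injOn

/-- The extended oracle. -/
noncomputable def O (π : Cell → ℕ → Bool) (κ : Var → F2) : List Bool → Bool := e.ext (orc π κ)

/-- The contribution of the pointers. -/
noncomputable def base (π : Cell → ℕ → Bool) (a : List Bool) : F2 :=
  ∑ w ∈ e.E a, if orc π 0 w = true then 1 else 0

variable {e} {π π' : Cell → ℕ → Bool} {κ κ' : Var → F2} {a : List Bool}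

theorem S_lt {ν : Var} (h : ν ∈ e.S a) : sz ν.1 < a.length :=
  (ad_len ν).trans_le (e.len _ _ (mem_preimage.1 h))

theorem O_eq (e : Sch) (π : Cell → ℕ → Bool) (κ : Var → F2) (a : List Bool) :
    e.O π κ a = decide (e.base π a + ∑ ν ∈ e.S a, κ ν = 1) := by
  have h1 : ∑ ν ∈ e.S a, κ ν = ∑ w ∈ e.E a, if h : ∃ ν, w = ad ν then κ h.choose else 0 := by
    rw [S, ← sum_preimage ad (e.E a) ad_inj.injOn]
    · refine sum_congr rfl fun ν _ => ?_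
      have h : ∃ ν', ad ν = ad ν' := ⟨ν, rfl⟩
      rw [dif_pos h, ← ad_inj h.choose_spec]
    · exact fun w _ hw => dif_neg fun ⟨ν, h⟩ => hw ⟨ν, h.symm⟩
  rw [O, ext, base, h1, ← sum_add_distrib]
  congr 2
  refine sum_congr rfl fun w _ => ?_
  split_ifs with b1 b2 b3 b4 b5 b6 b7
  · obtain ⟨ν, rfl⟩ := b3
    simp [orc_ad] at b2
  · simp
  · rw [b4.choose_spec, orc_ad, decide_eq_true_eq] at b1
    simp [b1]
  · simp only [orc, decide_eq_true_eq] at b1 b2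
    exact absurd (b1.imp_right fun ⟨ν, h, _⟩ => absurd ⟨ν, h⟩ b4) b2
  · obtain ⟨ν, rfl⟩ := b6
    simp [orc_ad] at b5
  · simp only [orc, decide_eq_true_eq] at b1 b5
    exact absurd (b5.imp_right fun ⟨ν, h, _⟩ => absurd ⟨ν, h⟩ b6) b1
  · rw [b7.choose_spec, orc_ad, decide_eq_true_eq] at b1
    simp [(F2.cases _).resolve_right b1]
  · simp

theorem O_congr (h : ∑ ν ∈ e.S a, κ ν = ∑ ν ∈ e.S a, κ' ν) : e.O π κ a = e.O π κ' a := by
  rw [O_eq, O_eq, h]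

theorem O_loc (h1 : ∀ z, sz z < a.length → π z = π' z)
    (h2 : ∀ ν, sz ν.1 < a.length → κ ν = κ' ν) : e.O π κ a = e.O π' κ' a := by
  rw [O, O, ext, ext]
  congr 2
  refine sum_congr rfl fun w hw => ?_
  have := e.len _ _ hw
  have h3 : orc π κ w = orc π' κ' w := decide_eq_decide.2 (or_congr
    (exists₂_congr fun z u => and_congr_right fun h => by
      rw [h1 z (by have := pA_len z u; rw [← h] at this; omega)])
    (exists_congr fun ν => and_congr_right fun h => by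
      rw [h2 ν (by have := ad_len ν; rw [← h] at this; omega)]))
  rw [h3]

theorem O_emb (e : Sch) (π : Cell → ℕ → Bool) (κ : Var → F2) (w : List Bool) :
    e.O π κ (false :: w) = orc π κ w := by
  rw [O, ext, e.emb, sum_singleton]
  cases orc π κ w <;> simp

end Sch

/-- The rows at the location of the pointer. -/
noncomputable def blk (π : Cell → ℕ → Bool) (κ : Var → F2) (z : Cell) : Ct :=
  fun X v => decide (κ (z, ptr π z, X, v) = 1)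

/-- Decoding a cell. -/
def PDec : Prop := ∀ (e : Sch) (π : Cell → ℕ → Bool) (κ : Var → F2)
  (L L₁ : Set (List Bool × ℕ)), Red (e.O π κ) L L₁ → ∀ s h d : ℕ,
  (∀ x k, (x, k) ∈ L₁ ↔ En d (s, h, k, x) (blk π κ (s, h, k, x))) → L ∈ W (e.O π κ) (d + 1)

/-- A seed `(h, k, x)`. -/
abbrev Sd : Type := ℕ × ℕ × List Bool

/-- The queries protected by a seed. -/
noncomputable def rd (q : Sd) : Finset (List Bool) := insert q.2.2 (reads q.2.2 q.2.1 q.1)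

theorem rd_len {q : Sd} {a : List Bool} (h : a ∈ rd q) : a.length ≤ q.2.2.length := by
  rcases mem_insert.1 h with rfl | h
  exacts [le_rfl, reads_len h]

theorem rds_sub (q : Cell) : rds q ⊆ rd q.2 := subset_insert _ _

theorem card_rd {q : Sd} {M K : ℕ} (hM : 2 ≤ M) (hx : q.2.2.length ≤ M) (hK : q.2.1 + q.1 ≤ K) :
    (rd q).card ≤ M ^ (K + 2) := by
  have h1 := (card_reads q.2.2 q.2.1 q.1 hM hx).trans
    (Nat.pow_le_pow_right (by omega) (show _ ≤ K + 1 by omega))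
  have h2 : 1 ≤ M ^ (K + 1) := Nat.one_le_pow _ _ (by omega)
  refine (card_insert_le _ _).trans ?_
  rw [pow_succ M (K + 1)]
  nlinarith

/-- The data of a stage. -/
structure Cx where
  e : Sch
  S : Set ℕ
  t : ℕ
  K : ℕ
  K' : ℕ
  n : ℕ
  M : ℕ
  zs : Cell
  old : Var → F2
  π : Cell → ℕ → Bool

/-- A condition: seeds, decided cells with their bits, protected queries, fixed queries,
the background and the witness. -/
structure St where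
  Q : Finset Sd
  Z : Finset Cell
  b : Cell → Bool
  P : Finset (List Bool)
  R : Finset (List Bool)
  κ : Var → F2
  ω : Var → F2

namespace Cx

variable (c : Cx)

/-- Cells that stay undecided. -/
def U (z : Cell) : Prop :=
  (z = c.zs ∨ z.1 + 1 ∈ c.S) ∧ (c.K' < par z ∨ (c.t ≤ dp c.S z ∧ c.K < par z))

/-- The variables in the rows of undecided cells. -/
def isU (ν : Var) : Prop := c.n ≤ sz ν.1 ∧ c.U ν.1 ∧ ν.2.1 = ptr c.π ν.1

/-- The contents of all cells. -/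
noncomputable def wld (κ ω : Var → F2) (ν : Var) : F2 := if c.isU ν then ω ν else κ ν

/-- The oracle. -/
noncomputable def O (κ ω : Var → F2) : List Bool → Bool := c.e.O c.π (c.wld κ ω)

/-- The part of a query in the undecided rows. -/
noncomputable def lU (a : List Bool) (ω : Var → F2) : F2 := ∑ ν ∈ c.e.S a, c.wld 0 ω ν

/-- The part of a query in the background. -/
noncomputable def lN (a : List Bool) (κ : Var → F2) : F2 := ∑ ν ∈ c.e.S a, c.wld κ 0 ν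

theorem sum_wld (a : List Bool) (κ ω : Var → F2) :
    ∑ ν ∈ c.e.S a, c.wld κ ω ν = c.lN a κ + c.lU a ω := by
  rw [lN, lU, ← sum_add_distrib]
  refine sum_congr rfl fun ν _ => ?_
  unfold wld
  split_ifs <;> simp

theorem O_congr {κ κ' ω ω' : Var → F2} {a : List Bool} (h1 : c.lN a κ = c.lN a κ')
    (h2 : c.lU a ω = c.lU a ω') : c.O κ ω a = c.O κ' ω' a :=
  Sch.O_congr (by rw [sum_wld, sum_wld, h1, h2])

/-- All rows are false. -/
def AF (ω : Var → F2) : Prop := ∀ z X, ¬ Tm (sz z) (blk c.π ω z X) (dp c.S z) true 0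

/-- Agreement on the fixed queries. -/
def Ag (γ : St) (ω : Var → F2) : Prop := ∀ a ∈ γ.R, c.lU a ω = c.lU a γ.ω

/-- Extension of conditions. -/
def le (γ γ' : St) : Prop :=
  γ.P ⊆ γ'.P ∧ γ.R ⊆ γ'.R ∧ (∀ a ∈ γ.P, c.lN a γ'.κ = c.lN a γ.κ) ∧ c.Ag γ γ'.ω

/-- Instances that are treated by approximation. -/
def small (q : Cell) : Prop := q.1 ≤ c.t ∧ par q ≤ c.K' ∧ q.2.2.2.length ≤ c.M

/-- The instance `q` is false in all worlds with false rows. -/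
def Neg (γ : St) (q : Cell) : Prop :=
  rds q ⊆ γ.P ∧ c.small q ∧ ∀ ω, c.Ag γ ω → c.AF ω → ¬ src (c.O γ.κ ω) q

/-- The instance `q` has been given the value `v`. -/
def Good (γ : St) (q : Cell) (v : Bool) : Prop :=
  (rds q ⊆ γ.P ∧ ∀ ω, c.Ag γ ω → (src (c.O γ.κ ω) q ↔ v = true)) ∨ (v = false ∧ c.Neg γ q)

/-- The invariant. -/
structure Inv (γ : St) : Prop where
  af : c.AF γ.ω
  good : ∀ z ∈ γ.Z, z.1 + 1 ∈ c.S → c.Good γ (up z) (γ.b z)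
  sub : γ.R ⊆ γ.P
  len : ∀ a ∈ γ.P, a.length ≤ c.M
  old : ∀ ν, sz ν.1 < c.n → γ.κ ν = c.old ν
  bk : ∀ z, c.n ≤ sz z → ¬ c.U z → ∀ X v,
    γ.κ (z, ptr c.π z, X, v) = if z ∈ γ.Z ∧ γ.b z = true then 1 else 0

/-- The block of `z` can be switched without changing the answers to the queries in `P`. -/
def Comp (P : Finset (List Bool)) (z : Cell) : Prop :=
  ∃ u : Var → F2, (∀ ν, u ν ≠ 0 → sz ν.1 = sz z ∧ (ν.2.1 = ptr c.π ν.1 → ν.1 = z)) ∧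
    (∀ X v, u (z, ptr c.π z, X, v) = 1) ∧ ∀ a ∈ P, ∑ ν ∈ c.e.S a, u ν = 0

/-- Admissible seeds. -/
def sd (q : Sd) : Prop := q.2.1 + q.1 ≤ c.K' ∧ q.2.2.length ≤ c.M

/-- The queries of the seeds in `Q` and of the cells in `Y`. -/
noncomputable def fam (Q : Finset Sd) (Y : Finset Cell) : Finset (List Bool) :=
  ((Q ∪ Y.image Prod.snd).filter c.sd).biUnion rd

/-- Closed sets of cells. -/
def Cl (Q : Finset Sd) (Y : Finset Cell) : Prop :=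
  ∀ z, c.n ≤ sz z → z ∉ Y → c.Comp (c.fam Q Y) z

/-- The pointers are hard to guess. -/
def HP : Prop := ∀ Q : Finset Sd, Q.card ≤ c.M + 1 → ∃ Y, Y.card ≤ (c.M + 2) ^ 2 ∧ c.Cl Q Y

/-- The invariant and the budget after `i` steps. -/
structure Ok (i : ℕ) (γ : St) : Prop where
  inv : c.Inv γ
  cq : γ.Q.card ≤ i
  least : ∀ Y, c.Cl γ.Q Y → γ.Z ⊆ Y ∧ γ.P ⊆ c.fam γ.Q Y
  comp : ∀ z, c.n ≤ sz z → ¬ c.U z → z ∉ γ.Z → c.Comp γ.P z
  cr : γ.R.card ≤ (γ.Z.card + i) * c.M ^ (c.K + 2)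

/-- The oracles that are compatible with a condition. -/
def sem (γ : St) : Set (List Bool → Bool) := {A | ∀ a ∈ γ.R, A a = c.O γ.κ γ.ω a}

/-- Undecided cells that get random rows. -/
def mid (z : Cell) : Prop := c.n ≤ sz z ∧ sz z ≤ c.M ∧ c.U z ∧ par z ≤ c.K'

/-- Cells that are switched by vectors of syndrome zero. -/
def sw (γ : St) (z : Cell) : Prop := c.n ≤ sz z ∧ ¬ c.mid z ∧ (c.U z ∨ z ∉ γ.Z)

end Cx

/-- Choice of the pointers. -/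
def PHide : Prop := ∀ c : Cx, 2 ≤ c.M → c.K' ≤ c.M →
  16 * ((c.M + 1) * ((c.M + 1 + (c.M + 2) ^ 2) * c.M ^ (c.K' + 2))) ≤ 2 ^ c.n →
  ∃ π : Cell → ℕ → Bool, (∀ z, sz z < c.n → π z = c.π z) ∧ Cx.HP { c with π := π }

/-- Deciding one instance. -/
def PStep : Prop := ∀ (c : Cx) (γ : St) (q : Cell), 2 ≤ c.M → c.K' ≤ c.M → c.Inv γ →
  rds q ⊆ γ.P → q.2.2.2.length ≤ c.M → (par q ≤ c.K ∨ c.small q) →
  ∃ R ω v, c.le γ { γ with R := R, ω := ω } ∧ c.Inv { γ with R := R, ω := ω } ∧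
    R.card ≤ γ.R.card + c.M ^ (c.K + 2) ∧ c.Good { γ with R := R, ω := ω } q v

/-- A new seed. -/
def PSeed : Prop := ∀ (c : Cx) (i : ℕ) (γ : St) (q : Sd), 2 ≤ c.M → c.K' ≤ c.M → c.t ∉ c.S →
  c.HP → i ≤ c.M → c.Ok i γ → c.sd q → ∃ γ', c.le γ γ' ∧ rd q ⊆ γ'.P ∧ c.Ok (i + 1) γ' ∧
    γ'.R.card ≤ (γ'.Z.card + i) * c.M ^ (c.K + 2)

/-- The switching vectors. -/
def PSw : Prop := ∀ (c : Cx) (i : ℕ) (γ : St), c.Ok i γ →
  (∀ z, c.n ≤ sz z → c.K' < par z → γ.P.card < (rows z).card) →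
  ∃ u : Cell → Var → F2, ∀ z, c.sw γ z →
    (∀ ν, u z ν ≠ 0 → sz ν.1 = sz z ∧ (ν.2.1 = ptr c.π ν.1 → ν.1 = z)) ∧
    (∀ a ∈ γ.P, ∑ ν ∈ c.e.S a, u z ν = 0) ∧
    ¬ En (dp c.S z) z (blk c.π (c.wld γ.κ γ.ω) z) ∧
    En (dp c.S z) z (blk c.π (fun ν => c.wld γ.κ γ.ω ν + u z ν) z)

/-- Switching by recursion on the size. -/
def PFix : Prop := ∀ (sw : Cell → Prop) (u : Cell → Var → F2) (β : (Var → F2) → Cell → Prop),
  (∀ z, sw z → ∀ ν, u z ν ≠ 0 → sz ν.1 = sz z) →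
  (∀ κ κ' z, (∀ ν, sz ν.1 < sz z → κ ν = κ' ν) → (β κ z ↔ β κ' z)) →
  ∃ Φ : (Var → F2) → Var → F2,
    (∀ κ κ' s, (∀ ν, sz ν.1 < s → κ ν = κ' ν) → ∀ ν, sz ν.1 < s → Φ κ ν = Φ κ' ν) ∧
    (∀ κ (s : Finset Var), (∀ z, sw z → ∑ ν ∈ s, u z ν = 0) → ∑ ν ∈ s, Φ κ ν = ∑ ν ∈ s, κ ν) ∧
    ∀ κ ν, (∀ z, sw z → z ≠ ν.1 → u z ν = 0) →
      Φ κ ν = κ ν + if sw ν.1 ∧ β (Φ κ) ν.1 then u ν.1 ν else 0

/-- The random rows. -/
def PMid : Prop := ∀ (c : Cx) (γ : St) (d N : ℕ) (κ η : ℝ) (G : Gad c.t c.n d κ η)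
  (Z : Type) [Fintype Z] (ι : Z → Cell), Function.Injective ι → (∀ z, c.mid (ι z)) →
  1 ≤ c.t → 2 ≤ c.n → c.AF γ.ω →
  (∀ z, c.n ≤ sz z → c.K < par z → γ.R.card ^ 2 + γ.R.card + N ≤ (rows z).card) →
  ∃ ω : (Z → Fin N) → (Z × Fin N × G.J → F2) → Var → F2,
    (∀ r y ν, (∀ z, ι z ≠ ν.1) → ω r y ν = γ.ω ν) ∧
    (∀ r y y' z, (∀ i j, y (z, i, j) = y' (z, i, j)) → ∀ p, ω r y (ι z, p) = ω r y' (ι z, p)) ∧
    (∀ r y, c.Ag γ (ω r y)) ∧
    (∀ ν, ∃ l : Z × Fin N × G.J → F2, ∀ r, ∃ b, ∀ y, ω r y ν = b + ∑ i, l i * y i) ∧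
    (∀ r y z, En (dp c.S (ι z)) (ι z) (blk c.π (ω r y) (ι z)) ↔ G.Ψ fun j => y (z, r z, j)) ∧
    ∀ r y, (∀ z, ¬ G.Ψ fun j => y (z, r z, j)) → c.AF (ω r y)

/-- The final world of a stage. -/
def PFinal : Prop := ∀ (c : Cx) (i : ℕ) (γ : St) (l q : ℕ) (κ η : ℝ)
  (_ : Gad c.t c.n (2 ^ c.K' * l ^ (c.t - 1)) κ η) (𝓠 : Finset Cell)
  (β : (Var → F2) → Cell → Prop), c.Ok i γ → 1 ≤ c.t → 2 ≤ c.n → 2 ≤ c.M → c.K' ≤ c.M → 1 ≤ l →
  1 ≤ κ → 0 ≤ η →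
  (∀ z, c.n ≤ sz z → c.K' < par z → γ.P.card < (rows z).card) →
  (∀ z, c.n ≤ sz z → c.K < par z → γ.R.card ^ 2 + γ.R.card + c.M ^ 5 ≤ (rows z).card) →
  (∀ q ∈ 𝓠, c.Neg γ q) →
  (∀ κ κ' z, (∀ ν, sz ν.1 < sz z → κ ν = κ' ν) → (β κ z ↔ β κ' z)) →
  ((𝓠.card * c.M ^ c.K' : ℕ) : ℝ) * (((((c.M + 1) * c.M ^ 2 : ℕ) : ℝ) / (c.M ^ 5 : ℕ)) ^ q +
    2 ^ q * (κ ^ q * (2 * (((c.M : ℝ) + 1) ^ c.K' / 2 ^ l) + q * η) +
      2 * (((c.M : ℝ) + 1) ^ c.K' / 2 ^ l))) < 1 →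
  ∃ κ' ω : Var → F2, (∀ ν, sz ν.1 < c.n → κ' ν = c.old ν) ∧
    (∀ z, c.n ≤ sz z → ¬ c.U z → z ∈ γ.Z → (En (dp c.S z) z (blk c.π κ' z) ↔ γ.b z = true)) ∧
    (∀ z, c.n ≤ sz z → c.U z ∨ z ∉ γ.Z → (En (dp c.S z) z (blk c.π κ' z) ↔ β κ' z)) ∧
    c.Ag γ ω ∧ (∀ a ∈ γ.P, c.e.O c.π κ' a = c.O γ.κ ω a) ∧ ∀ q ∈ 𝓠, ¬ src (c.O γ.κ ω) q

/-- The numerical inequalities of a stage. -/
def PNum : Prop := ∀ e K' : ℕ, 1 ≤ e → ∃ C1 B : ℕ, 1 ≤ C1 ∧ ∀ᶠ L : ℕ in atTop,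
  ∀ M : ℕ, M = (4 ^ (L + 2)) ^ e →
    16 * ((M + 1) * ((M + 1 + (M + 2) ^ 2) * M ^ (K' + 2))) ≤ 2 ^ 4 ^ (L + 2) ∧
    (((((M + 2) ^ 2 + 1) * M ^ K' : ℕ) : ℝ)) *
      (((((M + 1) * M ^ 2 : ℕ) : ℝ) / (M ^ 5 : ℕ)) ^ (K' + 6) + 2 ^ (K' + 6) *
        ((2 ^ (3 * L)) ^ (K' + 6) * (2 * (((M : ℝ) + 1) ^ K' / 2 ^ (C1 * L)) +
          ((K' + 6 : ℕ) : ℝ) * (1 / 2 ^ (B * L))) + 2 * (((M : ℝ) + 1) ^ K' / 2 ^ (C1 * L)))) < 1

end Pool.Agent.P.MP_d3fb3e_lc.AF
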