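import Pool.Agent.P.MP_d3fb3e_lc.AF.Defs

/-! Long chains of correct guesses are unlikely; few special blocks are visible. -/

namespace Pool.Agent.P.MP_d3fb3e_lc.AF

open Finset Classical
open Pool.Agent.P.MP_d1c5a4_lc

namespace Chain

variable {C P : Type} [DecidableEq C]

/-- The possible histories of `i` successful guesses. -/
noncomputable def hist (Cand : Finset (C × P) → Finset (C × P)) : ℕ → Finset (Finset (C × P))
  | 0 => {∅}
  | i + 1 => (hist Cand i).biUnion fun s =>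
      ((Cand s).filter fun e => e.1 ∉ s.image Prod.fst).image fun e => insert e s

theorem hist_mem {Cand : Finset (C × P) → Finset (C × P)} {i : ℕ} {s : Finset (C × P)}
    (h : s ∈ hist Cand i) : s.card = i ∧ (s.image Prod.fst).card = i := by
  induction i generalizing s with
  | zero => simp_all [hist]
  | succ i ih =>
    obtain ⟨s, h1, h2⟩ := mem_biUnion.1 h
    obtain ⟨e, h3, rfl⟩ := mem_image.1 h2
    have h4 := (mem_filter.1 h3).2
    rw [image_insert, card_insert_of_notMem fun h => h4 (mem_image_of_mem _ h),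
      card_insert_of_notMem h4, (ih h1).1, (ih h1).2]
    exact ⟨rfl, rfl⟩

theorem hist_card {Cand : Finset (C × P) → Finset (C × P)} {B r : ℕ}
    (h0 : ∀ s, s.card < r → (Cand s).card ≤ B) {i : ℕ} (hi : i ≤ r) :
    (hist Cand i).card ≤ B ^ i := by
  induction i with
  | zero => simp [hist]
  | succ i ih =>
    rw [pow_succ]
    refine (card_biUnion_le_card_mul _ _ B fun s hs => ?_).trans
      (Nat.mul_le_mul_right _ (ih (by omega)))
    refine card_image_le.trans ((card_filter_le _ _).trans (h0 s ?_))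
    rw [(hist_mem hs).1]
    omega

theorem key (Cand : Finset (C × P) → Finset (C × P)) (ω : C → P) (i : ℕ) :
    (∃ s ∈ hist Cand i, ∀ e ∈ s, ω e.1 = e.2) ∨ ∃ s : Finset (C × P), s.card < i ∧
      (∀ e ∈ s, ω e.1 = e.2) ∧ ∀ z, (z, ω z) ∈ Cand s → (z, ω z) ∈ s := by
  induction i with
  | zero => exact Or.inl ⟨∅, by simp [hist], by simp⟩
  | succ i ih =>
    rcases ih with ⟨s, h2, h3⟩ | ⟨s, h2, h3⟩
    swap
    · exact Or.inr ⟨s, by omega, h3⟩
    by_cases h4 : ∃ z, (z, ω z) ∈ Cand s ∧ z ∉ s.image Prod.fst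
    · obtain ⟨z, h4, h5⟩ := h4
      refine Or.inl ⟨insert (z, ω z) s, mem_biUnion.2 ⟨s, h2, mem_image.2 ⟨_, mem_filter.2
        ⟨h4, h5⟩, rfl⟩⟩, ?_⟩
      simpa using fun a b h => h3 (a, b) h
    · push Not at h4
      refine Or.inr ⟨s, by rw [(hist_mem h2).1]; omega, h3, fun z hz => ?_⟩
      obtain ⟨e, he, rfl⟩ := mem_image.1 (h4 z hz)
      rw [h3 e he]
      exact he

end Chain

open Chain in
theorem pChain : PChain := by
  intro C P _ _ _ _ Cand B r h0
  refine (pr_mono (F := fun ω : C → P => ∃ s ∈ hist Cand r, ∀ e ∈ s, ω e.1 = e.2)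
    fun ω h => (key Cand ω r).resolve_right h).trans ?_
  refine (pr_ex _ _ (ε := (1 / (Fintype.card P : ℝ)) ^ r) fun s hs => ?_).trans ?_
  · rw [pr_congr (F := fun ω : C → P => ∀ z ∈ s.image Prod.fst, ∀ e ∈ s, e.1 = z → ω z = e.2)
      fun ω => ⟨fun h z _ e he hz => hz ▸ h e he,
        fun h e he => h _ (mem_image_of_mem _ he) e he rfl⟩,
      pr_pi_on _ fun z p => ∀ e ∈ s, e.1 = z → p = e.2]
    rw [← (hist_mem hs).2, ← prod_const]
    refine prod_le_prod (fun _ _ => pr_nonneg _) fun z hz => ?_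
    obtain ⟨e, he, rfl⟩ := mem_image.1 hz
    exact (pr_mono fun p hp => hp e he rfl).trans_eq (pr_eq e.2)
  · rw [div_eq_mul_one_div (B : ℝ), mul_pow]
    gcongr
    exact_mod_cast hist_card h0 le_rfl

theorem pVis (h1 : PInfo) (h2 : PChain) : PVis := by
  intro V C P _ _ _ _ blk cls Fam M D r hD
  choose I hI using fun (k : ℕ) (s : Finset (C × P)) => h1 V (Fam (s.image Prod.fst))
    {ν | cls ν = k ∧ ∀ e ∈ s, blk ν ≠ some e}
  refine le_trans (pr_mono fun ω h => ?_) (h2 C P (fun s =>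
    ((range M).biUnion fun k => I k s).biUnion fun ν => (blk ν).toFinset) (M * D) r
    fun s hs => ?_)
  · rintro ⟨s, a1, a2, a3⟩
    refine h ⟨s.image Prod.fst, card_image_le.trans_lt a1, fun k hk u hu => ?_⟩
    obtain ⟨c, b1, b2⟩ := (hI k s).2.2 u fun ν hν => ⟨(hu ν hν).1, fun e he => by
      have := (hu ν hν).2 e.1 (mem_image_of_mem _ he)
      rwa [a2 e he] at this⟩
    refine ⟨c, fun ν hν => ?_, b2⟩
    have b3 := (hI k s).1 ν (b1 ν hν)
    refine ⟨b3.1, fun z hz => b3.2 _ (a3 z ?_) hz⟩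
    exact mem_biUnion.2 ⟨ν, mem_biUnion.2 ⟨k, mem_range.2 hk, b1 ν hν⟩,
      Option.mem_toFinset.2 hz⟩
  · refine (card_biUnion_le_card_mul _ _ 1 fun ν _ => ?_).trans ?_
    · cases blk ν <;> simp
    · rw [mul_one]
      refine (card_biUnion_le_card_mul _ _ D fun k _ => ?_).trans (by rw [card_range])
      exact (hI k s).2.1.trans (hD _ (card_image_le.trans_lt hs))

end Pool.Agent.P.MP_d3fb3e_lc.AF
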