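import Pool.Agent.P.MP_d3fb3e_lc.AF.Defs

/-! Affine compensation of parity constraints on few rows. -/

namespace Pool.Agent.P.MP_d3fb3e_lc.AF

open Finset Classical Submodule Module

namespace Cmp

variable {B C M : Type} [AddCommGroup M] [Module F2 M] [Module.Finite F2 M]

/-- A maximal independent set of cells in distinct rows outside `F`. -/
theorem greedy (col : B × C → M) (F : Finset B) : ∃ I : Finset (B × C),
    Set.InjOn Prod.fst (I : Set (B × C)) ∧ (∀ ν ∈ I, ν.1 ∉ F) ∧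
    I.card ≤ finrank F2 (span F2 (col '' (I : Set (B × C)))) ∧
    ∀ ν : B × C, ν.1 ∉ F ∪ I.image Prod.fst → col ν ∈ span F2 (col '' (I : Set (B × C))) := by
  let S : Set ℕ := {n | ∃ I : Finset (B × C), (Set.InjOn Prod.fst (I : Set (B × C)) ∧
    (∀ ν ∈ I, ν.1 ∉ F) ∧ I.card ≤ finrank F2 (span F2 (col '' (I : Set (B × C))))) ∧ I.card = n}
  have hb : BddAbove S := ⟨finrank F2 M, by
    rintro n ⟨I, ⟨-, -, h⟩, rfl⟩
    exact h.trans (Submodule.finrank_le _)⟩
  obtain ⟨I, ⟨h1, h2, h3⟩, h4⟩ := Nat.sSup_mem (s := S) ⟨0, ∅, by simp, rfl⟩ hb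
  refine ⟨I, h1, h2, h3, fun ν hν => ?_⟩
  by_contra hn
  rw [mem_union, not_or] at hν
  have hI : ν ∉ I := fun h => hν.2 (mem_image_of_mem _ h)
  have hlt : span F2 (col '' (I : Set (B × C))) <
      span F2 (col '' ((insert ν I : Finset (B × C)) : Set (B × C))) := by
    refine lt_of_le_of_ne (span_mono (Set.image_mono (by simp))) fun e => hn ?_
    rw [e]
    exact subset_span ⟨ν, by simp, rfl⟩
  have h5 := Submodule.finrank_lt_finrank_of_lt hlt
  have h6 : I.card + 1 ∈ S := by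
    refine ⟨insert ν I, ⟨?_, ?_, ?_⟩, card_insert_of_notMem hI⟩
    · rw [coe_insert, Set.injOn_insert (by simpa using hI)]
      refine ⟨h1, ?_⟩
      rintro ⟨μ, hμ, e⟩
      exact hν.2 (mem_image.2 ⟨μ, hμ, e⟩)
    · intro μ hμ
      rcases mem_insert.1 hμ with rfl | hμ
      · exact hν.1
      · exact h2 μ hμ
    · rw [card_insert_of_notMem hI]; omega
  have := le_csSup hb h6
  omega

theorem basis (col : B × C → M) : ∀ (k : ℕ) (F : Finset B) (W : Submodule F2 M),
    finrank F2 W ≤ k → (∀ ν : B × C, ν.1 ∉ F → col ν ∈ W) →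
    ∃ (F0 : Finset B) (I : Finset (B × C)), F0.card ≤ F.card + k ^ 2 ∧ I.card ≤ k ∧
      Set.InjOn Prod.fst (I : Set (B × C)) ∧ (∀ ν ∈ I, ν.1 ∉ F0) ∧
      ∀ ν : B × C, ν.1 ∉ F0 → col ν ∈ span F2 (col '' (I : Set (B × C))) := by
  intro k
  induction k using Nat.strong_induction_on with
  | _ k ih =>
    intro F W hW hF
    obtain ⟨I, h1, h2, h3, h4⟩ := greedy col F
    have hle : span F2 (col '' (I : Set (B × C))) ≤ W := by
      rw [span_le]
      rintro _ ⟨ν, hν, rfl⟩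
      exact hF ν (h2 ν hν)
    rcases hle.eq_or_lt with e | hlt
    · exact ⟨F, I, by omega, by rw [e] at h3; omega, h1, h2, fun ν hν => e ▸ hF ν hν⟩
    · have h5 := Submodule.finrank_lt_finrank_of_lt hlt
      obtain ⟨k, rfl⟩ : ∃ k', k = k' + 1 := ⟨k - 1, by omega⟩
      obtain ⟨F0, I', g1, g2, g3⟩ := ih k (by omega) (F ∪ I.image Prod.fst) _ (by omega) h4
      refine ⟨F0, I', ?_, by omega, g3⟩
      have := card_union_le F (I.image Prod.fst)
      have := card_image_le (s := I) (f := Prod.fst)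
      have : (k + 1) ^ 2 = k ^ 2 + 2 * k + 1 := by ring
      omega

end Cmp

theorem pCmp : PCmp := by
  intro B C Λ w0
  let col : B × C → ({s // s ∈ Λ} → F2) := fun ν s => if ν ∈ s.1 then 1 else 0
  obtain ⟨F0, I, h1, h2, h3, h4, h5⟩ := Cmp.basis col Λ.card ∅ ⊤ (by simp) (by simp)
  have h6 : ∀ ν : B × C, ∃ c : B × C → F2, ν.1 ∉ F0 → ∑ μ ∈ I, c μ • col μ = col ν := by
    intro ν
    by_cases hν : ν.1 ∈ F0
    · exact ⟨0, fun h => absurd hν h⟩
    · obtain ⟨c, hc⟩ := (Submodule.mem_span_image_finset_iff_exists_fun' F2).1 (h5 ν hν)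
      exact ⟨c, fun _ => hc⟩
  choose c hc using h6
  let F := F0 ∪ I.image Prod.fst
  let Rel : Finset (B × C) := Λ.biUnion id
  let g : (B × C → F2) → B × C → F2 := fun w ν =>
    (if ν.1 ∈ F0 then 0 else w0 ν) + if ν.1 ∈ F then 0 else w ν
  let a : (B × C → F2) → B × C → F2 := fun w μ => ∑ ν ∈ Rel, g w ν * c ν μ
  have hIF : ∀ ν ∈ I, ν.1 ∈ F := fun ν hν => mem_union_right _ (mem_image_of_mem _ hν)
  have h0F : ∀ X ∈ F0, X ∈ F := fun X hX => mem_union_left _ hX
  refine ⟨F, fun w ν => (if ν.1 ∈ F0 then w0 ν else 0) + (if ν ∈ I then a w ν else 0) +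
    if ν.1 ∈ F then 0 else w ν, ?_, ?_, ?_, ?_, ?_⟩
  · have := card_union_le F0 (I.image Prod.fst)
    have := card_image_le (s := I) (f := Prod.fst)
    simp only [card_empty] at h1
    simp only [F]
    omega
  · intro w ν hν
    simp only [if_neg hν, if_neg (mt (hIF ν) hν), if_neg (mt (h0F ν.1) hν), zero_add]
  · intro w X hX
    by_cases hX0 : X ∈ F0
    · refine Or.inl fun v => ?_
      have : (X, v) ∉ I := fun h => h4 _ h hX0
      simp only [if_pos hX0, if_neg this, if_pos hX, add_zero]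
    · obtain ⟨μ, hμ, rfl⟩ := mem_image.1 ((mem_union.1 hX).resolve_left hX0)
      refine Or.inr ⟨μ.2, fun v hv => ?_⟩
      have : (μ.1, v) ∉ I := fun h => hv (congrArg Prod.snd (h3 h hμ rfl))
      simp only [if_neg hX0, if_neg this, if_pos hX, add_zero]
  · intro w s hs
    have e1 : ∑ ν ∈ s, (if ν ∈ I then a w ν else 0) = ∑ μ ∈ I, a w μ * col μ ⟨s, hs⟩ := by
      simp only [col, mul_ite, mul_one, mul_zero]
      rw [← sum_filter, ← sum_filter, filter_mem_eq_inter, filter_mem_eq_inter, inter_comm]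
    have e2 : ∑ μ ∈ I, a w μ * col μ ⟨s, hs⟩ = ∑ ν ∈ Rel, g w ν * col ν ⟨s, hs⟩ := by
      simp only [a, sum_mul]
      rw [sum_comm]
      refine sum_congr rfl fun ν _ => ?_
      by_cases hν : ν.1 ∈ F0
      · simp only [g, if_pos hν, if_pos (h0F _ hν), add_zero, zero_mul, sum_const_zero]
      · rw [← hc ν hν]
        simp only [Finset.sum_apply, Pi.smul_apply, smul_eq_mul, mul_sum, mul_assoc]
    have e3 : ∑ ν ∈ Rel, g w ν * col ν ⟨s, hs⟩ = ∑ ν ∈ s, g w ν := by
      simp only [col, mul_ite, mul_one, mul_zero]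
      rw [← sum_filter, filter_mem_eq_inter, inter_eq_right.2]
      exact fun ν hν => mem_biUnion.2 ⟨s, hs, hν⟩
    rw [sum_add_distrib, sum_add_distrib, e1, e2, e3, ← sum_add_distrib, ← sum_add_distrib]
    refine sum_congr rfl fun ν _ => ?_
    simp only [g]
    rw [add_assoc, add_assoc, F2.add_self, add_zero]
    split_ifs <;> simp
  · intro ν
    by_cases hI : ν ∈ I
    · refine ⟨∑ ν' ∈ Rel, (if ν'.1 ∈ F0 then 0 else w0 ν') * c ν' ν,
        Rel.filter fun ν' => ν'.1 ∉ F ∧ c ν' ν = 1, fun w => ?_⟩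
      simp only [if_pos hI, if_neg (h4 ν hI), if_pos (hIF ν hI), zero_add, add_zero, a, g, add_mul,
        sum_add_distrib, sum_filter]
      congr 1
      refine sum_congr rfl fun ν' _ => ?_
      rcases F2.cases (c ν' ν) with h | h <;> by_cases h' : ν'.1 ∈ F <;> simp [h, h']
    · by_cases hF : ν.1 ∈ F
      · exact ⟨if ν.1 ∈ F0 then w0 ν else 0, ∅, fun w => by
          simp only [if_neg hI, if_pos hF, add_zero, sum_empty]⟩
      · exact ⟨0, {ν}, fun w => by
          simp only [if_neg hI, if_neg hF, if_neg (mt (h0F ν.1) hF), zero_add, sum_singleton]⟩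

end Pool.Agent.P.MP_d3fb3e_lc.AF
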