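import Pool.Agent.P.MP_d3fb3e_lc.AF.Defs

/-! The fan-ins that solve the coin problem. -/

namespace Pool.Agent.P.MP_d3fb3e_lc.AF

open Finset Filter

namespace Coin

theorem one_sub_pow_le {x : ℝ} (hx : x ≤ 1) (n : ℕ) : (1 - x) ^ n ≤ Real.exp (-(n * x)) := by
  have h : 1 - x ≤ Real.exp (-x) := by linarith [Real.add_one_le_exp (-x)]
  refine (pow_le_pow_left₀ (by linarith) h n).trans (le_of_eq ?_)
  rw [← Real.exp_nat_mul]
  congr 1
  ring

theorem exp_le_half {y : ℝ} {n : ℕ} (h : (n : ℝ) ≤ y) : Real.exp (-y) ≤ 1 / 2 ^ n := by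
  have h1 : (2 : ℝ) ≤ Real.exp 1 := by linarith [Real.add_one_le_exp (1 : ℝ)]
  have h2 : (2 : ℝ) ^ n ≤ Real.exp y := by
    refine (pow_le_pow_left₀ (by norm_num) h1 n).trans ?_
    rw [← Real.exp_nat_mul, mul_one]
    exact Real.exp_le_exp.2 h
  rw [Real.exp_neg, one_div]
  exact inv_anti₀ (by positivity) h2

theorem fan {L : ℕ} (hL : 1 ≤ L) {u : ℝ} (h1 : 1 / 2 ^ (L + 1) ≤ u) (h2 : u ≤ 1 / 2) :
    ∃ F : ℕ, (1 ≤ F ∧ F ≤ 4 ^ (L + 1)) ∧ (L : ℝ) / 3 ≤ F * u ∧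
      1 / 2 ^ (L + 1) ≤ (1 - u) ^ F ∧ (1 - u) ^ F ≤ 1 / 2 := by
  classical
  have hN : (1 - u) ^ (4 ^ (L + 1)) ≤ 1 / 2 ^ L := by
    refine (one_sub_pow_le (by linarith) _).trans (exp_le_half ?_)
    have h3 : (L : ℝ) ≤ 2 ^ (L + 1) := by
      have : L ≤ 2 ^ (L + 1) := (Nat.lt_two_pow_self.le).trans
        (Nat.pow_le_pow_right (by norm_num) (Nat.le_succ L))
      exact_mod_cast this
    have h4 : (2 : ℝ) ^ (L + 1) = ((4 ^ (L + 1) : ℕ) : ℝ) * (1 / 2 ^ (L + 1)) := by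
      push_cast
      rw [show (4 : ℝ) = 2 * 2 by norm_num, mul_pow]
      field_simp
    rw [h4] at h3
    exact h3.trans (by gcongr)
  have hex : ∃ F : ℕ, (1 - u) ^ F ≤ 1 / 2 ^ L := ⟨_, hN⟩
  have hs := Nat.find_spec hex
  have hhalf : (1 : ℝ) / 2 ^ L ≤ 1 / 2 :=
    one_div_le_one_div_of_le (by norm_num) (le_self_pow₀ (by norm_num) (by omega))
  have hF : Nat.find hex ≠ 0 := by
    intro h
    rw [h, pow_zero] at hs
    linarith
  have hu : 0 < u := lt_of_lt_of_le (by positivity) h1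
  refine ⟨Nat.find hex, ⟨by omega, Nat.find_min' hex hN⟩, ?_, ?_, hs.trans hhalf⟩
  · have h3 : Real.exp (-(2 * u)) ≤ 1 - u := by
      rw [Real.exp_neg, inv_le_comm₀ (Real.exp_pos _) (by linarith), ← one_div,
        div_le_iff₀ (by linarith)]
      nlinarith [Real.add_one_le_exp (2 * u)]
    have h4 := (pow_le_pow_left₀ (Real.exp_pos _).le h3 (Nat.find hex)).trans hs
    rw [← Real.exp_nat_mul] at h4
    have h5 := Real.log_le_log (Real.exp_pos _) h4
    rw [Real.log_exp, Real.log_div one_ne_zero (by positivity), Real.log_one, Real.log_pow] at h5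
    have h6 : (0 : ℝ) ≤ L := Nat.cast_nonneg L
    nlinarith [Real.log_two_gt_d9]
  · obtain ⟨k, hk⟩ := Nat.exists_eq_succ_of_ne_zero hF
    have h3 := Nat.find_min hex (show k < Nat.find hex by omega)
    rw [hk, pow_succ, pow_succ, ← div_div, div_eq_mul_one_div _ (2 : ℝ)]
    exact mul_le_mul (not_le.1 h3).le (by linarith) (by norm_num)
      (pow_nonneg (by linarith) _)

theorem fans {L : ℕ} (hL : 1 ≤ L) : ∃ F : ℕ → ℕ, ∀ j, (1 ≤ F j ∧ F j ≤ 4 ^ (L + 1)) ∧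
    (L : ℝ) / 3 ≤ F j * nor F (1 / 2) j ∧ 1 / 2 ^ (L + 1) ≤ nor F (1 / 2) j ∧
      nor F (1 / 2) j ≤ 1 / 2 := by
  have h : ∀ u : {u : ℝ // 1 / 2 ^ (L + 1) ≤ u ∧ u ≤ 1 / 2}, ∃ F : ℕ,
      (1 ≤ F ∧ F ≤ 4 ^ (L + 1)) ∧ (L : ℝ) / 3 ≤ F * u.1 ∧
      1 / 2 ^ (L + 1) ≤ (1 - u.1) ^ F ∧ (1 - u.1) ^ F ≤ 1 / 2 := fun u => fan hL u.2.1 u.2.2
  choose ff hff using h
  let U : ℕ → {u : ℝ // 1 / 2 ^ (L + 1) ≤ u ∧ u ≤ 1 / 2} := fun j =>
    Nat.rec ⟨1 / 2, one_div_le_one_div_of_le (by norm_num)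
      (le_self_pow₀ (by norm_num) (by omega)), le_rfl⟩
      (fun _ u => ⟨(1 - u.1) ^ ff u, (hff u).2.2⟩) j
  have hU : ∀ j, nor (fun j => ff (U j)) (1 / 2) j = (U j).1 := by
    intro j
    induction j with
    | zero => rfl
    | succ j ih => rw [nor, ih]
  refine ⟨fun j => ff (U j), fun j => ?_⟩
  rw [hU]
  exact ⟨(hff _).1, (hff _).2.1, (U j).2⟩

theorem nor_mem (F : ℕ → ℕ) {a : ℝ} (h0 : 0 ≤ a) (h1 : a ≤ 1) (j : ℕ) :
    0 ≤ nor F a j ∧ nor F a j ≤ 1 := by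
  induction j with
  | zero => exact ⟨h0, h1⟩
  | succ j ih =>
    exact ⟨pow_nonneg (by linarith [ih.2]) _, pow_le_one₀ (by linarith [ih.2]) (by linarith [ih.1])⟩

theorem hi_lo {u v g y : ℝ} {F : ℕ} (hu : 0 ≤ u) (hg : 0 ≤ g) (hv : v ≤ 1)
    (h : (1 + g) * u ≤ v) (hy : y ≤ F * u) :
    (1 - v) ^ F ≤ (1 - u) ^ F * Real.exp (-(g * y)) := by
  have h1 : 0 ≤ g * u := by positivity
  have h2 : 1 - v ≤ (1 - u) * (1 - g * u) := by nlinarith [mul_nonneg h1 hu]
  refine (pow_le_pow_left₀ (by linarith) h2 F).trans ?_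
  rw [mul_pow]
  refine mul_le_mul_of_nonneg_left ((one_sub_pow_le (by linarith) F).trans
    (Real.exp_le_exp.2 ?_)) (pow_nonneg (by linarith) _)
  nlinarith [mul_le_mul_of_nonneg_left hy hg]

theorem lo_hi {u v g y : ℝ} {F : ℕ} (hu : 0 ≤ u) (hu1 : u ≤ 1) (hg : 0 ≤ g) (hg1 : g ≤ 1)
    (h : (1 + g) * v ≤ u) (hy : y ≤ F * u) :
    (1 + g * y / 2) * (1 - u) ^ F ≤ (1 - v) ^ F := by
  have h1 : 0 ≤ g * u := by positivity
  have h2 : v ≤ u - g * u / 2 := by
    refine le_of_mul_le_mul_left (h.trans ?_) (show 0 < 1 + g by linarith)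
    nlinarith [mul_nonneg h1 (sub_nonneg.2 hg1)]
  have h3 : (1 + g * u / 2) * (1 - u) ≤ 1 - v := by nlinarith [mul_nonneg h1 hu]
  refine le_trans ?_ (pow_le_pow_left₀ (mul_nonneg (by linarith) (by linarith)) h3 F)
  rw [mul_pow]
  refine mul_le_mul_of_nonneg_right (le_trans ?_ (one_add_mul_le_pow (by linarith) F))
    (pow_nonneg (by linarith) _)
  nlinarith [mul_le_mul_of_nonneg_left hy hg]

theorem inv {L : ℝ} (hL : 0 ≤ L) {F : ℕ → ℕ} {t : ℕ} {g a : ℝ} (hg : 0 ≤ g) (h0 : 0 ≤ a)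
    (h1 : a ≤ 1) (hF : ∀ j, L / 3 ≤ F j * nor F (1 / 2) j)
    (hg1 : ∀ j < t, g * (L / 6) ^ j ≤ 1)
    (he : Even t → (1 + g) * (1 / 2) ≤ a) (ho : ¬ Even t → (1 + g) * a ≤ 1 / 2) :
    ∀ j ≤ t, (Even (t - j) → (1 + g * (L / 6) ^ j) * nor F (1 / 2) j ≤ nor F a j) ∧
      (¬ Even (t - j) → (1 + g * (L / 6) ^ j) * nor F a j ≤ nor F (1 / 2) j) := by
  intro j
  induction j with
  | zero => intro _; simpa [nor] using And.intro he ho
  | succ j ih =>
    intro hj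
    obtain ⟨ih1, ih2⟩ := ih (by omega)
    have hu := nor_mem F (a := 1 / 2) (by norm_num) (by norm_num) j
    have hv := nor_mem F h0 h1 j
    have hp : 0 ≤ g * (L / 6) ^ j := by positivity
    have e : t - j = t - (j + 1) + 1 := by omega
    rw [e, Nat.even_add_one] at ih1 ih2
    refine ⟨fun h => ?_, fun h => ?_⟩
    · have h2 := lo_hi hu.1 hu.2 hp (hg1 j (by omega)) (ih2 (not_not.2 h)) (hF j)
      rw [nor, nor]
      refine le_trans (le_of_eq ?_) h2
      ring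
    · have h2 := hi_lo hu.1 hp hv.2 (ih1 h) (hF j)
      have h3 : 1 + g * (L / 6) ^ (j + 1) ≤ Real.exp (g * (L / 6) ^ j * (L / 3)) := by
        have h4 := Real.add_one_le_exp (g * (L / 6) ^ j * (L / 3))
        have h5 := mul_nonneg hp hL
        rw [pow_succ]
        nlinarith
      rw [nor, nor]
      refine (mul_le_mul h3 h2 (pow_nonneg (by linarith [hv.2]) _) (Real.exp_pos _).le).trans
        (le_of_eq ?_)
      rw [mul_left_comm, ← Real.exp_add, add_neg_cancel, Real.exp_zero, mul_one]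

end Coin

open Coin

theorem pCoin : PCoin := by
  intro t C B
  rcases t with _ | n
  · filter_upwards [eventually_ge_atTop ((B + 1) * C + 1)] with L hL
    refine ⟨1, 2 ^ (B + 1), fun _ => L, le_rfl, ?_, fun _ => ⟨le_trans (Nat.le_add_left 1 _) hL, ?_⟩, ?_, ?_, ?_⟩
    · exact Nat.le_self_pow (by omega) 2
    · exact (Nat.lt_pow_self (by norm_num)).le.trans
        (Nat.pow_le_pow_right (by norm_num) (Nat.le_succ L))
    · have h1 : (1 : ℝ) ≤ 2 ^ (B + 1) := one_le_pow₀ (by norm_num)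
      push_cast
      rw [pow_zero, mul_one, div_one]
      calc ((2 : ℝ) ^ (B + 1) - 1) ^ C ≤ (2 ^ (B + 1)) ^ C :=
            pow_le_pow_left₀ (by linarith) (by linarith) C
        _ = 2 ^ ((B + 1) * C) := by rw [← pow_mul]
        _ ≤ _ := pow_le_pow_right₀ (by norm_num) (by omega)
    · rw [nor, nor, show (1 : ℝ) - 1 / 2 = 1 / 2 by norm_num, one_div_pow]
      exact one_div_le_one_div_of_le (by positivity) (pow_le_pow_right₀ (by norm_num) (by omega))
    · rw [if_pos Even.zero, nor, nor, sub_sub_cancel]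
      push_cast
      rw [one_div_pow, ← pow_mul]
      exact one_div_le_one_div_of_le (by positivity)
        (pow_le_pow_right₀ (by norm_num) (Nat.mul_le_mul_right _ (by omega)))
  · filter_upwards [eventually_ge_atTop (3 * B * 6 ^ (n + 1) * (8 * C + 2) + 1)] with L hL
    have hL1 : 1 ≤ L := by omega
    have hL1' : (1 : ℝ) ≤ L := by exact_mod_cast hL1
    obtain ⟨F, hF⟩ := fans hL1
    obtain ⟨k, hk⟩ : ∃ k : ℕ, (8 * C + 2) * L ^ n = k + 2 := by
      have : 2 * 1 ≤ (8 * C + 2) * L ^ n :=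
        Nat.mul_le_mul (by omega) (Nat.one_le_pow _ _ hL1)
      exact ⟨(8 * C + 2) * L ^ n - 2, by omega⟩
    have hk' : (8 * (C : ℝ) + 2) * (L : ℝ) ^ n = k + 2 := by exact_mod_cast hk
    have hk0 : (0 : ℝ) ≤ k := Nat.cast_nonneg k
    have hC0 : (0 : ℝ) ≤ C := Nat.cast_nonneg C
    have hLn : (1 : ℝ) ≤ (L : ℝ) ^ n := one_le_pow₀ hL1'
    refine ⟨k + 1, 2 * (k + 2), F, by omega, by omega, fun j => (hF j).1, ?_, (hF _).2.2.1, ?_⟩
    · have h1 : (((2 * (k + 2) : ℕ) : ℝ) - ((k + 1 : ℕ) : ℝ)) / ((k + 1 : ℕ) : ℝ) ≤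
          Real.exp (4 / (k + 2)) := by
        refine le_trans ?_ (Real.add_one_le_exp _)
        push_cast
        rw [div_add_one (by positivity), div_le_div_iff₀ (by positivity) (by positivity)]
        nlinarith
      refine (pow_le_pow_left₀ (by push_cast; exact div_nonneg (by linarith) (by positivity))
        h1 _).trans ?_
      rw [← Real.exp_nat_mul, ← Real.exp_log (show (0 : ℝ) < 2 ^ L by positivity), Real.log_pow]
      refine Real.exp_le_exp.2 ?_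
      rw [← hk']
      push_cast
      rw [mul_div_assoc', div_le_iff₀ (by positivity), pow_succ]
      have h2 : 0 ≤ (L : ℝ) ^ n * L := by positivity
      have h3 : (C : ℝ) * 4 ≤ Real.log 2 * (8 * C + 2) := by nlinarith [Real.log_two_gt_d9]
      nlinarith [mul_le_mul_of_nonneg_left h3 h2]
    · set a : ℝ := if Even (n + 1) then 1 - ((k + 1 : ℕ) : ℝ) / ((2 * (k + 2) : ℕ) : ℝ)
        else ((k + 1 : ℕ) : ℝ) / ((2 * (k + 2) : ℕ) : ℝ) with ha
      have q0 : 0 ≤ ((k + 1 : ℕ) : ℝ) / ((2 * (k + 2) : ℕ) : ℝ) := by positivity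
      have q1 : ((k + 1 : ℕ) : ℝ) / ((2 * (k + 2) : ℕ) : ℝ) = (1 - 1 / (k + 2)) / 2 := by
        push_cast
        field_simp
        ring
      have g0 : (0 : ℝ) ≤ 1 / (k + 2) := by positivity
      have a0 : 0 ≤ a := by rw [ha]; split_ifs <;> linarith
      have a1 : a ≤ 1 := by rw [ha]; split_ifs <;> linarith
      have h1 := (inv (L := L) (by linarith) (t := n + 1) g0 a0 a1 (fun j => (hF j).2.1)
        (fun j hj => by
          rw [one_div, inv_mul_le_iff₀ (by positivity), mul_one, ← hk']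
          have h2 : ((L : ℝ) / 6) ^ j ≤ (L : ℝ) ^ n :=
            (pow_le_pow_left₀ (by positivity) (by linarith) j).trans
              (pow_le_pow_right₀ hL1' (by omega))
          nlinarith)
        (fun h => by rw [ha, if_pos h]; linarith)
        (fun h => by rw [ha, if_neg h, q1]; nlinarith) (n + 1) le_rfl).1 (by simp)
      have hu := nor_mem F (a := 1 / 2) (by norm_num) (by norm_num)
      have h2 := hi_lo (hu (n + 1)).1 (by positivity) (nor_mem F a0 a1 (n + 1)).2 h1 (hF _).2.1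
      rw [nor]
      refine h2.trans ((mul_le_of_le_one_left (Real.exp_pos _).le (hu (n + 1 + 1)).2).trans
        (exp_le_half ?_))
      have h3 : 3 * (B : ℝ) * 6 ^ (n + 1) * (8 * C + 2) ≤ L := by
        exact_mod_cast (by omega : 3 * B * 6 ^ (n + 1) * (8 * C + 2) ≤ L)
      have h4 : 1 / ((k : ℝ) + 2) * ((L : ℝ) / 6) ^ (n + 1) = L / (6 ^ (n + 1) * (8 * C + 2)) := by
        rw [← hk', div_pow, pow_succ (L : ℝ)]
        field_simp
      have h5 : 3 * (B : ℝ) ≤ L / (6 ^ (n + 1) * (8 * C + 2)) := by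
        rw [le_div_iff₀ (by positivity)]
        linarith
      rw [h4]
      push_cast
      nlinarith

end Pool.Agent.P.MP_d3fb3e_lc.AF
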