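import Pool.Agent.P.MP_d3fb3e_lc.AF.Cell

/-! The reduction that decodes a cell of an extended oracle. -/

namespace Pool.Agent.P.MP_d3fb3e_lc.AF

open Classical Function
open Pool.Agent.Lib.helper21 (Bd Rl RealT Enc pairW listW PT sz length_pairW sz_pair sz_prod sz_nat
  length_le_sz sz_list_le sz_bool)
open Pool.Agent.Lib.helper26

namespace DecA

/-- The circuit that decodes the cell `z` with pointer `p`. -/
def dcA (d : ℕ) (z : Cell) (p : List Bool) : List Bool :=
  dC (sz z) d (gw z * sz z) (false :: rA z p (sz z ^ d) []).length fun v => false :: rA z p v []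

theorem dcA_wcs (e : Sch) (π : Cell → ℕ → Bool) (κ : Var → F2) (d : ℕ) (z : Cell) :
    (dcA d z (ptr π z), gw z) ∈ WCS (e.O π κ) (d + 1) (d + 2) ↔ En d z (blk π κ z) := by
  have e1 : ∀ p v X, (false :: rA z p v []) ++ X = false :: ad (z, p, X, v) :=
    fun p v X => by simp [ad, rA, pairW]
  rw [dcA, dC_wcs (by have := cell_len z; omega) fun v hv => by
    simp only [List.length_cons, rA_len]; omega]
  simp only [e1, Sch.O_emb, orc_ad, En, rows, Finset.exists_mem_image]
  rfl

theorem PT_dcA (d : ℕ) : PT fun q : Cell × List Bool => dcA d q.1 q.2 := by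
  have h1 : PT fun p : (Cell × List Bool) × ℕ => false :: rA p.1.1 p.1.2 p.2 [] := by
    have := PT_enc (f := fun p : (Cell × List Bool) × ℕ => (p.1.1, p.1.2, p.2)) (by fun_prop)
    unfold rA pairW
    exact PT.cons (by fun_prop)
      (PT.cons (by fun_prop) (PT.append (PT.flatMap this (by fun_prop)) (by fun_prop)))
  refine PT_dC d (by fun_prop) (by unfold gw par; fun_prop) (PT.length
    (h1.comp (g := fun q : Cell × List Bool => (q, sz q.1 ^ d)) (by fun_prop))) h1

theorem RA_dcA (E : Sch) (π : Cell → ℕ → Bool) (κ : Var → F2) (s h d : ℕ) :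
    RA (E.O π κ) (fun p : List Bool × ℕ => (code p.1 p.2).length) (fun p => code p.1 p.2) fun p =>
      code (dcA d (s, h, p.2, p.1) (ptr π (s, h, p.2, p.1))) (gw (s, h, p.2, p.1)) := by
  let e : Cell × List Bool → List Bool := fun q => false :: pA q.1 q.2
  let go : Cell × List Bool → Bool := fun q => decide (q.2.length < sz q.1)
  let stp : Cell × List Bool → Cell × List Bool := fun q => (q.1, q.2 ++ [E.O π κ (e q)])
  let c : List Bool × ℕ → Cell := fun p => (s, h, p.2, p.1)
  have hgo : PT go := by fun_prop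
  have hit : ∀ z j, stp^[j] (z, []) = (z, (List.range j).map (π z)) := by
    intro z j
    induction j with
    | zero => rfl
    | succ j ih =>
      rw [iterate_succ_apply', ih]; simp [stp, e, Sch.O_emb, orc_pA, List.range_succ]
  have hc : PT fun p : ℕ × Raw => (s, h, p.1, p.2.w) :=
    PT.pair (by fun_prop) (PT.pair (by fun_prop) (PT.pair (by fun_prop)
      (PT_ofRaw.comp (by fun_prop))))
  have hsz : Bd (fun p : List Bool × ℕ => (code p.1 p.2).length) fun p => sz (c p) := by
    simp only [code_eq]
    exact hc.bd.reindex fun p : List Bool × ℕ => (p.2, Raw.mk p.1)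
  have s1 : Rl (fun q : (Cell × List Bool) × Bool => q.2 :: e q.1) fun q => Enc.enc (q.2, q.1) := by
    have a1 : Rl (fun q : (Cell × List Bool) × Bool => q.2 :: e q.1) fun q => [q.2] :=
      (Rl.head (Rl.id _) fun o => o.getD false).congr fun q => rfl
    exact a1.fork (Rl.id _).tail.tail.tail
  have s2 : PT fun q : Bool × Cell × List Bool => (q.2.1, q.2.2 ++ [q.1]) := by fun_prop
  have s3 : Rl (fun q : (Cell × List Bool) × Bool => q.2 :: e q.1) fun q =>
      go (q.1.1, q.1.2 ++ [q.2]) :: e (q.1.1, q.1.2 ++ [q.2]) :=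
    s1.comp (Rl.reindex (Rl.consBit (hgo.comp s2) (Rl.cons (Rl.cons s2 false) false))
      fun q : (Cell × List Bool) × Bool => (q.2, q.1))
  have s4 : RA (E.O π κ) (fun q => (e q).length) e fun q => go (stp q) :: e (stp q) :=
    (RA.ask _ e).comp (RA.of (RealT.size (Rl.reindex s3 fun q => (q, E.O π κ (e q)))
      (((Bd.self _).add (Bd.const _ 1)).mono fun q => by simp)))
  have s5 := RA.whileLoop e go stp s4 (fun p : List Bool × ℕ => (code p.1 p.2).length)
    (fun p => (c p, [])) (fun p => sz (c p)) (fun p j hj => by simp [hit, go, hj])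
    (fun p => by simp [hit, go]) hsz (fun p => 6 * sz (c p) + 4)
    (((Bd.const _ _).mul hsz).add (Bd.const _ _)) fun p j hj => by
      have h1 := sz_list_le ((List.range j).map (π (c p))) 1 fun _ _ => by simp
      have h2 := sz_pair (c p) ((List.range j).map (π (c p)))
      simp only [hit, e, pA, List.length_cons, List.length_map, List.length_range] at h1 ⊢
      unfold sz at h1 h2 hj ⊢
      omega
  have s6 : PT fun p : ℕ × Raw => ((s, h, p.1, p.2.w), ([] : List Bool)) := hc.pair (by fun_prop)
  have s7 := Rl.reindex (Rl.consBit (hgo.comp s6) (Rl.cons (Rl.cons s6 false) false))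
    fun p : List Bool × ℕ => (p.2, Raw.mk p.1)
  have s8 : PT fun q : Cell × List Bool => (gw q.1, Raw.mk (dcA d q.1 q.2)) :=
    PT.pair (by unfold gw par; fun_prop) (PT_toRaw.comp (PT_dcA d))
  have s9 := Rl.reindex (Rl.comp (Rl.id e).tail.tail s8) fun p => stp^[sz (c p)] (c p, [])
  have s10 : Bd (fun p : List Bool × ℕ => (code p.1 p.2).length)
      fun p => (e (stp^[sz (c p)] (c p, []))).length :=
    (((Bd.const _ 6).mul hsz).add (Bd.const _ 4)).mono fun p => by
      have h1 := sz_list_le ((List.range (sz (c p))).map (π (c p))) 1 fun _ _ => by simp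
      have h2 := sz_pair (c p) ((List.range (sz (c p))).map (π (c p)))
      simp only [hit, e, pA, List.length_cons, List.length_map, List.length_range] at h1 ⊢
      unfold sz at h1 h2 ⊢
      omega
  have s11 := s5.comp (RA.of (RealT.size s9 s10))
  simp only [code_eq, hit] at s11 ⊢
  exact (RA.of s7).comp s11

end DecA

theorem pDec : PDec := fun e π κ _ _ hL s h d h1 =>
  ⟨d + 2, hL.trans (fun p => (DecA.dcA d (s, h, p.2, p.1) (ptr π (s, h, p.2, p.1)),
    gw (s, h, p.2, p.1))) (h + 1) (DecA.RA_dcA e π κ s h d)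
    (fun _ => le_rfl) fun p => (h1 p.1 p.2).trans (DecA.dcA_wcs e π κ d _).symm⟩

end Pool.Agent.P.MP_d3fb3e_lc.AF
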