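import Pool.Agent.P.MP_d1c5a4_lc.Pr
import Pool.Agent.P.MP_d3fb3e_lc.Dec
import Pool.Agent.P.MP_d3fb3e_lc.Circ
import Pool.Agent.P.MP_d3fb3e_lc.Step

/-! Affine oracles: polynomials over `ZMod 2`, the coin problem, linear algebra (statements). -/

namespace Pool.Agent.P.MP_d3fb3e_lc.AF

open Finset Classical Filter
open Pool.Agent.P.MP_d1c5a4_lc (pr)

/-- The field with two elements. -/
abbrev F2 : Type := ZMod 2

theorem F2.cases (c : F2) : c = 0 ∨ c = 1 := by revert c; decide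

theorem F2.add_self (c : F2) : c + c = 0 := by revert c; decide

/-- Functions of degree at most `d` in the coordinates. -/
inductive Dg {I : Type} : ℕ → ((I → F2) → F2) → Prop
  | const (d : ℕ) (c : F2) : Dg d fun _ => c
  | add {d : ℕ} {f g : (I → F2) → F2} : Dg d f → Dg d g → Dg d fun y => f y + g y
  | var {d : ℕ} {f : (I → F2) → F2} (i : I) : Dg d f → Dg (d + 1) fun y => y i * f y

section
variable {I I' : Type} {d e : ℕ} {f g : (I → F2) → F2}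

theorem Dg.congr (h : Dg d f) (hg : ∀ y, f y = g y) : Dg d g := (funext hg : f = g) ▸ h

theorem Dg.up (h : Dg d f) : Dg (d + 1) f := by
  induction h with
  | const d c => exact .const _ c
  | add _ _ h1 h2 => exact h1.add h2
  | var i _ h => exact h.var i

theorem Dg.mono (h : Dg d f) (hd : d ≤ e) : Dg e f := by
  induction hd with
  | refl => exact h
  | step _ ih => exact ih.up

theorem Dg.smul (h : Dg d f) (c : F2) : Dg d fun y => c * f y := by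
  rcases F2.cases c with rfl | rfl
  · exact (Dg.const d 0).congr (by simp)
  · exact h.congr (by simp)

theorem Dg.mul (h : Dg d f) (h' : Dg e g) : Dg (d + e) fun y => f y * g y := by
  induction h with
  | const d c => exact (h'.smul c).mono (Nat.le_add_left _ _)
  | add _ _ h1 h2 => exact (h1.add h2).congr fun y => by ring
  | var i _ h => exact ((h.var i).congr fun y => by ring).mono (by omega)

theorem Dg.coord (i : I) : Dg 1 fun y : I → F2 => y i :=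
  ((Dg.const 0 1).var i).congr (by simp)

theorem Dg.sum {A : Type} (s : Finset A) {f : A → (I → F2) → F2} (h : ∀ a ∈ s, Dg d (f a)) :
    Dg d fun y => ∑ a ∈ s, f a y := by
  induction s using Finset.induction_on with
  | empty => exact (Dg.const d 0).congr (by simp)
  | insert a s ha ih =>
    exact ((h a (mem_insert_self _ _)).add
      (ih fun b hb => h b (mem_insert_of_mem hb))).congr fun y => by rw [sum_insert ha]

theorem Dg.comp (h : Dg d f) {φ : (I' → F2) → I → F2} (hφ : ∀ i, Dg 1 fun y => φ y i) :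
    Dg d fun y => f (φ y) := by
  induction h with
  | const d c => exact .const _ c
  | add _ _ h1 h2 => exact h1.add h2
  | var i _ h => exact ((hφ i).mul h).mono (by omega)

end

/-- On every finite sample `T` is `ε`-close to a function of degree `d`. -/
def Apx {I : Type} (d : ℕ) (ε : ℝ) (T : (I → F2) → Prop) : Prop :=
  ∀ (Ω : Type) [Fintype Ω] (s : Ω → I → F2),
    ∃ f, Dg d f ∧ pr (fun ω => ¬ (f (s ω) = 1 ↔ T (s ω))) ≤ ε

theorem Apx.mono {I : Type} {d d' : ℕ} {ε ε' : ℝ} {T : (I → F2) → Prop} (h : Apx d ε T)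
    (hd : d ≤ d') (hε : ε ≤ ε') : Apx d' ε' T := fun Ω _ s =>
  let ⟨f, h1, h2⟩ := h Ω s; ⟨f, h1.mono hd, h2.trans hε⟩

/-- Razborov's approximation of OR. -/
def PRaz1 : Prop := ∀ (I Ω : Type) [Fintype Ω] (s : Ω → I → F2) (d l : ℕ) (K : List ℕ)
  (f : ℕ → (I → F2) → F2), (∀ v ∈ K, Dg d (f v)) → ∃ g, Dg (d * l) g ∧
    pr (fun ω => ¬ (g (s ω) = 1 ↔ ∃ v ∈ K, f v (s ω) = 1)) ≤ 1 / 2 ^ l

/-- Approximation of oracle circuits whose oracle answers are affine. -/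
def PRaz2 : Prop := ∀ (I : Type) (O : (I → F2) → List Bool → Bool),
  (∀ a, ∃ f, Dg 1 f ∧ ∀ y, (O y a = true ↔ f y = 1)) →
  (∀ a : List Bool, a.length ≤ 2 → ∀ y y', O y a = O y' a) → ∀ l, 1 ≤ l →
  ∀ (x : List Bool) (V : Finset ℕ) (h t u : ℕ) (b : Bool), ok x h (t + 1) b u →
    Apx (2 ^ h * l ^ t) (((x.length : ℝ) + 1) ^ h / 2 ^ l) fun y => val (O y) x V h u = true

/-- Hamming weight. -/
def wt {J : Type} [Fintype J] (y : J → F2) : ℕ := (univ.filter fun j => y j = 1).card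

/-- The space of functions of degree at most `D`. -/
def Pd (I : Type) (D : ℕ) : Submodule F2 ((I → F2) → F2) where
  carrier := {g | Dg D g}
  add_mem' := fun h1 h2 => Dg.add h1 h2
  zero_mem' := Dg.const D 0
  smul_mem' := fun c _ h => Dg.smul h c

/-- The affine Hilbert function of `Y`. -/
noncomputable def hil {I : Type} (Y : Finset (I → F2)) (D : ℕ) : ℕ :=
  Module.finrank F2
    ((Pd I D).map (LinearMap.funLeft F2 F2 (Subtype.val : {y // y ∈ Y} → I → F2)))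

/-- The size of a Hamming ball. -/
def Nb (m r : ℕ) : ℕ := ∑ i ∈ range (r + 1), m.choose i

/-- Hamming balls are interpolating sets. -/
def PInterp : Prop := ∀ (m r : ℕ) (g : (Fin m → F2) → F2), Dg r g →
  (∀ y, wt y ≤ r → g y = 0) → ∀ y, g y = 0

/-- The lower bound for the Hilbert function. -/
def PRank : Prop := ∀ (m D : ℕ) (Y : Finset (Fin m → F2)), Y.card * Nb m D ≤ hil Y D * 2 ^ m

/-- Supports of functions of low degree meet balls. -/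
def PNW : Prop := ∀ (m d r : ℕ) (f : (Fin m → F2) → F2), Dg d f →
  (univ.filter fun y => f y = 1).card * Nb m r ≤
    (univ.filter fun y => f y = 1 ∧ wt y ≤ r + d).card * 2 ^ m

/-- A coin of bias `a / b`. -/
def bias (a : ℕ) {b : ℕ} (x : Fin b) : F2 := if x.val < a then 1 else 0

/-- Fair coins against biased coins. -/
def PBias : Prop := ∀ (J : Type) [Fintype J] [DecidableEq J] (a b d : ℕ), 1 ≤ a → 2 * a ≤ b →
  ∀ f : (J → F2) → F2, Dg d f → pr (fun y : J → F2 => f y = 1) ≤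
    (((b : ℝ) - a) / a) ^ d * pr fun ξ : J → Fin b => f (fun j => bias a (ξ j)) = 1

/-- The acceptance probability of a NOR tree with fan-ins `F`. -/
noncomputable def nor (F : ℕ → ℕ) (a : ℝ) : ℕ → ℝ
  | 0 => a
  | j + 1 => (1 - nor F a j) ^ F j

/-- The fan-ins that solve the coin problem. -/
def PCoin : Prop := ∀ t C B : ℕ, ∀ᶠ L : ℕ in atTop, ∃ (a b : ℕ) (F : ℕ → ℕ), 1 ≤ a ∧ 2 * a ≤ b ∧
  (∀ j, 1 ≤ F j ∧ F j ≤ 4 ^ (L + 1)) ∧ (((b : ℝ) - a) / a) ^ (C * L ^ t) ≤ 2 ^ L ∧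
  1 / 2 ^ (L + 1) ≤ nor F (1 / 2) (t + 1) ∧
  nor F (if Even t then 1 - (a : ℝ) / b else (a : ℝ) / b) (t + 1) ≤ 1 / 2 ^ (B * L)

/-- The read-once tree and its projection to the standard tree. -/
def PTree : Prop := ∀ (t m0 : ℕ) (F : ℕ → ℕ), (∀ j, 1 ≤ F j ∧ F j ≤ m0) →
  ∃ (J : Type) (_ : Fintype J) (_ : DecidableEq J) (Ψ : (J → F2) → Prop),
    (∀ (Ξ : Type) [Fintype Ξ] [Nonempty Ξ] (φ : Ξ → F2),
      pr (fun ξ : J → Ξ => Ψ fun j => φ (ξ j)) =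
        nor F (if Even t then 1 - pr (fun x => φ x = 1) else pr fun x => φ x = 1) (t + 1)) ∧
    ∀ m d, m0 < m → t + 1 ≤ d → ∃ ρ : ℕ → Option J, ∀ (g : F2) (y : J → F2),
      Tm m (fun v => decide ((ρ v).elim g y = 1)) d true 0 ↔ g = 1 ∧ Ψ y

/-- A tree with at most one true leaf is false. -/
def PTmOne : Prop := ∀ (m d v0 : ℕ) (κ : ℕ → Bool), 2 ≤ m → 1 ≤ d →
  (∀ v, v ≠ v0 → κ v = false) → ¬ Tm m κ d true 0

/-- The gadget: true and false rows that functions of degree `d` hardly tell apart. -/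
structure Gad (t m0 d : ℕ) (κ η : ℝ) where
  J : Type
  T0 : Type
  T1 : Type
  [fJ : Fintype J]
  [dJ : DecidableEq J]
  [f0 : Fintype T0]
  [f1 : Fintype T1]
  [n0 : Nonempty T0]
  [n1 : Nonempty T1]
  Ψ : (J → F2) → Prop
  e0 : T0 → J → F2
  e1 : T1 → J → F2
  h0 : ∀ τ, ¬ Ψ (e0 τ)
  h1 : ∀ τ, Ψ (e1 τ)
  hyb : ∀ f, Dg d f → pr (fun τ => f (e1 τ) = 1) ≤ κ * (pr (fun τ => f (e0 τ) = 1) + η)
  proj : ∀ m d', m0 ≤ m → t ≤ d' → ∃ ρ : ℕ → Option J, ∀ (g : F2) (y : J → F2),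
    Tm m (fun v => decide ((ρ v).elim g y = 1)) d' true 0 ↔ g = 1 ∧ Ψ y

attribute [instance] Gad.fJ Gad.dJ Gad.f0 Gad.f1 Gad.n0 Gad.n1

/-- The gadget exists. -/
def PGad : Prop := ∀ t C B : ℕ, ∀ᶠ L : ℕ in atTop,
  Nonempty (Gad (t + 1) (4 ^ (L + 2)) (C * L ^ t) (2 ^ (3 * L)) (1 / 2 ^ (B * L)))

/-- Information sets. -/
def PInfo : Prop := ∀ (V : Type) (Λ : Finset (Finset V)) (W : Set V), ∃ I : Finset V,
  (∀ ν ∈ I, ν ∈ W) ∧ I.card ≤ Λ.card ∧ ∀ u : V → F2, (∀ ν, u ν ≠ 0 → ν ∈ W) →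
    ∃ c : V → F2, (∀ ν, c ν ≠ 0 → ν ∈ I) ∧ ∀ s ∈ Λ, ∑ ν ∈ s, c ν = ∑ ν ∈ s, u ν

/-- Sets of vectors with sum zero. -/
def PZero : Prop := ∀ (A B : Type) (P : Finset A) (R : Finset B) (h : B → A → F2),
  P.card < R.card → ∃ G ⊆ R, G.Nonempty ∧ ∀ a ∈ P, ∑ X ∈ G, h X a = 0

/-- Affine compensation of parity constraints on few rows. -/
def PCmp : Prop := ∀ (B C : Type) (Λ : Finset (Finset (B × C))) (w0 : B × C → F2),
  ∃ (F : Finset B) (Φ : (B × C → F2) → B × C → F2), F.card ≤ Λ.card ^ 2 + Λ.card ∧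
    (∀ w ν, ν.1 ∉ F → Φ w ν = w ν) ∧
    (∀ w, ∀ X ∈ F, (∀ v, Φ w (X, v) = w0 (X, v)) ∨ ∃ v0, ∀ v, v ≠ v0 → Φ w (X, v) = 0) ∧
    (∀ w, ∀ s ∈ Λ, ∑ ν ∈ s, Φ w ν = ∑ ν ∈ s, w0 ν) ∧
    ∀ ν, ∃ (c : F2) (T : Finset (B × C)), ∀ w, Φ w ν = c + ∑ ν' ∈ T, w ν'

/-- Long chains of correct guesses are unlikely. -/
def PChain : Prop := ∀ (C P : Type) [Fintype C] [DecidableEq C] [Fintype P] [Nonempty P]
  (Cand : Finset (C × P) → Finset (C × P)) (B r : ℕ), (∀ s, s.card < r → (Cand s).card ≤ B) →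
    pr (fun ω : C → P => ¬ ∃ s : Finset (C × P), s.card < r ∧ (∀ e ∈ s, ω e.1 = e.2) ∧
      ∀ z, (z, ω z) ∈ Cand s → (z, ω z) ∈ s) ≤ ((B : ℝ) / Fintype.card P) ^ r

/-- Outside the special blocks of `Y` every vector of one class is masked. -/
def Msk {V C P : Type} (blk : V → Option (C × P)) (cls : V → ℕ) (Λ : Finset (Finset V)) (M : ℕ)
    (ω : C → P) (Y : Finset C) : Prop :=
  ∀ k < M, ∀ u : V → F2, (∀ ν, u ν ≠ 0 → cls ν = k ∧ ∀ z ∈ Y, blk ν ≠ some (z, ω z)) →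
    ∃ c : V → F2, (∀ ν, c ν ≠ 0 → cls ν = k ∧ ∀ z, blk ν ≠ some (z, ω z)) ∧
      ∀ s ∈ Λ, ∑ ν ∈ s, c ν = ∑ ν ∈ s, u ν

/-- Few special blocks are visible. -/
def PVis : Prop := ∀ (V C P : Type) [Fintype C] [DecidableEq C] [Fintype P] [Nonempty P]
  (blk : V → Option (C × P)) (cls : V → ℕ) (Fam : Finset C → Finset (Finset V)) (M D r : ℕ),
  (∀ Y, Y.card < r → (Fam Y).card ≤ D) →
    pr (fun ω : C → P => ¬ ∃ Y : Finset C, Y.card < r ∧ Msk blk cls (Fam Y) M ω Y) ≤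
      (((M * D : ℕ) : ℝ) / Fintype.card P) ^ r

/-- The special rows `r` get the contents `u`, the other rows the masks `μ`. -/
def put {Z J : Type} {N : ℕ} (r : Z → Fin N) (μ : Z × Fin N × J → F2) (u : Z → J → F2) :
    Z × Fin N × J → F2 := fun ν => if ν.2.1 = r ν.1 then u ν.1 ν.2.2 else μ ν

/-- True contents on `B`, false contents elsewhere. -/
noncomputable def Gad.sel {t m0 d : ℕ} {κ η : ℝ} (G : Gad t m0 d κ η) {Z : Type} (B : Z → Prop)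
    (u : Z → G.T0 × G.T1) (z : Z) : G.J → F2 := if B z then G.e1 (u z).2 else G.e0 (u z).1

/-- The hybrid argument. -/
def PHyb : Prop := ∀ (t m0 d : ℕ) (κ η ε : ℝ) (G : Gad t m0 d κ η) (Z : Type) [Fintype Z]
  [DecidableEq Z] (N : ℕ) (r : Z → Fin N) (μ : Z × Fin N × G.J → F2)
  (T : (Z × Fin N × G.J → F2) → Prop), 1 ≤ κ → 0 ≤ η → Apx d ε T →
  (∀ y, (∀ z, ¬ G.Ψ fun j => y (z, r z, j)) → ¬ T y) → ∀ B : Finset Z,
    pr (fun u : Z → G.T0 × G.T1 => T (put r μ (G.sel (· ∈ B) u))) ≤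
      κ ^ B.card * (2 * ε + B.card * η) + 2 * ε

/-- Shifting the masks hides the invisible cells. -/
def PShift : Prop := ∀ (Z J : Type) [Fintype Z] [DecidableEq Z] [Fintype J] [DecidableEq J]
  (sz : Z → ℕ) (M N : ℕ) (r : Z → Fin N) (Λ : Finset (Finset (Z × Fin N × J)))
  (T : (Z × Fin N × J → F2) → Prop) (β : (Z × Fin N × J → F2) → Z → Prop) (u0 u1 : Z → J → F2)
  (Y : Finset Z) (re : (Z × Fin N × J → F2) → Z × Fin N × J → F2), (∀ z, sz z < M) →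
  (∀ y y', (∀ s ∈ Λ, ∑ ν ∈ s, y ν = ∑ ν ∈ s, y' ν) → (T y ↔ T y')) →
  (∀ y y' z, (∀ ν, sz ν.1 < sz z → y ν = y' ν) → (β y z ↔ β y' z)) →
  Msk (fun ν => some (ν.1, ν.2.1)) (fun ν => sz ν.1) Λ M r Y →
  (∀ μ, re μ = put r μ fun z => if β (re μ) z then u1 z else u0 z) →
    pr (fun μ => T (re μ)) ≤
      pr fun μ => ∃ B ∈ Y.powerset, T (put r μ fun z => if z ∈ B then u1 z else u0 z)

/-- Many cells with adaptively chosen values, against many terms. -/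
def PBox : Prop := ∀ (t m0 d : ℕ) (κ η ε : ℝ) (G : Gad t m0 d κ η) (Z : Type) [Fintype Z]
  [DecidableEq Z] (sz : Z → ℕ) (M N D q : ℕ) (Tr : Type) (𝓣 : Finset Tr)
  (T : Tr → (Z → Fin N) → (Z × Fin N × G.J → F2) → Prop)
  (β : (Z → Fin N) → (Z × Fin N × G.J → F2) → Z → Prop),
  0 < N → 1 ≤ κ → 0 ≤ η → 0 ≤ ε → (∀ z, sz z < M) →
  (∀ τ ∈ 𝓣, ∃ Λ : Finset (Finset (Z × Fin N × G.J)), Λ.card ≤ D ∧
    ∀ r y y', (∀ s ∈ Λ, ∑ ν ∈ s, y ν = ∑ ν ∈ s, y' ν) → (T τ r y ↔ T τ r y')) →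
  (∀ τ ∈ 𝓣, ∀ r, Apx d ε (T τ r)) →
  (∀ τ ∈ 𝓣, ∀ r y, (∀ z, ¬ G.Ψ fun j => y (z, r z, j)) → ¬ T τ r y) →
  (∀ r y y' z, (∀ ν, sz ν.1 < sz z → y ν = y' ν) → (β r y z ↔ β r y' z)) →
  (𝓣.card : ℝ) * ((((M * D : ℕ) : ℝ) / N) ^ q +
    2 ^ q * (κ ^ q * (2 * ε + q * η) + 2 * ε)) < 1 →
  ∃ r y, (∀ z, (G.Ψ fun j => y (z, r z, j)) ↔ β r y z) ∧ ∀ τ ∈ 𝓣, ¬ T τ r y

end Pool.Agent.P.MP_d3fb3e_lc.AF
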