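import Pool.Agent.P.MP_d3fb3e_lc.AF.Cell

/-! The final world of a stage. -/

namespace Pool.Agent.P.MP_d3fb3e_lc.AF

open Finset Classical
open Pool.Agent.Lib.helper21 (sz)

namespace Final

theorem sum_lin {I : Type} [Fintype I] (l y : I → F2) :
    ∑ i, l i * y i = ∑ i ∈ univ.filter fun i => l i = 1, y i := by
  rw [sum_filter]
  refine sum_congr rfl fun i _ => ?_
  rcases F2.cases (l i) with h | h <;> simp [h]

theorem aff (c : Cx) (κ : Var → F2) {I R : Type} [Fintype I] {ω : R → (I → F2) → Var → F2}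
    (h : ∀ ν, ∃ l : I → F2, ∀ r, ∃ b, ∀ y, ω r y ν = b + ∑ i, l i * y i) (a : List Bool) :
    ∃ l : I → F2, ∀ r, ∃ b, ∀ y, c.O κ (ω r y) a = decide (b + ∑ i, l i * y i = 1) := by
  have h1 : ∀ ν, ∃ l : I → F2, ∀ r, ∃ b, ∀ y, c.wld κ (ω r y) ν = b + ∑ i, l i * y i := fun ν => by
    unfold Cx.wld
    by_cases e : c.isU ν
    · simpa only [e, if_true] using h ν
    · exact ⟨0, fun _ => ⟨κ ν, fun _ => by simp [e]⟩⟩
  choose l b hb using h1
  refine ⟨fun i => ∑ ν ∈ c.e.S a, l ν i, fun r => ⟨c.e.base c.π a + ∑ ν ∈ c.e.S a, b ν r,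
    fun y => ?_⟩⟩
  rw [Cx.O, Sch.O_eq, sum_congr rfl fun ν _ => hb ν r y, sum_add_distrib, sum_comm, add_assoc]
  simp only [sum_mul]

end Final

open Final

theorem pFinal (h1 : PSw) (h2 : PFix) (h3 : PMid) (h4 : PBox) (h5 : PRaz2) : PFinal := by
  intro c i γ l q κ η G 𝓠 β hγ ht hn hM hK hl hκ hη r1 r2 hQ hβ hnum
  obtain ⟨u, hu⟩ := h1 c i γ hγ r1
  obtain ⟨Φ, f1, f2, f3⟩ := h2 (c.sw γ) u β (fun z a ν b => ((hu z a).1 ν b).1) hβ
  have : Finite {z // c.mid z} := ((cell_fin c.M).subset fun z (hz : c.mid z) => hz.2.1).to_subtype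
  let : Fintype {z // c.mid z} := Fintype.ofFinite _
  obtain ⟨ω, w1, w2, w3, w4, w5, w6⟩ := h3 c γ _ (c.M ^ 5) κ η G {z // c.mid z} Subtype.val
    Subtype.val_injective (fun z => z.2) ht hn hγ.inv.af r2
  choose L hL using aff c γ.κ w4
  let 𝓣 : Finset (Cell × Finset ℕ) := 𝓠.biUnion fun p =>
    ((powersetCard p.2.2.1 (range p.2.2.2.length)).filter fun V =>
      ok p.2.2.2 p.2.1 p.1 true 0 ∧ ∀ v ∈ V, kind p.2.2.2 v = 0).image fun V => (p, V)
  have m1 : ∀ τ, τ ∈ 𝓣 ↔ τ.1 ∈ 𝓠 ∧ τ.2 ∈ powersetCard τ.1.2.2.1 (range τ.1.2.2.2.length) ∧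
      ok τ.1.2.2.2 τ.1.2.1 τ.1.1 true 0 ∧ ∀ v ∈ τ.2, kind τ.1.2.2.2 v = 0 := fun τ => by
    simp only [𝓣, mem_biUnion, mem_image, mem_filter]
    exact ⟨fun ⟨p, a, V, b, e⟩ => e ▸ ⟨a, b⟩, fun ⟨a, b⟩ => ⟨τ.1, a, τ.2, b, rfl⟩⟩
  have m2 : ∀ p ∈ 𝓠, p.2.2.1 + p.2.1 ≤ c.K' ∧ p.2.2.2.length ≤ c.M := fun p hp => (hQ p hp).2.1.2
  have m3 : 𝓣.card ≤ 𝓠.card * c.M ^ c.K' := card_biUnion_le_card_mul _ _ _ fun p hp => by
    refine card_image_le.trans ((card_filter_le _ _).trans ?_)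
    rw [card_powersetCard, card_range]
    exact (Nat.choose_le_pow _ _).trans ((Nat.pow_le_pow_left (m2 p hp).2 _).trans
      (Nat.pow_le_pow_right (by omega) (by have := (m2 p hp).1; omega)))
  obtain ⟨r, y, b1, b2⟩ := h4 _ _ _ κ η (((c.M : ℝ) + 1) ^ c.K' / 2 ^ l) G {z // c.mid z}
    (fun z => sz z.1) (c.M + 1) (c.M ^ 5) (c.M ^ 2) q _ 𝓣
    (fun τ r y => val (c.O γ.κ (ω r y)) τ.1.2.2.2 τ.2 τ.1.2.1 0 = true)
    (fun r y z => β (Φ (c.wld γ.κ (ω r y))) z.1) (by positivity) hκ hη (by positivity)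
    (fun z => Nat.lt_succ_of_le z.2.2.1) (fun τ hτ => by
      obtain ⟨a1, -, a2, -⟩ := (m1 τ).1 hτ
      refine ⟨(rdV τ.1.2.2.2 τ.1.2.1 τ.2).image fun a => univ.filter fun i => L a i = 1,
        card_image_le.trans ((card_rdV _ _ _).trans ?_), fun r y y' h => ?_⟩
      · rw [sq]
        exact Nat.mul_le_mul (by have := (m2 _ a1).1; omega) (m2 _ a1).2
      · rw [val_loc (A' := c.O γ.κ (ω r y')) a2 le_rfl fun a ha => ?_]
        obtain ⟨b, hb⟩ := hL a r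
        rw [hb, hb, sum_lin, sum_lin, h _ (mem_image_of_mem _ ha)])
    (fun τ hτ r => by
      obtain ⟨a1, -, a2, -⟩ := (m1 τ).1 hτ
      have a3 := m2 _ a1
      refine (h5 _ (fun y => c.O γ.κ (ω r y)) (fun a => ?_) (fun a ha y y' => ?_) l hl _ τ.2 _
        (c.t - 1) 0 true (ok_mono ((hQ _ a1).2.1.1.trans (by omega)) a2)).mono
        (Nat.mul_le_mul_right _ (Nat.pow_le_pow_right two_pos (by omega))) ?_
      · obtain ⟨b, hb⟩ := hL a r
        exact ⟨_, (Dg.const 1 b).add (Dg.sum univ fun i _ => (Dg.coord i).smul (L a i)),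
          fun y => by rw [hb, decide_eq_true_eq]⟩
      · refine Sch.O_loc (fun _ _ => rfl) fun ν hν => ?_
        have : ¬ c.isU ν := fun e => by have := e.1; omega
        simp only [Cx.wld, this, if_false]
      · have a4 : (τ.1.2.2.2.length : ℝ) ≤ c.M := by exact_mod_cast a3.2
        refine div_le_div_of_nonneg_right ((pow_le_pow_left₀ (by positivity)
          (add_le_add_left a4 1) _).trans (pow_le_pow_right₀ (by simp) (by omega))) (by positivity))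
    (fun τ hτ r y h e => by
      obtain ⟨a1, a2, a3⟩ := (m1 τ).1 hτ
      exact (hQ _ a1).2.2 _ (w3 r y) (w6 r y h) (mem_wcs.2 ⟨τ.2, a2, a3, e⟩))
    (fun r y y' z h => hβ _ _ _ (f1 _ _ _ fun ν hν => by
      have : ω r y ν = ω r y' ν := by
        by_cases e : c.mid ν.1
        · exact w2 r y y' ⟨ν.1, e⟩ (fun i j => h (⟨ν.1, e⟩, i, j) hν) ν.2
        · rw [w1 r y ν fun z a => e (a ▸ z.2), w1 r y' ν fun z a => e (a ▸ z.2)]
      simp only [Cx.wld, this]))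
    (lt_of_le_of_lt (mul_le_mul_of_nonneg_right (by exact_mod_cast m3) (by positivity)) hnum)
  have k1 : ∀ z X v, Φ (c.wld γ.κ (ω r y)) (z, ptr c.π z, X, v) =
      c.wld γ.κ (ω r y) (z, ptr c.π z, X, v) + if c.sw γ z ∧ β (Φ (c.wld γ.κ (ω r y))) z then
        u z (z, ptr c.π z, X, v) else 0 := fun z X v => f3 _ _ fun z' a b => by
    by_contra e
    exact b (((hu z' a).1 _ e).2 rfl).symm
  refine ⟨Φ (c.wld γ.κ (ω r y)), ω r y, fun ν hν => ?_, fun z z1 z2 z3 => ?_, fun z z1 z2 => ?_,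
    w3 r y, fun a ha => Sch.O_congr (f2 _ _ fun z hz => (hu z hz).2.1 a ha), fun p hp e => ?_⟩
  · rw [f3 _ _ fun z a _ => by
      by_contra e
      have := ((hu z a).1 ν e).1
      have := a.1
      omega, if_neg fun e => by have := e.1.1; omega, add_zero, Cx.wld,
      if_neg fun e => by have := e.1; omega, hγ.inv.old ν hν]
  · rw [← En_const (dp c.S z) z (γ.b z)]
    refine iff_of_eq (congrArg _ (funext fun X => funext fun v => ?_))
    rw [blk, k1, if_neg fun e => e.1.2.2.elim z2 fun a => a z3, add_zero, Cx.wld,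
      if_neg fun e => z2 e.2.1, hγ.inv.bk z z1 z2]
    cases γ.b z <;> simp [z3]
  · by_cases e : c.mid z
    · refine Iff.trans (iff_of_eq (congrArg _ (funext fun X => funext fun v => ?_)))
        ((w5 r y ⟨z, e⟩).trans (b1 ⟨z, e⟩))
      rw [blk, blk, k1, if_neg fun a => a.1.2.1 e, add_zero, Cx.wld, if_pos ⟨z1, e.2.2.1, rfl⟩]
    · have s1 : c.sw γ z := ⟨z1, e, z2⟩
      have s2 : ∀ p, c.wld γ.κ (ω r y) (z, p) = c.wld γ.κ γ.ω (z, p) := fun p => by
        simp only [Cx.wld, w1 r y (z, p) fun z' a => e (show c.mid (z, p).1 from a ▸ z'.2)]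
      by_cases e' : β (Φ (c.wld γ.κ (ω r y))) z
      · refine iff_of_true (cast (congrArg _ (funext fun X => funext fun v => ?_))
          (hu z s1).2.2.2) e'
        rw [blk, blk, k1, if_pos ⟨s1, e'⟩, s2]
      · refine iff_of_false (fun a => (hu z s1).2.2.1 (cast (congrArg _
          (funext fun X => funext fun v => ?_)) a)) e'
        rw [blk, blk, k1, if_neg fun a => e' a.2, add_zero, s2]
  · obtain ⟨V, a1, a2, a3⟩ := mem_wcs.1 e
    exact b2 (p, V) ((m1 _).2 ⟨hp, a1, a2⟩) a3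

end Pool.Agent.P.MP_d3fb3e_lc.AF
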