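import Pool.Agent.P.MP_d3fb3e_lc.AF.Defs

/-! The gadget from the coin problem. -/

namespace Pool.Agent.P.MP_d3fb3e_lc.AF

open Finset Classical Filter
open Pool.Agent.P.MP_d1c5a4_lc

namespace GadL

theorem pr_sub {Ω : Type} [Fintype Ω] (p A : Ω → Prop) [Fintype {x // p x}] :
    pr (fun t : {x // p x} => A t.1) * pr p = pr fun x => A x ∧ p x := by
  unfold pr
  have h1 : Fintype.card {x // p x} = (univ.filter p).card := by
    rw [Fintype.card_subtype]
  have h2 : (univ.filter fun t : {x // p x} => A t.1).card =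
      (univ.filter fun x => A x ∧ p x).card := by
    refine card_bij (fun t _ => t.1) ?_ ?_ ?_
    · intro t ht
      simp only [mem_filter, mem_univ, true_and] at ht ⊢
      exact ⟨ht, t.2⟩
    · intro t _ s _ h
      exact Subtype.ext h
    · intro x hx
      simp only [mem_filter, mem_univ, true_and] at hx
      exact ⟨⟨x, hx.2⟩, by simpa using hx.1, rfl⟩
  rw [h1]
  by_cases h : (univ.filter p).card = 0
  · have h3 : (univ.filter fun x => A x ∧ p x).card = 0 :=
      Nat.eq_zero_of_le_zero (h ▸ card_le_card fun x => by simp)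
    have h4 : (univ.filter fun x => A x ∧ p x) = ∅ := card_eq_zero.1 h3
    rw [h]
    convert (zero_div _).symm
    · simp
    · convert h3 using 0
      simp
  · have h' : ((univ.filter p).card : ℝ) ≠ 0 := by exact_mod_cast h
    rw [div_mul_div_comm, mul_comm ((univ.filter p).card : ℝ), mul_div_mul_right _ _ h']
    congr 2
    convert h2

theorem pr_half : pr (fun x : F2 => x = 1) = 1 / 2 := by
  rw [pr_eq]
  simp [ZMod.card]

theorem pr_bias {a b : ℕ} (h : a ≤ b) : pr (fun x : Fin b => bias a x = 1) = (a : ℝ) / b := by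
  rw [pr_congr (F := fun x : Fin b => x.val < a) fun x => by unfold bias; split_ifs <;> simp [*]]
  unfold pr
  rw [Fintype.card_fin]
  congr 2
  have := Fin.card_filter_val_lt (n := b) (m := a)
  rw [min_eq_right h] at this
  convert this

theorem ex_of_pos {Ω : Type} [Fintype Ω] {E : Ω → Prop} (h : 0 < pr E) : ∃ ω, E ω := by
  by_contra hc
  push Not at hc
  rw [pr_false hc] at h
  exact lt_irrefl _ h

end GadL

open GadL

theorem pGad (h1 : PBias) (h2 : PCoin) (h3 : PTree) : PGad := by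
  intro t C B
  filter_upwards [h2 t C (B + 1), eventually_ge_atTop 1] with L hL hL1
  obtain ⟨a, b, F, ha, hab, hF, hκ, hhi, hlo⟩ := hL
  obtain ⟨J, iJ, dJ, Ψ, hΨ, hproj⟩ := h3 t (4 ^ (L + 1)) F hF
  have hb : Nonempty (Fin b) := ⟨⟨0, by omega⟩⟩
  have p1 : 1 / 2 ^ (L + 1) ≤ pr fun y : J → F2 => Ψ y := by
    have := hΨ F2 id
    simp only [id, pr_half] at this
    rw [show (1 : ℝ) - 1 / 2 = 1 / 2 by norm_num, ite_self] at this
    rw [this]
    exact hhi
  have p0 : pr (fun ξ : J → Fin b => Ψ fun j => bias a (ξ j)) ≤ 1 / 2 ^ ((B + 1) * L) := by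
    rw [hΨ (Fin b) (bias a), pr_bias (by omega)]
    exact hlo
  have hη : (1 : ℝ) / 2 ^ ((B + 1) * L) ≤ 1 / 2 ^ (B * L) :=
    one_div_le_one_div_of_le (by positivity)
      (pow_le_pow_right₀ (by norm_num) (Nat.mul_le_mul_right _ (Nat.le_succ _)))
  have hlt : (1 : ℝ) / 2 ^ ((B + 1) * L) < 1 := by
    rw [div_lt_one (by positivity)]
    exact one_lt_pow₀ (by norm_num) (Nat.mul_ne_zero (by omega) (by omega))
  have n1 : Nonempty {y : J → F2 // Ψ y} :=
    let ⟨y, hy⟩ := ex_of_pos (lt_of_lt_of_le (by positivity) p1); ⟨⟨y, hy⟩⟩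
  have n0 : Nonempty {ξ : J → Fin b // ¬ Ψ fun j => bias a (ξ j)} :=
    let ⟨y, hy⟩ := exists_of_pr_lt (p0.trans_lt hlt); ⟨⟨y, hy⟩⟩
  refine ⟨{ J := J
            T0 := {ξ : J → Fin b // ¬ Ψ fun j => bias a (ξ j)}
            T1 := {y : J → F2 // Ψ y}
            Ψ := Ψ
            e0 := fun ξ j => bias a (ξ.1 j)
            e1 := fun y => y.1
            h0 := fun τ => τ.2
            h1 := fun τ => τ.2
            hyb := fun f hf => ?_
            proj := fun m d hm hd => hproj m d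
              (lt_of_lt_of_le (Nat.pow_lt_pow_right (by norm_num) (by omega)) hm) hd }⟩
  have e1 := pr_sub (fun y : J → F2 => Ψ y) fun y => f y = 1
  have e0 := pr_sub (fun ξ : J → Fin b => ¬ Ψ fun j => bias a (ξ j))
    fun ξ => f (fun j => bias a (ξ j)) = 1
  set x1 := pr fun τ : {y : J → F2 // Ψ y} => f τ.1 = 1
  set x0 := pr fun τ : {ξ : J → Fin b // ¬ Ψ fun j => bias a (ξ j)} =>
    f (fun j => bias a (τ.1 j)) = 1
  have hx1 : 0 ≤ x1 := pr_nonneg _
  have hx0 : 0 ≤ x0 := pr_nonneg _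
  have s1 : x1 * (1 / 2 ^ (L + 1)) ≤ pr fun y : J → F2 => f y = 1 :=
    (mul_le_mul_of_nonneg_left p1 hx1).trans (e1.le.trans (pr_mono fun _ h => h.1))
  have s0 : pr (fun ξ : J → Fin b => f (fun j => bias a (ξ j)) = 1) ≤ x0 + 1 / 2 ^ (B * L) := by
    refine (pr_le_or (F := fun ξ : J → Fin b => f (fun j => bias a (ξ j)) = 1 ∧
      ¬ Ψ fun j => bias a (ξ j)) (G := fun ξ => Ψ fun j => bias a (ξ j))
      fun ξ h => by tauto).trans (add_le_add ?_ (p0.trans hη))
    exact e0.ge.trans (mul_le_of_le_one_right hx0 (pr_le_one _))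
  have s2 : x1 * (1 / 2 ^ (L + 1)) ≤ 2 ^ L * (x0 + 1 / 2 ^ (B * L)) :=
    s1.trans ((h1 J a b _ ha hab f hf).trans
      (mul_le_mul hκ s0 (pr_nonneg _) (by positivity)))
  rw [mul_one_div, div_le_iff₀ (by positivity)] at s2
  refine s2.trans ?_
  rw [mul_right_comm, ← pow_add]
  exact mul_le_mul_of_nonneg_right (pow_le_pow_right₀ (by norm_num) (by omega)) (by positivity)

end Pool.Agent.P.MP_d3fb3e_lc.AF
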