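import Pool.Agent.P.MP_d3fb3e_lc.AF.Cell

/-! Affine oracles: choice of the pointers. -/

namespace Pool.Agent.P.MP_d3fb3e_lc.AF

open Finset Classical Filter
open Pool.Agent.P.MP_d1c5a4_lc (pr pr_ex exists_of_pr_lt)
open Pool.Agent.Lib.helper21 (sz)

namespace HideA

/-- The pointer bits given by a finite word. -/
def ebt {n : ℕ} (u : Fin n → Bool) (j : ℕ) : Bool := if h : j < n then u ⟨j, h⟩ else false

/-- The location given by a finite word. -/
def loc {n : ℕ} (z : Cell) (u : Fin n → Bool) : List Bool := (List.range (sz z)).map (ebt u)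

theorem loc_inj {n : ℕ} {z : Cell} {u u' : Fin n → Bool} (hz : n ≤ sz z)
    (h : loc z u = loc z u') : u = u' := funext fun j => by
  simpa [ebt] using List.map_inj_left.1 h j (List.mem_range.2 (j.2.trans_le hz))

/-- The block of a variable. -/
noncomputable def bl (n : ℕ) (Cf : Finset Cell) (ν : Var) : Option (Cf × (Fin n → Bool)) :=
  if h : ∃ e : Cf × (Fin n → Bool), e.1.1 = ν.1 ∧ ν.2.1 = loc e.1.1 e.2 then some h.choose else none

theorem bl_iff {n : ℕ} {Cf : Finset Cell} (hC : ∀ z ∈ Cf, n ≤ sz z) (ν : Var)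
    (e : Cf × (Fin n → Bool)) : bl n Cf ν = some e ↔ e.1.1 = ν.1 ∧ ν.2.1 = loc e.1.1 e.2 := by
  unfold bl
  split_ifs with h
  · rw [Option.some_inj]
    refine ⟨fun h' => h' ▸ h.choose_spec, fun ⟨h1, h2⟩ => ?_⟩
    obtain ⟨h3, h4⟩ := h.choose_spec
    have h5 : h.choose.1 = e.1 := Subtype.ext (h3.trans h1.symm)
    rw [h5] at h4
    exact Prod.ext h5 (loc_inj (hC _ e.1.2) (h4.symm.trans h2))
  · exact ⟨fun h' => (by cases h'), fun h' => absurd ⟨e, h'⟩ h⟩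

theorem fam_len (c : Cx) {Q : Finset Sd} {Y : Finset Cell} {a : List Bool} (h : a ∈ c.fam Q Y) :
    a.length ≤ c.M := by
  obtain ⟨q, h1, h2⟩ := mem_biUnion.1 h
  exact (rd_len h2).trans (mem_filter.1 h1).2.2

theorem card_fam (c : Cx) (hM : 2 ≤ c.M) (Q : Finset Sd) (Y : Finset Cell) :
    (c.fam Q Y).card ≤ (Q.card + Y.card) * c.M ^ (c.K' + 2) := by
  refine (card_biUnion_le_card_mul _ _ _ fun q hq =>
    card_rd hM (mem_filter.1 hq).2.2 (mem_filter.1 hq).2.1).trans (Nat.mul_le_mul_right _ ?_)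
  exact (card_filter_le _ _).trans
    ((card_union_le _ _).trans (Nat.add_le_add_left card_image_le _))

theorem fam_sub (c : Cx) {Q Q' : Finset Sd} (h : Q.filter c.sd ⊆ Q') (Y : Finset Cell) :
    c.fam Q Y ⊆ c.fam Q' Y := by
  refine biUnion_subset_biUnion_of_subset_left _ fun q hq => ?_
  obtain ⟨h1, h2⟩ := mem_filter.1 hq
  refine mem_filter.2 ⟨?_, h2⟩
  rcases mem_union.1 h1 with h1 | h1
  · exact mem_union_left _ (h (mem_filter.2 ⟨h1, h2⟩))
  · exact mem_union_right _ h1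

theorem cover {α : Type} [DecidableEq α] (I Q : Finset α) (m : ℕ) (q0 : α) (h0 : q0 ∈ I)
    (hQ : Q ⊆ I) (hm : Q.card ≤ m) :
    ∃ g ∈ Fintype.piFinset fun _ : Fin m => I, Q ⊆ univ.image g := by
  refine ⟨fun i => Q.toList.getD i q0, Fintype.mem_piFinset.2 fun i => ?_, fun q hq => ?_⟩
  · by_cases h : (i : ℕ) < Q.toList.length
    · rw [List.getD_eq_getElem _ _ h]
      exact hQ (mem_toList.1 (List.getElem_mem h))
    · rw [List.getD_eq_default _ _ (not_lt.1 h)]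
      exact h0
  · obtain ⟨i, hi, rfl⟩ := List.mem_iff_getElem.1 (mem_toList.2 hq)
    refine mem_image.2 ⟨⟨i, hi.trans_le ((length_toList Q).trans_le hm)⟩, mem_univ _, ?_⟩
    exact List.getD_eq_getElem _ _ hi

theorem num {M D N T : ℕ} (hN : 16 * ((M + 1) * D) ≤ N) (hN0 : 0 < N) (hT : T ≤ 16 ^ M) :
    ((T ^ (M + 1) : ℕ) : ℝ) * ((((M + 1) * D : ℕ) : ℝ) / N) ^ (M + 2) ^ 2 < 1 := by
  have h1 : (((M + 1) * D : ℕ) : ℝ) / N ≤ 1 / 16 := by
    rw [div_le_div_iff₀ (by exact_mod_cast hN0) (by norm_num), one_mul, mul_comm]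
    exact_mod_cast hN
  have h2 : T ^ (M + 1) < 16 ^ (M + 2) ^ 2 := by
    refine (Nat.pow_le_pow_left hT _).trans_lt ?_
    rw [← pow_mul]
    exact Nat.pow_lt_pow_right (by norm_num) (by nlinarith)
  have h3 : ((T ^ (M + 1) : ℕ) : ℝ) < 16 ^ (M + 2) ^ 2 := by exact_mod_cast h2
  calc _ ≤ ((T ^ (M + 1) : ℕ) : ℝ) * (1 / 16) ^ (M + 2) ^ 2 := by gcongr
    _ < 16 ^ (M + 2) ^ 2 * (1 / 16) ^ (M + 2) ^ 2 := by gcongr
    _ = 1 := by rw [← mul_pow]; norm_num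

end HideA

open HideA in
theorem pHide (h : PVis) : PHide := by
  intro c hM hK hn
  set Cf := (cell_fin c.M).toFinset.filter fun z => c.n ≤ sz z with hCf
  have hC : ∀ z, z ∈ Cf ↔ sz z ≤ c.M ∧ c.n ≤ sz z := fun z => by simp [hCf]
  have hb := bl_iff (n := c.n) (Cf := Cf) fun z hz => ((hC z).1 hz).2
  obtain ⟨Lf, l1, l2⟩ := words_exists c.M
  set I : Finset Sd := range (c.M + 1) ×ˢ range (c.M + 1) ×ˢ Lf with hI
  have hI1 : I.card ≤ 16 ^ c.M := by
    have a1 : c.M + 1 ≤ 2 ^ c.M := Nat.lt_two_pow_self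
    simp only [hI, card_product, card_range]
    calc _ ≤ 2 ^ c.M * (2 ^ c.M * (2 ^ c.M * 2 ^ c.M)) :=
          Nat.mul_le_mul a1 (Nat.mul_le_mul a1 (l1.trans (Nat.mul_le_mul_right _ a1)))
      _ = 16 ^ c.M := by rw [← mul_pow, ← mul_pow, ← mul_pow]; norm_num
  have hI2 : ∀ q, c.sd q → q ∈ I := fun q ⟨h1, h2⟩ => by
    simp only [hI, mem_product, mem_range]
    exact ⟨by omega, by omega, l2 _ h2⟩
  let Fam : (Fin (c.M + 1) → Sd) → Finset Cf → Finset (Finset Var) := fun g Y =>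
    (c.fam (univ.image g) (Y.image Subtype.val)).image c.e.S
  have hF : ∀ g Y, Y.card < (c.M + 2) ^ 2 →
      (Fam g Y).card ≤ (c.M + 1 + (c.M + 2) ^ 2) * c.M ^ (c.K' + 2) := fun g Y hY =>
    card_image_le.trans ((card_fam c hM _ _).trans (Nat.mul_le_mul_right _ (Nat.add_le_add
      (card_image_le.trans (by simp)) (card_image_le.trans hY.le))))
  have hp := pr_ex (Fintype.piFinset fun _ : Fin (c.M + 1) => I) _ fun g _ =>
    h Var Cf (Fin c.n → Bool) (bl c.n Cf) (fun ν => sz ν.1) (Fam g) (c.M + 1) _ _ (hF g)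
  rw [Fintype.card_piFinset, prod_const, card_univ, Fintype.card_fin] at hp
  obtain ⟨ω, hω⟩ := exists_of_pr_lt (hp.trans_lt (num (by simpa using hn) Fintype.card_pos hI1))
  set π : Cell → ℕ → Bool := fun z => if h : z ∈ Cf then ebt (ω ⟨z, h⟩) else c.π z with hπ
  have hpt : ∀ z (hz : z ∈ Cf), ptr π z = loc z (ω ⟨z, hz⟩) := fun z hz => by
    rw [ptr, loc, hπ]
    simp only [dif_pos hz]
  refine ⟨π, fun z hz => dif_neg fun h => by have := (hC z).1 h; omega, fun Q hQ => ?_⟩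
  obtain ⟨g, g1, g2⟩ := cover I (Q.filter c.sd) (c.M + 1) (0, 0, []) (hI2 _ ⟨by simp, by simp⟩)
    (fun q hq => hI2 q (mem_filter.1 hq).2) ((card_filter_le _ _).trans hQ)
  obtain ⟨Y, y1, y2⟩ := not_not.1 fun h' => hω ⟨g, g1, h'⟩
  refine ⟨Y.image Subtype.val, card_image_le.trans y1.le, fun z z1 z2 => ?_⟩
  let u0 : Var → F2 := fun ν => if ν.1 = z ∧ ν.2.1 = ptr π z then 1 else 0
  have u1 : ∀ ν, u0 ν ≠ 0 → ν.1 = z := fun ν hν => by
    by_contra h'
    exact hν (if_neg fun h'' => h' h''.1)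
  by_cases hz : sz z ≤ c.M
  · obtain ⟨v, v1, v2⟩ := y2 (sz z) (Nat.lt_succ_of_le hz) u0 fun ν hν =>
      ⟨congrArg sz (u1 ν hν), fun y hy h' => z2 (mem_image.2 ⟨y, hy, ((hb _ _).1 h').1.trans (u1 ν hν)⟩)⟩
    have v3 : ∀ ν : Var, ν.2.1 = ptr π ν.1 → v ν = 0 := fun ν hν => by
      by_contra h'
      obtain ⟨a1, a2⟩ := v1 ν h'
      have a3 : ν.1 ∈ Cf := (hC _).2 ⟨a1.trans_le hz, z1.trans_eq a1.symm⟩
      exact a2 ⟨ν.1, a3⟩ ((hb _ _).2 ⟨rfl, hν.trans (hpt _ a3)⟩)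
    refine ⟨fun ν => u0 ν + v ν, fun ν hν => ?_, fun X w => ?_, fun a ha => ?_⟩
    · by_cases h' : u0 ν = 0
      · have a1 : v ν ≠ 0 := fun h'' => hν (by simp only [h', h'', add_zero])
        exact ⟨(v1 ν a1).1, fun h'' => absurd (v3 ν h'') a1⟩
      · exact ⟨by rw [u1 ν h'], fun _ => u1 ν h'⟩
    · show u0 (z, ptr π z, X, w) + v (z, ptr π z, X, w) = 1
      rw [v3 _ rfl, add_zero]
      exact if_pos ⟨rfl, rfl⟩
    · rw [sum_add_distrib, ← v2 _ (mem_image_of_mem _ (fam_sub c g2 _ ha))]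
      exact F2.add_self _
  · refine ⟨u0, fun ν hν => ⟨by rw [u1 ν hν], fun _ => u1 ν hν⟩, fun X w => if_pos ⟨rfl, rfl⟩,
      fun a ha => sum_eq_zero fun ν hν => ?_⟩
    by_contra h'
    have a1 := Sch.S_lt hν
    have a2 := fam_len c ha
    rw [u1 ν h'] at a1
    omega

end Pool.Agent.P.MP_d3fb3e_lc.AF
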