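import Pool.Agent.P.MP_d3fb3e_lc.AF.Defs

/-! The hybrid argument. -/

namespace Pool.Agent.P.MP_d3fb3e_lc.AF

open Finset Classical
open Pool.Agent.P.MP_d1c5a4_lc

namespace Hyb

/-- Resampling one coordinate. -/
theorem resample {Z A : Type} [Fintype Z] [DecidableEq Z] [Fintype A] [Nonempty A] (z : Z)
    (E : (Z → A) → Prop) :
    pr E = (∑ ω : Z → A, pr fun t : A => E (Function.update ω z t)) / Fintype.card (Z → A) := by
  have hi : Function.Involutive
      (fun p : (Z → A) × A => (Function.update p.1 z p.2, p.1 z)) := by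
    rintro ⟨ω, t⟩
    simp
  rw [← pr_fst (B := A) E, ← pr_bij hi.bijective, pr_prod]

/-- One half of a sample indexed by a bit. -/
theorem half {A : Type} [Fintype A] (E : Bool × A → Prop) (b : Bool) :
    pr (fun a => E (b, a)) ≤ 2 * pr E := by
  have h1 := pr_nonneg fun a => E (true, a)
  have h2 := pr_nonneg fun a => E (false, a)
  rw [pr_prod E, Fintype.sum_bool, Fintype.card_bool]
  cases b <;> push_cast <;> linarith

variable {t m0 d : ℕ} {κ η : ℝ} (G : Gad t m0 d κ η) {Z : Type} [Fintype Z] [DecidableEq Z]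
  {N : ℕ} (r : Z → Fin N) (μ : Z × Fin N × G.J → F2)

omit [Fintype Z] in
theorem dg_put {f : (Z × Fin N × G.J → F2) → F2} (hf : Dg d f) (v : Z → G.J → F2) (z : Z) :
    Dg d fun w : G.J → F2 => f (put r μ (Function.update v z w)) := by
  refine hf.comp fun ν => ?_
  by_cases h1 : ν.2.1 = r ν.1
  · by_cases h2 : ν.1 = z
    · exact (Dg.coord ν.2.2).congr fun w => by simp [put, h1, h2]
    · exact (Dg.const 1 (v ν.1 ν.2.2)).congr fun w => by simp [put, h1, h2]
  · exact (Dg.const 1 (μ ν)).congr fun w => by simp [put, h1]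

omit [Fintype Z] in
theorem sel_in {B : Finset Z} (z : Z) (ω : Z → G.T0 × G.T1) (τ : G.T0 × G.T1) :
    G.sel (· ∈ insert z B) (Function.update ω z τ) =
      Function.update (G.sel (· ∈ B) ω) z (G.e1 τ.2) := by
  funext z'
  by_cases h : z' = z
  · subst h
    simp [Gad.sel]
  · simp [Gad.sel, h]

omit [Fintype Z] in
theorem sel_out {B : Finset Z} {z : Z} (hz : z ∉ B) (ω : Z → G.T0 × G.T1) (τ : G.T0 × G.T1) :
    G.sel (· ∈ B) (Function.update ω z τ) =
      Function.update (G.sel (· ∈ B) ω) z (G.e0 τ.1) := by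
  funext z'
  by_cases h : z' = z
  · subst h
    simp [Gad.sel, hz]
  · simp [Gad.sel, h]

theorem step {f : (Z × Fin N × G.J → F2) → F2} (hf : Dg d f) {B : Finset Z} {z : Z}
    (hz : z ∉ B) :
    pr (fun u : Z → G.T0 × G.T1 => f (put r μ (G.sel (· ∈ insert z B) u)) = 1) ≤
      κ * (pr (fun u : Z → G.T0 × G.T1 => f (put r μ (G.sel (· ∈ B) u)) = 1) + η) := by
  have hc : (0 : ℝ) < Fintype.card (Z → G.T0 × G.T1) := by exact_mod_cast Fintype.card_pos
  rw [resample z, resample z fun u => f (put r μ (G.sel (· ∈ B) u)) = 1, div_add' _ _ _ hc.ne',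
    ← mul_div_assoc]
  refine div_le_div_of_nonneg_right ?_ hc.le
  have e : η * (Fintype.card (Z → G.T0 × G.T1) : ℝ) = ∑ _ω : Z → G.T0 × G.T1, η := by
    rw [sum_const, card_univ, nsmul_eq_mul, mul_comm]
  rw [e, ← sum_add_distrib, mul_sum]
  refine sum_le_sum fun ω _ => ?_
  simp only [sel_in G z, sel_out G hz]
  have h := G.hyb _ (dg_put G r μ hf (G.sel (· ∈ B) ω) z)
  rw [← pr_snd (A := G.T0), ← pr_fst (B := G.T1)
    fun τ => f (put r μ (Function.update (G.sel (· ∈ B) ω) z (G.e0 τ))) = 1] at h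
  exact h

theorem iter {f : (Z × Fin N × G.J → F2) → F2} (hf : Dg d f) (hκ : 1 ≤ κ) (hη : 0 ≤ η) {a : ℝ}
    (ha : pr (fun u : Z → G.T0 × G.T1 =>
      f (put r μ (G.sel (· ∈ (∅ : Finset Z)) u)) = 1) ≤ a) (B : Finset Z) :
    pr (fun u : Z → G.T0 × G.T1 => f (put r μ (G.sel (· ∈ B) u)) = 1) ≤
      κ ^ B.card * (a + B.card * η) := by
  induction B using Finset.induction_on with
  | empty => simpa using ha
  | insert z B hz ih =>
    refine (step G r μ hf hz).trans ?_
    rw [card_insert_of_notMem hz, pow_succ']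
    push_cast
    have h1 : 1 ≤ κ ^ B.card := one_le_pow₀ hκ
    rw [mul_assoc]
    refine mul_le_mul_of_nonneg_left ?_ (by linarith)
    nlinarith

end Hyb

open Hyb

theorem pHyb : PHyb := by
  intro t m0 d κ η ε G Z _ _ N r μ T hκ hη hA h0 B
  obtain ⟨f, hf, he⟩ := hA (Bool × (Z → G.T0 × G.T1)) fun ω =>
    put r μ (G.sel (· ∈ if ω.1 = true then B else ∅) ω.2)
  have h1 := half (fun ω : Bool × (Z → G.T0 × G.T1) =>
    ¬ (f (put r μ (G.sel (· ∈ if ω.1 = true then B else ∅) ω.2)) = 1 ↔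
      T (put r μ (G.sel (· ∈ if ω.1 = true then B else ∅) ω.2)))) true
  have h2 := half (fun ω : Bool × (Z → G.T0 × G.T1) =>
    ¬ (f (put r μ (G.sel (· ∈ if ω.1 = true then B else ∅) ω.2)) = 1 ↔
      T (put r μ (G.sel (· ∈ if ω.1 = true then B else ∅) ω.2)))) false
  simp only [if_true, Bool.false_eq_true, if_false] at h1 h2
  have h3 : pr (fun u : Z → G.T0 × G.T1 =>
      f (put r μ (G.sel (· ∈ (∅ : Finset Z)) u)) = 1) ≤ 2 * ε := by
    refine le_trans (pr_mono fun u hu hh => ?_) (h2.trans (by linarith))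
    refine h0 _ (fun z => ?_) (hh.1 hu)
    simpa [put, Gad.sel] using G.h0 (u z).1
  have h4 := iter G r μ hf hκ hη h3 B
  refine le_trans (pr_le_or fun u hu => ?_) (add_le_add h4 (h1.trans (by linarith)))
  by_cases h : f (put r μ (G.sel (· ∈ B) u)) = 1
  · exact Or.inl h
  · exact Or.inr fun hh => h (hh.2 hu)

end Pool.Agent.P.MP_d3fb3e_lc.AF
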