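import Pool.Agent.P.MP_d3fb3e_lc.AF.Defs

/-! Information sets and sets of vectors with sum zero. -/

namespace Pool.Agent.P.MP_d3fb3e_lc.AF

open Finset Classical

namespace Info

theorem ne_iff {x y : F2} (h : x ≠ y) : x + 1 = y := by revert x y; decide

theorem add_eq_one {x y : F2} (h : x ≠ y) : x + y = 1 := by revert x y; decide

theorem add_eq_zero {x y : F2} (h : x = y) : x + y = 0 := by rw [h]; exact F2.add_self y

/-- The case of unit vectors. -/
theorem unit (V : Type) (Λ : Finset (Finset V)) (W : Set V) : ∃ I : Finset V,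
    (∀ ν ∈ I, ν ∈ W) ∧ I.card ≤ Λ.card ∧ ∀ x ∈ W, ∃ c : V → F2, (∀ ν, c ν ≠ 0 → ν ∈ I) ∧
      ∀ s ∈ Λ, ∑ ν ∈ s, c ν = if x ∈ s then 1 else 0 := by
  induction Λ using Finset.induction_on with
  | empty => exact ⟨∅, by simp, by simp, fun x _ => ⟨0, by simp, by simp⟩⟩
  | insert s0 Λ hs ih =>
    obtain ⟨I, hW, hc, h⟩ := ih
    choose! c hc1 hc2 using h
    rw [card_insert_of_notMem hs]
    by_cases hA : ∀ x ∈ W, ∑ ν ∈ s0, c x ν = if x ∈ s0 then 1 else 0
    · refine ⟨I, hW, by omega, fun x hx => ⟨c x, hc1 x hx, fun s hs' => ?_⟩⟩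
      rcases mem_insert.1 hs' with rfl | hs'
      · exact hA x hx
      · exact hc2 x hx s hs'
    · push Not at hA
      obtain ⟨x0, hx0, hne⟩ := hA
      have hsum : ∀ s : Finset V, ∑ ν ∈ s, (c x0 ν + if ν = x0 then (1 : F2) else 0) =
          ∑ ν ∈ s, c x0 ν + if x0 ∈ s then 1 else 0 := fun s => by
        rw [sum_add_distrib, sum_ite_eq']
      refine ⟨insert x0 I, fun ν hν => ?_, (card_insert_le _ _).trans (by omega), fun x hx => ?_⟩
      · rcases mem_insert.1 hν with rfl | hν
        · exact hx0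
        · exact hW ν hν
      · by_cases hx' : ∑ ν ∈ s0, c x ν = if x ∈ s0 then 1 else 0
        · refine ⟨c x, fun ν hν => mem_insert_of_mem (hc1 x hx ν hν), fun s hs' => ?_⟩
          rcases mem_insert.1 hs' with rfl | hs'
          · exact hx'
          · exact hc2 x hx s hs'
        · refine ⟨fun ν => c x ν + (c x0 ν + if ν = x0 then (1 : F2) else 0), fun ν hν => ?_,
            fun s hs' => ?_⟩
          · by_contra hn
            rw [mem_insert, not_or] at hn
            apply hν
            have h1 : c x ν = 0 := by_contra fun h => hn.2 (hc1 x hx ν h)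
            have h2 : c x0 ν = 0 := by_contra fun h => hn.2 (hc1 x0 hx0 ν h)
            simp [h1, h2, hn.1]
          · rw [sum_add_distrib, hsum]
            rcases mem_insert.1 hs' with rfl | hs'
            · rw [add_eq_one hne]; exact ne_iff hx'
            · rw [add_eq_zero (hc2 x0 hx0 s hs'), add_zero]; exact hc2 x hx s hs'

end Info

theorem pInfo : PInfo := by
  intro V Λ W
  obtain ⟨I, hW, hc, h⟩ := Info.unit V Λ W
  choose! c hc1 hc2 using h
  refine ⟨I, hW, hc, fun u hu => ?_⟩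
  refine ⟨fun ν => ∑ x ∈ Λ.biUnion id, u x * c x ν, fun ν hν => ?_, fun s hs => ?_⟩
  · obtain ⟨x, -, hx⟩ := exists_ne_zero_of_sum_ne_zero hν
    exact hc1 x (hu x (left_ne_zero_of_mul hx)) ν (right_ne_zero_of_mul hx)
  · rw [sum_comm]
    have h1 : ∀ x ∈ Λ.biUnion id, ∑ ν ∈ s, u x * c x ν = if x ∈ s then u x else 0 := by
      intro x _
      rw [← mul_sum]
      by_cases hx : u x = 0
      · simp [hx]
      · rw [hc2 x (hu x hx) s hs]; simp
    rw [sum_congr rfl h1, ← sum_filter]
    refine sum_congr ?_ fun _ _ => rfl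
    ext x
    simp only [mem_filter, mem_biUnion, id]
    exact ⟨fun h => h.2, fun h => ⟨⟨s, hs, h⟩, h⟩⟩

theorem pZero : PZero := by
  intro A B P R h hlt
  have hn : ¬ LinearIndependent F2 (fun X : {X // X ∈ R} => fun a : {a // a ∈ P} => h X.1 a.1) := by
    intro hli
    have := hli.fintype_card_le_finrank
    simp only [Fintype.card_coe, Module.finrank_fintype_fun_eq_card] at this
    omega
  obtain ⟨g, hg, X0, hX0⟩ := Fintype.not_linearIndependent_iff.1 hn
  refine ⟨(univ.filter fun X : {X // X ∈ R} => g X = 1).map (Function.Embedding.subtype _),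
    fun X hX => ?_, ⟨X0.1, ?_⟩, fun a ha => ?_⟩
  · obtain ⟨Y, -, rfl⟩ := mem_map.1 hX
    exact Y.2
  · exact mem_map.2 ⟨X0, mem_filter.2 ⟨mem_univ _, (F2.cases _).resolve_left hX0⟩, rfl⟩
  · have h1 := congrFun hg ⟨a, ha⟩
    rw [Finset.sum_apply] at h1
    rw [sum_map, sum_filter]
    refine Eq.trans (sum_congr rfl fun X _ => ?_) h1
    rcases F2.cases (g X) with h0 | h0 <;> simp [h0]

end Pool.Agent.P.MP_d3fb3e_lc.AF
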