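import Pool.Agent.P.MP_d3fb3e_lc.AF.Defs

/-! Hamming balls are interpolating sets for functions of low degree. -/

namespace Pool.Agent.P.MP_d3fb3e_lc.AF

open Finset

namespace Interp

variable {m d : ℕ} {g : (Fin (m + 1) → F2) → F2}

theorem sec (h : Dg d g) (c : F2) : Dg d fun y : Fin m → F2 => g (Fin.cons c y) :=
  h.comp (φ := fun y => Fin.cons c y) fun i => by
    refine Fin.cases ?_ (fun j => ?_) i
    · exact (Dg.const 1 c).congr (by simp)
    · exact (Dg.coord j).congr (by simp)

theorem der (h : Dg d g) : (d = 0 → ∀ y y', g y = g y') ∧ ∀ r, d = r + 1 →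
    Dg r fun y : Fin m → F2 => g (Fin.cons 1 y) + g (Fin.cons 0 y) := by
  induction h with
  | const d c =>
    exact ⟨fun _ _ _ => rfl, fun r _ => (Dg.const r 0).congr fun _ => (F2.add_self c).symm⟩
  | add _ _ h1 h2 =>
    exact ⟨fun e y y' => congrArg₂ (· + ·) (h1.1 e y y') (h2.1 e y y'),
      fun r e => ((h1.2 r e).add (h2.2 r e)).congr fun y => by ring⟩
  | @var d f i hf ih =>
    refine ⟨fun e => absurd e (Nat.succ_ne_zero _), fun r e => ?_⟩
    obtain rfl : d = r := Nat.succ.inj e
    refine Fin.cases ?_ (fun j => ?_) i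
    · exact (sec hf 1).congr (by simp)
    · cases d with
      | zero =>
        refine (Dg.const 0 0).congr fun y => ?_
        simp only [Fin.cons_succ]
        rw [ih.1 rfl (Fin.cons 1 y) (Fin.cons 0 y), F2.add_self]
      | succ d =>
        refine ((ih.2 d rfl).var j).congr fun y => ?_
        simp only [Fin.cons_succ]
        ring

theorem wt_cons (c : F2) (y : Fin m → F2) :
    wt (Fin.cons c y : Fin (m + 1) → F2) = (if c = 1 then 1 else 0) + wt y := by
  simp only [wt, card_filter, Fin.sum_univ_succ, Fin.cons_zero, Fin.cons_succ]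

end Interp

open Interp

theorem pInterp : PInterp := by
  intro m
  induction m with
  | zero => exact fun r g _ h y => h y (by simp [wt])
  | succ m ih =>
    intro r g hg h y
    have h0 : ∀ z : Fin m → F2, g (Fin.cons 0 z) = 0 :=
      ih r _ (sec hg 0) fun z hz => h _ (by rw [wt_cons]; simpa using hz)
    rw [← Fin.cons_self_tail y]
    rcases F2.cases (y 0) with e | e <;> rw [e]
    · exact h0 _
    · cases r with
      | zero => rw [(der hg).1 rfl _ (Fin.cons 0 (Fin.tail y))]; exact h0 _
      | succ r =>
        have h1 := ih r _ ((der hg).2 r rfl) (fun z hz => by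
          rw [h0, add_zero]
          exact h _ (by rw [wt_cons, if_pos rfl]; omega)) (Fin.tail y)
        rwa [h0, add_zero] at h1

end Pool.Agent.P.MP_d3fb3e_lc.AF
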