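import Pool.Agent.P.MP_d3fb3e_lc.AF.Cell

/-! The random rows of the undecided cells. -/

namespace Pool.Agent.P.MP_d3fb3e_lc.AF

open Finset Classical
open Pool.Agent.Lib.helper21 (sz)

namespace Mid

/-- Functions that are affine in `y` with a linear part free of `r`. -/
def Aff {A I : Type} [Fintype I] (f : A → (I → F2) → F2) : Prop :=
  ∃ l : I → F2, ∀ r, ∃ b, ∀ y, f r y = b + ∑ i, l i * y i

section
variable {A I : Type} [Fintype I]

theorem Aff.const (g : A → F2) : Aff fun r (_ : I → F2) => g r :=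
  ⟨0, fun r => ⟨g r, fun _ => by simp⟩⟩

theorem Aff.coord (i : I) : Aff fun (_ : A) (y : I → F2) => y i :=
  ⟨fun j => if j = i then 1 else 0, fun _ => ⟨0, fun y => by simp⟩⟩

theorem Aff.add {f g : A → (I → F2) → F2} (hf : Aff f) (hg : Aff g) :
    Aff fun r y => f r y + g r y := by
  obtain ⟨l, hl⟩ := hf
  obtain ⟨l', hl'⟩ := hg
  refine ⟨l + l', fun r => ?_⟩
  obtain ⟨b, hb⟩ := hl r
  obtain ⟨b', hb'⟩ := hl' r
  refine ⟨b + b', fun y => ?_⟩
  simp only [hb, hb', Pi.add_apply, add_mul, sum_add_distrib]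
  ring

theorem Aff.congr {f g : A → (I → F2) → F2} (hf : Aff f) (h : ∀ r y, g r y = f r y) : Aff g :=
  (funext fun r => funext fun y => (h r y).symm : f = g) ▸ hf

theorem Aff.sum {B : Type} (T : Finset B) {f : B → A → (I → F2) → F2} (h : ∀ b, Aff (f b)) :
    Aff fun r y => ∑ b ∈ T, f b r y := by
  induction T using Finset.induction_on with
  | empty => exact (Aff.const fun _ => 0).congr (by simp)
  | insert a T ha ih => exact ((h a).add ih).congr fun r y => by rw [sum_insert ha]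

end

/-- The variables in the block of the pointer. -/
def eb (π : Cell → ℕ → Bool) (z : Cell) (p : List Bool × ℕ) : Var := (z, ptr π z, p)

theorem eb_inj (π : Cell → ℕ → Bool) (z : Cell) : Function.Injective (eb π z) := fun _ _ h =>
  congrArg (fun ν : Var => ν.2.2) h

/-- The contents before the compensation. -/
noncomputable def pre {J : Type} {N : ℕ} (em : Fin N → List Bool) (ρ : ℕ → Option J) (r : Fin N)
    (y : Fin N → J → F2) (p : List Bool × ℕ) : F2 :=
  if h : ∃ i, em i = p.1 then (ρ p.2).elim (if h.choose = r then 1 else 0) (y h.choose) else 0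

theorem pre_em {J : Type} {N : ℕ} {em : Fin N → List Bool} (hem : Function.Injective em)
    (ρ : ℕ → Option J) (r : Fin N) (y : Fin N → J → F2) (i : Fin N) (v : ℕ) :
    pre em ρ r y (em i, v) = (ρ v).elim (if i = r then 1 else 0) (y i) := by
  have h : ∃ i', em i' = (em i, v).1 := ⟨i, rfl⟩
  rw [pre, dif_pos h, hem h.choose_spec]

/-- One cell. -/
theorem cell (h1 : PCmp) (h2 : PTmOne) (c : Cx) (γ : St) {d N : ℕ} {κ η : ℝ}
    (G : Gad c.t c.n d κ η) (z : Cell) (hz : c.mid z) (ht : 1 ≤ c.t) (hn : 2 ≤ c.n)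
    (haf : c.AF γ.ω)
    (hr : c.n ≤ sz z → c.K < par z → γ.R.card ^ 2 + γ.R.card + N ≤ (rows z).card) :
    ∃ (em : Fin N → List Bool) (ρ : ℕ → Option G.J)
      (Φ : (List Bool × ℕ → F2) → List Bool × ℕ → F2), (∀ i, em i ∈ rows z) ∧
      (∀ w, ∀ a ∈ γ.R, ∑ p ∈ (c.e.S a).preimage (eb c.π z) (eb_inj _ _).injOn, Φ w p =
        ∑ p ∈ (c.e.S a).preimage (eb c.π z) (eb_inj _ _).injOn, γ.ω (eb c.π z p)) ∧
      (∀ p, ∃ (b : F2) (T : Finset (List Bool × ℕ)), ∀ w, Φ w p = b + ∑ p' ∈ T, w p') ∧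
      ∀ r y X, Tm (sz z) (fun v => decide (Φ (pre em ρ r y) (X, v) = 1)) (dp c.S z) true 0 ↔
        X = em r ∧ G.Ψ (y r) := by
  obtain ⟨z1, -, z3, z4⟩ := hz
  obtain ⟨z5, z6⟩ := z3.2.resolve_left (by omega)
  obtain ⟨F, Φ, f1, f2, f3, f4, f5⟩ := h1 (List Bool) ℕ
    (γ.R.image fun a => (c.e.S a).preimage (eb c.π z) (eb_inj _ _).injOn) fun p => γ.ω (eb c.π z p)
  have hc : (γ.R.image fun a => (c.e.S a).preimage (eb c.π z) (eb_inj _ _).injOn).card ≤
      γ.R.card := card_image_le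
  have hN : N ≤ (rows z \ F).card := by
    have a1 := hr z1 z6
    have a2 := le_card_sdiff F (rows z)
    have a3 := Nat.pow_le_pow_left hc 2
    omega
  obtain ⟨e⟩ : Nonempty (Fin N ↪ (rows z \ F : Finset (List Bool))) :=
    Function.Embedding.nonempty_of_card_le (by simpa using hN)
  obtain ⟨ρ, hρ⟩ := G.proj (sz z) (dp c.S z) z1 z5
  have hem : Function.Injective fun i => (e i : List Bool) := Subtype.val_injective.comp e.injective
  refine ⟨fun i => e i, ρ, Φ, fun i => (mem_sdiff.1 (e i).2).1,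
    fun w a ha => f4 w _ (mem_image_of_mem _ ha), f5, fun r y X => ?_⟩
  by_cases hX : X ∈ F
  · refine iff_of_false ?_ fun h => (mem_sdiff.1 (e r).2).2 ((show X = e r from h.1) ▸ hX)
    rcases f3 (pre (fun i => e i) ρ r y) X hX with h | ⟨v0, h⟩
    · simp only [h]
      exact haf z X
    · exact h2 _ _ v0 _ (by omega) (by omega) fun v hv => by simp [h v hv]
  · simp only [f2 _ (X, _) hX]
    by_cases h : ∃ i, (e i : List Bool) = X
    · obtain ⟨i, rfl⟩ := h
      simp only [pre_em hem]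
      rw [hρ]
      by_cases hi : i = r
      · simp [hi]
      · simp only [hi, if_false, zero_ne_one, false_and, false_iff]
        exact fun h' => hi (hem h'.1)
    · refine iff_of_false ?_ fun h' => h ⟨r, h'.1.symm⟩
      simp only [pre, dif_neg h, zero_ne_one, decide_false]
      rw [Tm_const (by omega)]
      simp

end Mid

open Mid in
theorem pMid (h1 : PCmp) (h2 : PTmOne) : PMid := by
  intro c γ d N κ η G Z _ ι hι hmid ht hn haf hr
  choose em ρ Φ k1 k2 k3 k4 using fun z => cell h1 h2 c γ G (ι z) (hmid z) ht hn haf (hr (ι z))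
  let ω : (Z → Fin N) → (Z × Fin N × G.J → F2) → Var → F2 := fun r y ν =>
    if h : ∃ z, ι z = ν.1 ∧ ν.2.1 = ptr c.π ν.1 then
      Φ h.choose (pre (em h.choose) (ρ h.choose) (r h.choose) fun i j => y (h.choose, i, j)) ν.2.2
    else γ.ω ν
  have hon : ∀ r y z p, ω r y (eb c.π (ι z) p) =
      Φ z (pre (em z) (ρ z) (r z) fun i j => y (z, i, j)) p := by
    intro r y z p
    have h : ∃ z', ι z' = (eb c.π (ι z) p).1 ∧
        (eb c.π (ι z) p).2.1 = ptr c.π (eb c.π (ι z) p).1 := ⟨z, rfl, rfl⟩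
    have e : h.choose = z := hι h.choose_spec.1
    simp only [ω, dif_pos h, e]
    rfl
  have hoff : ∀ r y ν, (¬ ∃ z p, ν = eb c.π (ι z) p) → ω r y ν = γ.ω ν := by
    intro r y ν h
    refine dif_neg fun ⟨z, a, b⟩ => h ⟨z, ν.2.2, ?_⟩
    exact Prod.ext a.symm (Prod.ext (by rw [b, ← a]; rfl) rfl)
  have hblk : ∀ r y z X, blk c.π (ω r y) (ι z) X =
      fun v => decide (Φ z (pre (em z) (ρ z) (r z) fun i j => y (z, i, j)) (X, v) = 1) :=
    fun r y z X => funext fun v => by rw [← hon]; rfl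
  have h01 : ∀ r y ν, (∀ z, ι z ≠ ν.1) → ω r y ν = γ.ω ν := fun r y ν h =>
    hoff r y ν fun ⟨z, p, e⟩ => h z (by rw [e]; rfl)
  refine ⟨ω, h01, fun r y y' z h p => ?_, fun r y a ha => ?_, fun ν => ?_, fun r y z => ?_,
    fun r y h z X => ?_⟩
  · by_cases hp : ∃ z' p', (ι z, p) = eb c.π (ι z') p'
    · obtain ⟨z', p', e⟩ := hp
      obtain rfl : z = z' := hι (congrArg Prod.fst e)
      rw [e, hon, hon, show (fun i j => y (z, i, j)) = fun i j => y' (z, i, j) from
        funext fun i => funext fun j => h i j]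
    · rw [hoff _ _ _ hp, hoff _ _ _ hp]
  · have hD : ∀ ν, c.wld 0 (ω r y) ν = c.wld 0 γ.ω ν +
        ∑ z, if ν ∈ Set.range (eb c.π (ι z)) then ω r y ν - γ.ω ν else 0 := by
      intro ν
      by_cases hp : ∃ z p, ν = eb c.π (ι z) p
      · obtain ⟨z, p, rfl⟩ := hp
        have hU : c.isU (eb c.π (ι z) p) := ⟨(hmid z).1, (hmid z).2.2.1, rfl⟩
        rw [sum_eq_single z, if_pos ⟨p, rfl⟩, Cx.wld, Cx.wld, if_pos hU, if_pos hU]
        · ring
        · exact fun z' _ hz => if_neg fun ⟨p', e⟩ => hz (hι (congrArg Prod.fst e))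
        · exact fun h => absurd (mem_univ z) h
      · rw [Cx.wld, Cx.wld, hoff _ _ _ hp]
        simp
    rw [Cx.lU, Cx.lU, sum_congr rfl fun ν _ => hD ν, sum_add_distrib, sum_comm, add_eq_left]
    refine sum_eq_zero fun z _ => ?_
    rw [← sum_preimage (eb c.π (ι z)) (c.e.S a) (eb_inj _ _).injOn _ fun ν _ hν => if_neg hν,
      sum_congr rfl fun p _ => if_pos ⟨p, rfl⟩, sum_sub_distrib, sub_eq_zero, ← k2 z _ a ha]
    exact sum_congr rfl fun p _ => hon r y z p
  · change Aff fun r y => ω r y ν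
    by_cases hp : ∃ z p, ν = eb c.π (ι z) p
    · obtain ⟨z, p, rfl⟩ := hp
      obtain ⟨b, T, hT⟩ := k3 z p
      refine ((Aff.const fun _ => b).add (Aff.sum T (f := fun p' r y =>
        pre (em z) (ρ z) (r z) (fun i j => y (z, i, j)) p') fun p' => ?_)).congr
        fun r y => by rw [hon, hT]
      by_cases h : ∃ i, em z i = p'.1
      · rcases hρ : ρ z p'.2 with _ | j
        · exact (Aff.const fun r : Z → Fin N => if h.choose = r z then 1 else 0).congr
            fun r y => by rw [pre, dif_pos h, hρ]; rfl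
        · exact (Aff.coord (z, h.choose, j)).congr fun r y => by rw [pre, dif_pos h, hρ]; rfl
      · exact (Aff.const fun _ => 0).congr fun r y => by rw [pre, dif_neg h]
    · exact (Aff.const fun _ => γ.ω ν).congr fun r y => hoff r y ν hp
  · simp only [En, hblk, k4]
    exact ⟨fun ⟨_, _, h⟩ => h.2, fun h => ⟨_, k1 z (r z), rfl, h⟩⟩
  · by_cases hz : ∃ z', ι z' = z
    · obtain ⟨z', rfl⟩ := hz
      rw [hblk, k4]
      exact fun h' => h z' h'.2
    · have : blk c.π (ω r y) z X = blk c.π γ.ω z X := funext fun v => by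
        rw [blk, blk, h01 r y _ fun z' e => hz ⟨z', e⟩]
      rw [this]
      exact haf z X

end Pool.Agent.P.MP_d3fb3e_lc.AF
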