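import Mathlib

/-! The multilinear extension over rings of characteristic two is additive and local. -/

namespace Pool.Agent.P.MP_d3fb3e_lc.AF

/-- The multilinear extension of `A`, restricted to words of length `z.length`, at the point `z`. -/
def mle {F : Type} [CommRing F] : (List Bool → Bool) → List F → F
  | A, [] => if A [] = true then 1 else 0
  | A, c :: z => (1 - c) * mle (fun w => A (false :: w)) z + c * mle (fun w => A (true :: w)) z

theorem mle_xor {F : Type} [CommRing F] [CharP F 2] (z : List F) (A B : List Bool → Bool) :
    mle (fun w => xor (A w) (B w)) z = mle A z + mle B z := by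
  induction z generalizing A B with
  | nil =>
    rcases h1 : A [] with _ | _ <;> rcases h2 : B [] with _ | _ <;>
      simp [mle, h1, h2, CharTwo.add_self_eq_zero]
  | cons c z ih =>
    simp only [mle, ih]
    ring

theorem mle_loc {F : Type} [CommRing F] (z : List F) (A B : List Bool → Bool)
    (h : ∀ w : List Bool, w.length = z.length → A w = B w) : mle A z = mle B z := by
  induction z generalizing A B with
  | nil => simp only [mle, h [] rfl]
  | cons c z ih =>
    simp only [mle]
    rw [ih _ (fun w => B (false :: w)) fun w hw => h _ (by simp [hw]),
      ih (fun w => A (true :: w)) (fun w => B (true :: w)) fun w hw => h _ (by simp [hw])]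

theorem mle_bool {F : Type} [CommRing F] (w : List Bool) (A : List Bool → Bool) :
    mle A (w.map fun b => if b = true then (1 : F) else 0) = if A w = true then 1 else 0 := by
  induction w generalizing A with
  | nil => rfl
  | cons b w ih => cases b <;> simp [mle, ih]

variable {F : List Bool → Type} [∀ q, CommRing (F q)] (pt : ∀ q, List (F q))
  (fn : ∀ q, F q →+ ZMod 2)

/-- The oracle `A` joined with its affine extension: the query `true :: q` names a ring `F q`, a
point `pt q` and a bit `fn q` of the value of the multilinear extension of `A` at that point. -/
def aff (A : List Bool → Bool) : List Bool → Bool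
  | [] => false
  | false :: w => A w
  | true :: q => decide (fn q (mle A (pt q)) = 1)

theorem aff_xor [∀ q, CharP (F q) 2] (A B : List Bool → Bool) (q : List Bool) :
    aff pt fn (fun w => xor (A w) (B w)) q = xor (aff pt fn A q) (aff pt fn B q) := by
  rcases q with _ | ⟨_ | _, q⟩
  · rfl
  · rfl
  · simp only [aff, mle_xor, map_add]
    generalize fn q (mle A (pt q)) = a
    generalize fn q (mle B (pt q)) = b
    revert a b
    decide

theorem aff_loc (h : ∀ q, (pt q).length ≤ q.length + 1) (A B : List Bool → Bool) (q : List Bool)
    (hq : ∀ w : List Bool, w.length ≤ q.length → A w = B w) : aff pt fn A q = aff pt fn B q := by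
  rcases q with _ | ⟨_ | _, q⟩
  · rfl
  · exact hq q (by simp)
  · simp only [aff]
    rw [mle_loc _ A B fun w hw => hq w (by simpa [hw] using h q)]

end Pool.Agent.P.MP_d3fb3e_lc.AF
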