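import Pool.Agent.P.MP_d3fb3e_lc.AF.Defs

/-! Supports of functions of low degree meet Hamming balls. -/

namespace Pool.Agent.P.MP_d3fb3e_lc.AF

open Finset Classical

namespace NW

/-- The Hilbert function of the support of `f` is at most the size of its part in a ball. -/
theorem hil_le (h1 : PInterp) (m d r : ℕ) (f : (Fin m → F2) → F2) (hf : Dg d f) :
    hil (univ.filter fun y => f y = 1) r ≤
      (univ.filter fun y => f y = 1 ∧ wt y ≤ r + d).card := by
  set Y : Finset (Fin m → F2) := univ.filter fun y => f y = 1 with hY
  set B : Finset (Fin m → F2) := univ.filter fun y => f y = 1 ∧ wt y ≤ r + d with hB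
  have hBY : ∀ y : {y // y ∈ B}, y.1 ∈ Y := fun y => by
    have := y.2
    simp only [hB, mem_filter, mem_univ, true_and] at this
    simp only [hY, mem_filter, mem_univ, true_and]
    exact this.1
  let ι : {y // y ∈ B} → {y // y ∈ Y} := fun y => ⟨y.1, hBY y⟩
  let S := (Pd (Fin m) r).map
    (LinearMap.funLeft F2 F2 (Subtype.val : {y // y ∈ Y} → Fin m → F2))
  let φ : S →ₗ[F2] ({y // y ∈ B} → F2) := (LinearMap.funLeft F2 F2 ι).comp S.subtype
  have hφ : Function.Injective φ := by
    rw [← LinearMap.ker_eq_bot, LinearMap.ker_eq_bot']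
    rintro ⟨v, g, hg, rfl⟩ h0
    have hg' : Dg r g := hg
    have hz : ∀ y, g y * f y = 0 := by
      refine h1 m (r + d) _ (hg'.mul hf) fun y hy => ?_
      rcases F2.cases (f y) with h | h
      · rw [h, mul_zero]
      · have hyB : y ∈ B := by
          simp only [hB, mem_filter, mem_univ, true_and]
          exact ⟨h, hy⟩
        have := congrFun h0 ⟨y, hyB⟩
        have hgy : g y = 0 := this
        rw [hgy, zero_mul]
    apply Subtype.ext
    funext y
    have hy : f y.1 = 1 := by
      have := y.2
      simpa only [hY, mem_filter, mem_univ, true_and] using this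
    have := hz y.1
    rw [hy, mul_one] at this
    exact this
  have := LinearMap.finrank_le_finrank_of_injective hφ
  rw [Module.finrank_fintype_fun_eq_card, Fintype.card_coe] at this
  exact this

end NW

theorem pNW (h1 : PInterp) (h2 : PRank) : PNW := fun m d r f hf =>
  (h2 m r _).trans (Nat.mul_le_mul_right _ (NW.hil_le h1 m d r f hf))

end Pool.Agent.P.MP_d3fb3e_lc.AF
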