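import Pool.Agent.P.MP_d3fb3e_lc.AF.Cell

/-! The numerical inequalities of a stage. -/

namespace Pool.Agent.P.MP_d3fb3e_lc.AF

open Filter

namespace Num

theorem first (M K' : ℕ) (hM : 16 ≤ M) :
    16 * ((M + 1) * ((M + 1 + (M + 2) ^ 2) * M ^ (K' + 2))) ≤ M ^ (K' + 8) := by
  have h1 : M + 1 ≤ M ^ 2 := by nlinarith
  have h2 : M + 1 + (M + 2) ^ 2 ≤ M ^ 3 := by
    have : 16 * M ^ 2 ≤ M ^ 3 := by nlinarith [Nat.zero_le (M ^ 2)]
    nlinarith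
  calc 16 * ((M + 1) * ((M + 1 + (M + 2) ^ 2) * M ^ (K' + 2)))
      ≤ M * (M ^ 2 * (M ^ 3 * M ^ (K' + 2))) := by gcongr
    _ = M ^ (K' + 8) := by ring

theorem grow (c n : ℕ) (h : c ≤ n) : c * n ≤ 4 ^ n := by
  have h1 : n ≤ 2 ^ n := Nat.lt_two_pow_self.le
  calc c * n ≤ 2 ^ n * 2 ^ n := Nat.mul_le_mul (h.trans h1) h1
    _ = 4 ^ n := (mul_pow 2 2 n).symm

theorem quarter {T x : ℝ} (hT : 2 ≤ T) (N : ℕ) (hx : x ≤ T ^ N) : x / T ^ (N + 2) ≤ 1 / 4 := by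
  have h0 : 0 < T ^ N := by positivity
  have h4 : 4 ≤ T ^ 2 := by nlinarith
  rw [div_le_div_iff₀ (by positivity) (by norm_num), pow_add]
  nlinarith

theorem second (e K' : ℕ) (T M : ℝ) (hT : 2 ≤ T) (hM : 16 ≤ M) (hMT : M ≤ T ^ (6 * e)) :
    ((M + 2) ^ 2 + 1) * M ^ K' *
      (((M + 1) * M ^ 2 / M ^ 5) ^ (K' + 6) + 2 ^ (K' + 6) *
        ((T ^ 3) ^ (K' + 6) * (2 * ((M + 1) ^ K' /
          T ^ (6 * e * (K' + 3) + 5 * (K' + 6) + 1 + 12 * e * K' + 2)) +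
          ((K' + 6 : ℕ) : ℝ) *
            (1 / T ^ (6 * e * (K' + 3) + 5 * (K' + 6) + 1 + 12 * e * K' + 2))) +
          2 * ((M + 1) ^ K' /
            T ^ (6 * e * (K' + 3) + 5 * (K' + 6) + 1 + 12 * e * K' + 2)))) < 1 := by
  have hM0 : 0 < M := by linarith
  have hT1 : 1 ≤ T := by linarith
  have hA : ((M + 2) ^ 2 + 1) * M ^ K' ≤ M ^ (K' + 3) := by
    have : (M + 2) ^ 2 + 1 ≤ M ^ 3 := by
      have : 16 * M ^ 2 ≤ M ^ 3 := by nlinarith [sq_nonneg M]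
      nlinarith
    calc ((M + 2) ^ 2 + 1) * M ^ K' ≤ M ^ 3 * M ^ K' := by gcongr
      _ = M ^ (K' + 3) := by ring
  have hAT : ((M + 2) ^ 2 + 1) * M ^ K' ≤ T ^ (6 * e * (K' + 3)) := by
    refine hA.trans ?_
    rw [pow_mul]
    gcongr
  have hB : (M + 1) ^ K' ≤ T ^ (12 * e * K') := by
    have h1 : M + 1 ≤ M ^ 2 := by nlinarith
    have h2 : M ^ 2 ≤ T ^ (12 * e) := by
      rw [show 12 * e = 6 * e * 2 by ring, pow_mul]
      gcongr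
    rw [pow_mul]
    gcongr
    exact h1.trans h2
  have h2q : (2 : ℝ) ^ (K' + 6) ≤ T ^ (K' + 6) := by gcongr
  have hq : ((K' + 6 : ℕ) : ℝ) ≤ T ^ (K' + 6) := by
    refine le_trans ?_ h2q
    exact_mod_cast (Nat.lt_two_pow_self (n := K' + 6)).le
  have h1 : ((M + 2) ^ 2 + 1) * M ^ K' * ((M + 1) * M ^ 2 / M ^ 5) ^ (K' + 6) < 1 / 4 := by
    have h3 : (M + 1) * M ^ 2 / M ^ 5 ≤ 1 / M := by
      rw [div_le_div_iff₀ (by positivity) hM0]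
      have : M + 1 ≤ M ^ 2 := by nlinarith
      calc (M + 1) * M ^ 2 * M ≤ M ^ 2 * M ^ 2 * M := by gcongr
        _ = 1 * M ^ 5 := by ring
    calc ((M + 2) ^ 2 + 1) * M ^ K' * ((M + 1) * M ^ 2 / M ^ 5) ^ (K' + 6)
        ≤ M ^ (K' + 3) * (1 / M) ^ (K' + 6) := by gcongr
      _ = 1 / M ^ 3 := by
        rw [one_div_pow]
        field_simp
        ring
      _ < 1 / 4 := by
        rw [div_lt_div_iff₀ (by positivity) (by norm_num)]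
        have : 16 * M ^ 2 ≤ M ^ 3 := by nlinarith [sq_nonneg M]
        nlinarith
  generalize hN : 6 * e * (K' + 3) + 5 * (K' + 6) + 1 + 12 * e * K' = N
  generalize ((M + 1) * M ^ 2 / M ^ 5) ^ (K' + 6) = u at h1 ⊢
  have hA0 : 0 ≤ ((M + 2) ^ 2 + 1) * M ^ K' := by positivity
  generalize ((M + 2) ^ 2 + 1) * M ^ K' = A at h1 hAT hA0 ⊢
  have hB0 : 0 ≤ (M + 1) ^ K' := by positivity
  generalize (M + 1) ^ K' = D at hB hB0 ⊢
  have t2 : A * 2 ^ (K' + 6) * (T ^ 3) ^ (K' + 6) * 2 * D / T ^ (N + 2) ≤ 1 / 4 := by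
    refine quarter hT N ?_
    calc A * 2 ^ (K' + 6) * (T ^ 3) ^ (K' + 6) * 2 * D
        ≤ T ^ (6 * e * (K' + 3)) * T ^ (K' + 6) * (T ^ 3) ^ (K' + 6) * T * T ^ (12 * e * K') := by
          gcongr
      _ = T ^ (6 * e * (K' + 3) + 4 * (K' + 6) + 1 + 12 * e * K') := by ring
      _ ≤ T ^ N := pow_le_pow_right₀ hT1 (by omega)
  have t3 : A * 2 ^ (K' + 6) * (T ^ 3) ^ (K' + 6) * ((K' + 6 : ℕ) : ℝ) / T ^ (N + 2) ≤ 1 / 4 := by
    refine quarter hT N ?_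
    calc A * 2 ^ (K' + 6) * (T ^ 3) ^ (K' + 6) * ((K' + 6 : ℕ) : ℝ)
        ≤ T ^ (6 * e * (K' + 3)) * T ^ (K' + 6) * (T ^ 3) ^ (K' + 6) * T ^ (K' + 6) := by
          gcongr
      _ = T ^ (6 * e * (K' + 3) + 5 * (K' + 6)) := by ring
      _ ≤ T ^ N := pow_le_pow_right₀ hT1 (by omega)
  have t4 : A * 2 ^ (K' + 6) * 2 * D / T ^ (N + 2) ≤ 1 / 4 := by
    refine quarter hT N ?_
    calc A * 2 ^ (K' + 6) * 2 * D
        ≤ T ^ (6 * e * (K' + 3)) * T ^ (K' + 6) * T * T ^ (12 * e * K') := by gcongr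
      _ = T ^ (6 * e * (K' + 3) + (K' + 6) + 1 + 12 * e * K') := by ring
      _ ≤ T ^ N := pow_le_pow_right₀ hT1 (by omega)
  have key : A * (u + 2 ^ (K' + 6) * ((T ^ 3) ^ (K' + 6) * (2 * (D / T ^ (N + 2)) +
      ((K' + 6 : ℕ) : ℝ) * (1 / T ^ (N + 2))) + 2 * (D / T ^ (N + 2)))) =
      A * u + A * 2 ^ (K' + 6) * (T ^ 3) ^ (K' + 6) * 2 * D / T ^ (N + 2) +
      A * 2 ^ (K' + 6) * (T ^ 3) ^ (K' + 6) * ((K' + 6 : ℕ) : ℝ) / T ^ (N + 2) +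
      A * 2 ^ (K' + 6) * 2 * D / T ^ (N + 2) := by
    simp only [div_eq_mul_inv]
    generalize (T ^ (N + 2))⁻¹ = w
    generalize (T ^ 3) ^ (K' + 6) = a
    generalize (2 : ℝ) ^ (K' + 6) = b
    ring
  rw [key]
  linarith

end Num

theorem pNum : PNum := by
  intro e K' he
  refine ⟨6 * e * (K' + 3) + 5 * (K' + 6) + 1 + 12 * e * K' + 2,
    6 * e * (K' + 3) + 5 * (K' + 6) + 1 + 12 * e * K' + 2, by omega, ?_⟩
  filter_upwards [eventually_ge_atTop (2 * e * (K' + 8)), eventually_ge_atTop 1] with L hL hL1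
  intro M hM
  have hM2 : M = 2 ^ (2 * e * (L + 2)) := by
    rw [hM, ← pow_mul, show (4 : ℕ) = 2 ^ 2 by norm_num, ← pow_mul]
    congr 1
    ring
  have h16 : 16 ≤ M := by
    rw [hM2]
    calc 16 = 2 ^ 4 := by norm_num
      _ ≤ 2 ^ (2 * e * (L + 2)) := Nat.pow_le_pow_right (by norm_num) (by nlinarith)
  constructor
  · refine (Num.first M K' h16).trans ?_
    rw [hM2, ← pow_mul]
    refine Nat.pow_le_pow_right (by norm_num) ?_
    calc 2 * e * (L + 2) * (K' + 8) = 2 * e * (K' + 8) * (L + 2) := by ring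
      _ ≤ 4 ^ (L + 2) := Num.grow _ _ (by omega)
  · have hT : (2 : ℝ) ≤ 2 ^ L := by
      calc (2 : ℝ) = 2 ^ 1 := by norm_num
        _ ≤ 2 ^ L := pow_le_pow_right₀ (by norm_num) hL1
    have hMT : (M : ℝ) ≤ (2 ^ L) ^ (6 * e) := by
      rw [hM2, ← pow_mul]
      push_cast
      exact pow_le_pow_right₀ (by norm_num) (by nlinarith)
    have h := Num.second e K' (2 ^ L) M hT (by exact_mod_cast h16) hMT
    rw [mul_comm 3 L, mul_comm _ L, pow_mul, pow_mul]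
    push_cast at h ⊢
    exact h

end Pool.Agent.P.MP_d3fb3e_lc.AF
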