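import Pool.Agent.P.MP_d3fb3e_lc.AF.Defs

/-! The lower bound for the affine Hilbert function of a subset of the cube. -/

namespace Pool.Agent.P.MP_d3fb3e_lc.AF

open Finset Classical

namespace Rank

/-- A short sequence of subspaces. -/
theorem seq_le {A B C : Type} [AddCommGroup A] [AddCommGroup B] [AddCommGroup C]
    [Module F2 A] [Module F2 B] [Module F2 C] [FiniteDimensional F2 B] [FiniteDimensional F2 C]
    (E : A →ₗ[F2] B) (hE : Function.Injective E) (P : B →ₗ[F2] C) (SA : Submodule F2 A)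
    (SB : Submodule F2 B) (SC : Submodule F2 C) (h1 : ∀ a ∈ SA, E a ∈ SB)
    (h2 : ∀ a, P (E a) = 0) (h3 : SC ≤ SB.map P) :
    Module.finrank F2 SA + Module.finrank F2 SC ≤ Module.finrank F2 SB := by
  have h := LinearMap.finrank_range_add_finrank_ker (P.domRestrict SB)
  have hr : Module.finrank F2 SC ≤ Module.finrank F2 (LinearMap.range (P.domRestrict SB)) := by
    rw [LinearMap.range_domRestrict]
    exact Submodule.finrank_mono h3
  let φ : SA →ₗ[F2] LinearMap.ker (P.domRestrict SB) :=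
    { toFun := fun a => ⟨⟨E a.1, h1 a.1 a.2⟩, by simp [h2]⟩
      map_add' := fun a b => by ext; simp
      map_smul' := fun c a => by ext; simp }
  have hφ : Function.Injective φ := fun a b hab => by
    apply Subtype.ext
    apply hE
    exact congrArg (fun x : LinearMap.ker (P.domRestrict SB) => (x.1.1 : B)) hab
  have hk := LinearMap.finrank_le_finrank_of_injective hφ
  omega

/-- The space of restrictions. -/
noncomputable abbrev Sp {I : Type} (Y : Finset (I → F2)) (D : ℕ) :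
    Submodule F2 ({y // y ∈ Y} → F2) :=
  (Pd I D).map (LinearMap.funLeft F2 F2 (Subtype.val : {y // y ∈ Y} → I → F2))

theorem one_le_hil {I : Type} (Y : Finset (I → F2)) (D : ℕ) (hY : Y.Nonempty) : 1 ≤ hil Y D := by
  obtain ⟨y, hy⟩ := hY
  have : Sp Y D ≠ ⊥ := by
    intro h
    have hm : (fun _ => (1 : F2)) ∈ Sp Y D := ⟨fun _ => 1, Dg.const D 1, rfl⟩
    rw [h, Submodule.mem_bot] at hm
    exact one_ne_zero (congrFun hm ⟨y, hy⟩)
  exact Submodule.one_le_finrank_iff.2 this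

theorem triv (m D : ℕ) (Y : Finset (Fin m → F2)) : Y.card ≤ hil Y D * 2 ^ m := by
  rcases Y.eq_empty_or_nonempty with rfl | hY
  · simp
  · have h1 := one_le_hil Y D hY
    have h2 : Y.card ≤ 2 ^ m := by
      have := card_le_univ Y
      simpa [ZMod.card] using this
    calc Y.card ≤ 1 * 2 ^ m := by omega
      _ ≤ _ := Nat.mul_le_mul_right _ h1

/-- A section of `Y`. -/
noncomputable def sec {m : ℕ} (Y : Finset (Fin (m + 1) → F2)) (c : F2) : Finset (Fin m → F2) :=
  univ.filter fun y => (Fin.cons c y : Fin (m + 1) → F2) ∈ Y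

theorem mem_sec {m : ℕ} {Y : Finset (Fin (m + 1) → F2)} {c : F2} {y : Fin m → F2} :
    y ∈ sec Y c ↔ (Fin.cons c y : Fin (m + 1) → F2) ∈ Y := by simp [sec]

theorem card_sec {m : ℕ} (Y : Finset (Fin (m + 1) → F2)) (c : F2) :
    (Y.filter fun y => y 0 = c).card = (sec Y c).card := by
  refine card_bij (fun y _ => Fin.tail y) ?_ ?_ ?_
  · intro y hy
    rw [mem_filter] at hy
    rw [mem_sec, ← hy.2, Fin.cons_self_tail]
    exact hy.1
  · intro y hy z hz h
    rw [mem_filter] at hy hz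
    rw [← Fin.cons_self_tail y, ← Fin.cons_self_tail z, hy.2, hz.2]
    exact congrArg _ h
  · intro y hy
    exact ⟨Fin.cons c y, mem_filter.2 ⟨mem_sec.1 hy, rfl⟩, rfl⟩

theorem card_eq {m : ℕ} (Y : Finset (Fin (m + 1) → F2)) :
    Y.card = (sec Y 0 ∪ sec Y 1).card + (sec Y 0 ∩ sec Y 1).card := by
  rw [card_union_add_card_inter, ← card_sec, ← card_sec,
    ← card_filter_add_card_filter_not (s := Y) fun y => y 0 = 0]
  congr 2
  refine filter_congr fun y _ => ?_
  rcases F2.cases (y 0) with h | h <;> simp [h]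

theorem tail_mem {m : ℕ} {Y : Finset (Fin (m + 1) → F2)} {y : Fin (m + 1) → F2} (hy : y ∈ Y) :
    Fin.tail y ∈ sec Y 0 ∪ sec Y 1 := by
  rw [mem_union, mem_sec, mem_sec]
  rcases F2.cases (y 0) with h | h
  · left; rw [← h, Fin.cons_self_tail]; exact hy
  · right; rw [← h, Fin.cons_self_tail]; exact hy

theorem dg_tail {m d : ℕ} {g : (Fin m → F2) → F2} (hg : Dg d g) :
    Dg d fun y : Fin (m + 1) → F2 => g (Fin.tail y) :=
  hg.comp (φ := fun y : Fin (m + 1) → F2 => Fin.tail y) fun i => Dg.coord i.succ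

theorem step {m : ℕ} (Y : Finset (Fin (m + 1) → F2)) (D : ℕ) :
    hil (sec Y 0 ∪ sec Y 1) (D + 1) + hil (sec Y 0 ∩ sec Y 1) D ≤ hil Y (D + 1) := by
  let t : {y // y ∈ Y} → {y // y ∈ sec Y 0 ∪ sec Y 1} := fun y => ⟨Fin.tail y.1, tail_mem y.2⟩
  let c0 : {y // y ∈ sec Y 0 ∩ sec Y 1} → {y // y ∈ Y} := fun y =>
    ⟨Fin.cons 0 y.1, mem_sec.1 (mem_inter.1 y.2).1⟩
  let c1 : {y // y ∈ sec Y 0 ∩ sec Y 1} → {y // y ∈ Y} := fun y =>
    ⟨Fin.cons 1 y.1, mem_sec.1 (mem_inter.1 y.2).2⟩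
  have ht : Function.Surjective t := by
    rintro ⟨y, hy⟩
    rcases mem_union.1 hy with h | h
    · exact ⟨⟨Fin.cons 0 y, mem_sec.1 h⟩, rfl⟩
    · exact ⟨⟨Fin.cons 1 y, mem_sec.1 h⟩, rfl⟩
  refine seq_le (LinearMap.funLeft F2 F2 t) (LinearMap.funLeft_injective_of_surjective _ _ t ht)
    (LinearMap.funLeft F2 F2 c1 + LinearMap.funLeft F2 F2 c0) (Sp _ (D + 1)) (Sp Y (D + 1))
    (Sp _ D) ?_ ?_ ?_
  · rintro _ ⟨g, hg, rfl⟩
    exact ⟨fun y => g (Fin.tail y), dg_tail hg, rfl⟩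
  · intro a
    funext y
    exact F2.add_self (a ⟨y.1, mem_union_left _ (mem_inter.1 y.2).1⟩)
  · rintro _ ⟨g, hg, rfl⟩
    refine ⟨_, ⟨fun y => y 0 * g (Fin.tail y), (dg_tail hg).var 0, rfl⟩, ?_⟩
    funext y
    show (1 : F2) * g y.1 + 0 * g y.1 = g y.1
    ring

theorem nb_succ (m D : ℕ) : Nb (m + 1) (D + 1) = Nb m (D + 1) + Nb m D := by
  unfold Nb
  rw [sum_range_succ', sum_range_succ' (fun i => m.choose i) (D + 1)]
  simp only [Nat.choose_succ_succ, sum_add_distrib, Nat.choose_zero_right]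
  ring

theorem nb_le (m D : ℕ) : Nb m D ≤ Nb m (D + 1) := by
  unfold Nb
  rw [sum_range_succ _ (D + 1)]
  omega

theorem nb_zero (D : ℕ) : Nb 0 D = 1 := by
  unfold Nb
  rw [sum_range_succ']
  simp

end Rank

open Rank in
theorem pRank : PRank := by
  intro m
  induction m with
  | zero => intro D Y; rw [nb_zero, mul_one]; exact triv 0 D Y
  | succ m ih =>
    intro D Y
    cases D with
    | zero => simpa [Nb] using triv (m + 1) 0 Y
    | succ D =>
      have h1 := ih (D + 1) (sec Y 0 ∪ sec Y 1)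
      have h2 := ih D (sec Y 0 ∩ sec Y 1)
      have h3 := Rank.step Y D
      have h4 : (sec Y 0 ∩ sec Y 1).card ≤ (sec Y 0 ∪ sec Y 1).card :=
        card_le_card inter_subset_union
      have h5 := nb_le m D
      rw [card_eq, nb_succ, pow_succ]
      obtain ⟨u, hu⟩ := Nat.exists_eq_add_of_le h4
      obtain ⟨v, hv⟩ := Nat.exists_eq_add_of_le h5
      rw [hu, hv] at h1 ⊢
      have h6 := Nat.mul_le_mul_right (2 ^ m) h3
      nlinarith [Nat.zero_le (u * v)]

end Pool.Agent.P.MP_d3fb3e_lc.AF
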