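import Pool.Agent.P.MP_d3fb3e_lc.AF.Defs

/-! The approximation of OR by polynomials of low degree. -/

namespace Pool.Agent.P.MP_d3fb3e_lc.AF

open Finset Classical
open Pool.Agent.P.MP_d1c5a4_lc

namespace Raz1

theorem dg_prod {I : Type} {d : ℕ} : ∀ (l : ℕ) (h : Fin l → (I → F2) → F2),
    (∀ j, Dg d (h j)) → Dg (d * l) fun y => ∏ j, h j y
  | 0, _, _ => (Dg.const _ 1).congr (by simp)
  | l + 1, h, hh => (((hh 0).mul (dg_prod l (fun j => h j.succ) fun j => hh j.succ)).congr
      fun y => (Fin.prod_univ_succ fun j => h j y).symm).mono (by rw [Nat.mul_succ]; omega)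

theorem half {n : ℕ} (c : Fin n → F2) (i : Fin n) (hi : c i = 1) :
    pr (fun a : Fin n → F2 => ∑ k, a k * c k = 0) = 1 / 2 := by
  have hv : Function.Involutive fun a : Fin n → F2 => a + Pi.single i 1 := fun a => by
    funext k
    simp only [Pi.add_apply, add_assoc, F2.add_self, add_zero]
  have h1 := pr_bij hv.bijective fun a : Fin n → F2 => ∑ k, a k * c k = 0
  have h2 := pr_not fun a : Fin n → F2 => ∑ k, a k * c k = 0
  have h3 : ∀ a : Fin n → F2, (∑ k, (a + Pi.single i 1 : Fin n → F2) k * c k = 0) ↔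
      ¬ ∑ k, a k * c k = 0 := fun a => by
    have : ∑ k, (a + Pi.single i 1 : Fin n → F2) k * c k = ∑ k, a k * c k + 1 := by
      simp only [Pi.add_apply, add_mul, sum_add_distrib]
      congr 1
      rw [sum_eq_single i (fun k _ hk => by simp [hk]) (by simp)]
      simp [hi]
    rw [this]
    generalize ∑ k, a k * c k = x
    revert x
    decide
  rw [pr_congr h3] at h1
  linarith

theorem ex_le {A B : Type} [Fintype A] [Fintype B] [Nonempty A] (E : A × B → Prop) {ε : ℝ}
    (h : pr E ≤ ε) : ∃ a, pr (fun b => E (a, b)) ≤ ε := by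
  have hc : (0 : ℝ) < Fintype.card A := by exact_mod_cast Fintype.card_pos
  rw [pr_prod, div_le_iff₀ hc, mul_comm, ← nsmul_eq_mul, ← card_univ, ← sum_const] at h
  obtain ⟨a, -, ha⟩ := exists_le_of_sum_le univ_nonempty h
  exact ⟨a, ha⟩

end Raz1

open Raz1

theorem pRaz1 : PRaz1 := by
  intro I Ω _ s d l K f hf
  let g : (Fin l → Fin K.length → F2) → (I → F2) → F2 := fun a y =>
    1 + ∏ j, (1 + ∑ k, a j k * f K[k] y)
  have hg : ∀ a, Dg (d * l) (g a) := fun a =>
    (Dg.const _ 1).add (dg_prod l _ fun j => (Dg.const _ 1).add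
      (Dg.sum _ fun k _ => (hf _ (List.getElem_mem _)).smul _))
  have key : pr (fun p : (Fin l → Fin K.length → F2) × Ω =>
      ¬ (g p.1 (s p.2) = 1 ↔ ∃ v ∈ K, f v (s p.2) = 1)) ≤ 1 / 2 ^ l := by
    rw [← pr_swap]
    refine pr_le_of_all _ (by positivity) fun ω => ?_
    by_cases h : ∃ v ∈ K, f v (s ω) = 1
    · obtain ⟨v, hv, h1⟩ := id h
      obtain ⟨i, rfl⟩ := List.get_of_mem hv
      refine (pr_mono (F := fun a : Fin l → Fin K.length → F2 =>
        ∀ j, ∑ k, a j k * f K[k] (s ω) = 0) fun a ha j => ?_).trans ?_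
      · by_contra hj
        refine ha (iff_of_true ?_ h)
        have : (1 + ∑ k, a j k * f K[k] (s ω)) = 0 := by
          rw [(F2.cases _).resolve_left hj]
          exact F2.add_self 1
        simp only [g]
        rw [prod_eq_zero (mem_univ j) this, add_zero]
      · rw [pr_pi fun (_ : Fin l) (a : Fin K.length → F2) => ∑ k, a k * f K[k] (s ω) = 0,
          half (fun k => f K[k] (s ω)) i h1]
        simp
    · rw [pr_false]
      · positivity
      intro a ha
      refine ha (iff_of_false ?_ h)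
      have : ∀ k : Fin K.length, f K[k] (s ω) = 0 := fun k =>
        (F2.cases _).resolve_right fun hk => h ⟨_, List.getElem_mem _, hk⟩
      simp only [g, this, mul_zero, sum_const_zero, add_zero, prod_const_one]
      decide
  obtain ⟨a, ha⟩ := ex_le _ key
  exact ⟨g a, hg a, ha⟩

end Pool.Agent.P.MP_d3fb3e_lc.AF
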