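import Pool.Agent.P.MP_d3fb3e_lc.AF.Defs

/-! Approximation of oracle circuits with affine oracle answers by functions of low degree. -/

namespace Pool.Agent.P.MP_d3fb3e_lc.AF

open Finset Classical
open Pool.Agent.P.MP_d1c5a4_lc (pr pr_false pr_congr pr_le_or pr_ex pr_mono)

namespace Raz2

variable {I : Type} {d e : ℕ} {ε δ : ℝ} {T T' : (I → F2) → Prop}

theorem congr (h : Apx d ε T) (hT : ∀ y, T y ↔ T' y) : Apx d ε T' :=
  (funext fun y => propext (hT y) : T = T') ▸ h

theorem exact {f : (I → F2) → F2} (hf : Dg d f) (hT : ∀ y, T y ↔ f y = 1) (hε : 0 ≤ ε) :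
    Apx d ε T := fun _ _ s =>
  ⟨f, hf, by rw [pr_false fun ω => not_not.2 (hT (s ω)).symm]; exact hε⟩

theorem const (hT : ∀ y y', T y ↔ T y') (hε : 0 ≤ ε) : Apx d ε T := by
  by_cases h : T fun _ => 0
  · exact exact (Dg.const d 1) (fun y => by simpa using (hT _ y).1 h) hε
  · exact exact (Dg.const d 0) (fun y => by simpa using fun h' => h ((hT y _).1 h')) hε

theorem one_add (c : F2) : 1 + c = 1 ↔ ¬ c = 1 := by revert c; decide

theorem mul_one' (c c' : F2) : c * c' = 1 ↔ c = 1 ∧ c' = 1 := by revert c c'; decide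

theorem neg (h : Apx d ε T) : Apx d ε fun y => ¬ T y := fun Ω _ s => by
  obtain ⟨f, h1, h2⟩ := h Ω s
  refine ⟨fun y => 1 + f y, (Dg.const d 1).add h1, le_trans (le_of_eq (pr_congr fun ω => ?_)) h2⟩
  rw [one_add, not_iff_not, not_iff_not]

theorem conj (h : Apx d ε T) (h' : Apx e δ T') : Apx (d + e) (ε + δ) fun y => T y ∧ T' y :=
  fun Ω _ s => by
  obtain ⟨f, h1, h2⟩ := h Ω s
  obtain ⟨g, h3, h4⟩ := h' Ω s
  refine ⟨fun y => f y * g y, h1.mul h3, le_trans (pr_le_or fun ω hω => ?_) (add_le_add h2 h4)⟩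
  by_contra hc
  rw [not_or, not_not, not_not] at hc
  exact hω (by rw [mul_one', hc.1, hc.2])

theorem big (H : PRaz1) (l : ℕ) (K : List ℕ) {g : ℕ → (I → F2) → Prop} (hε : 0 ≤ ε)
    (hg : ∀ v ∈ K, Apx d ε (g v)) :
    Apx (d * l) (K.length * ε + 1 / 2 ^ l) fun y => ∃ v ∈ K, g v y := fun Ω _ s => by
  have h0 : ∀ v, ∃ f : (I → F2) → F2, v ∈ K → Dg d f ∧
      pr (fun ω => ¬ (f (s ω) = 1 ↔ g v (s ω))) ≤ ε := fun v => by
    by_cases hv : v ∈ K
    · obtain ⟨f, hf⟩ := hg v hv Ω s
      exact ⟨f, fun _ => hf⟩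
    · exact ⟨fun _ => 0, fun h => absurd h hv⟩
  choose f hf using h0
  obtain ⟨q, h1, h2⟩ := H I Ω s d l K f fun v hv => (hf v hv).1
  have h3 := pr_ex K.toFinset (fun v ω => ¬ (f v (s ω) = 1 ↔ g v (s ω)))
    fun v hv => (hf v (List.mem_toFinset.1 hv)).2
  have h4 : ((K.toFinset.card : ℕ) : ℝ) * ε ≤ K.length * ε :=
    mul_le_mul_of_nonneg_right (by exact_mod_cast List.toFinset_card_le K) hε
  refine ⟨q, h1, le_trans (pr_le_or fun ω hω => ?_) (add_le_add (h3.trans h4) h2)⟩
  by_contra hc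
  rw [not_or, not_not] at hc
  refine hω (hc.2.trans (exists_congr fun v => and_congr_right fun hv => ?_))
  by_contra h5
  exact hc.1 ⟨v, List.mem_toFinset.2 hv, h5⟩

theorem small (K : List ℕ) (hK : K.length ≤ 2) {g : ℕ → (I → F2) → Prop}
    (hg : ∀ v ∈ K, Apx d ε (g v)) : Apx (d + d) (K.length * ε) fun y => ∀ v ∈ K, g v y := by
  rcases K with _ | ⟨v, _ | ⟨w, _ | ⟨_, _⟩⟩⟩
  · exact const (by simp) (by simp)
  · exact congr ((hg v (by simp)).mono (Nat.le_add_right d d) (by simp)) (by simp)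
  · refine congr ((conj (hg v (by simp)) (hg w (by simp))).mono le_rfl (le_of_eq ?_)) (by simp)
    simp only [List.length_cons, List.length_nil]
    push_cast
    ring
  · simp at hK

end Raz2

open Raz2 in
theorem pRaz2 (H : PRaz1) : PRaz2 := by
  intro I O hO hs l hl x V h
  have hpos : ∀ h : ℕ, (0 : ℝ) ≤ ((x.length : ℝ) + 1) ^ h / 2 ^ l := fun h => by positivity
  induction h with
  | zero => exact fun t u b _ => const (fun _ _ => Iff.rfl) (hpos 0)
  | succ h ih =>
    intro t u b hu
    rcases hu with h0 | ⟨-, -, h3, h4⟩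
    · exact const (fun _ _ => by rw [val_inp h0, val_inp h0]) (hpos _)
    by_cases h5 : kind x u = 3
    · simp only [h5, if_true] at h4
      obtain ⟨f, f1, f2⟩ := hO (adr x V h u)
      refine exact (f1.mono (Nat.mul_pos (by positivity) (by positivity))) (fun y => ?_) (hpos _)
      rw [← f2 y]
      simp [val, h5, adr_eq h4]
    by_cases h6 : 2 < (kids x u).length ∧ t = 0
    · refine const (fun y y' => ?_) (hpos _)
      rw [val_congr (A := O y) (A' := O y') (fun v hv => val_const (h4 v hv) (Or.inr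
        ⟨by simp [h6], fun a ha => hs a ha y y'⟩)) fun h => absurd h h5]
    have hk : ((kids x u).length : ℝ) ≤ x.length := by exact_mod_cast kids_len x u
    have h1 : (1 : ℝ) ≤ ((x.length : ℝ) + 1) ^ h := one_le_pow₀ (by simp)
    have he : ((kids x u).length : ℝ) * (((x.length : ℝ) + 1) ^ h / 2 ^ l) + 1 / 2 ^ l ≤
        ((x.length : ℝ) + 1) ^ (h + 1) / 2 ^ l := by
      rw [← mul_div_assoc, ← add_div, pow_succ]
      gcongr
      nlinarith
    have key : ∀ g : ℕ → (I → F2) → Prop, (∀ v ∈ kids x u,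
        Apx (2 ^ h * l ^ (if 2 < (kids x u).length then t - 1 else t))
          (((x.length : ℝ) + 1) ^ h / 2 ^ l) (g v)) →
        Apx (2 ^ (h + 1) * l ^ t) (((x.length : ℝ) + 1) ^ (h + 1) / 2 ^ l)
          fun y => ∃ v ∈ kids x u, g v y := by
      intro g g1
      by_cases h7 : 2 < (kids x u).length
      · obtain ⟨t, rfl⟩ : ∃ t', t = t' + 1 := ⟨t - 1, by omega⟩
        simp only [h7, if_true, Nat.add_sub_cancel] at g1
        refine (big H l _ (hpos h) g1).mono ?_ he
        rw [mul_assoc, ← pow_succ]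
        exact Nat.mul_le_mul_right _ (Nat.pow_le_pow_right two_pos (by omega))
      · simp only [h7, if_false] at g1
        refine congr ((neg (small _ (by omega) fun v hv => neg (g1 v hv))).mono
          (le_of_eq (by ring)) (le_trans (le_add_of_nonneg_right (by positivity)) he)) (by simp)
    have hc : ∀ v ∈ kids x u, Apx (2 ^ h * l ^ (if 2 < (kids x u).length then t - 1 else t))
        (((x.length : ℝ) + 1) ^ h / 2 ^ l) fun y => val (O y) x V h v = true := fun v hv => by
      refine ih _ v (if kind x u = 3 then false else b) ?_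
      have h8 := h4 v hv
      by_cases h7 : 2 < (kids x u).length
      · simp only [h7, if_true] at h8 ⊢
        rwa [show t - 1 + 1 = t + 1 - 1 by omega]
      · simpa only [h7, if_false] using h8
    have k1 := key _ hc
    have k2 := key _ fun v hv => neg (hc v hv)
    by_cases h0 : kind x u = 0
    · exact const (fun _ _ => by rw [val_inp h0, val_inp h0]) (hpos _)
    by_cases h8 : kind x u = 1
    · exact congr k2 (by simp [val, h8])
    by_cases h9 : kind x u = 2
    · exact congr k1 (by simp [val, h9])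
    · exact congr (neg k2) (by simp [val, h0, h8, h9, h5])

end Pool.Agent.P.MP_d3fb3e_lc.AF
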