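import Pool.Agent.P.MP_d3fb3e_lc.AF.Cell

/-! Every additive local extension operator comes from a scheme. -/

namespace Pool.Agent.P.MP_d3fb3e_lc.AF

open Finset Classical Filter

namespace SchP

/-- A bit as an element of the field. -/
def ch (b : Bool) : F2 := if b = true then 1 else 0

theorem ch_xor (a b : Bool) : ch (xor a b) = ch a + ch b := by
  cases a <;> cases b <;> decide

theorem eq_dec (b : Bool) : b = decide (ch b = 1) := by
  cases b <;> decide

/-- The indicator of one word. -/
def dl (v : List Bool) : List Bool → Bool := fun w => decide (w = v)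

/-- The words that are not longer than `q`. -/
noncomputable def U (q : List Bool) : Finset (List Bool) :=
  (List.finite_length_le Bool q.length).toFinset

theorem mem_U {q w : List Bool} : w ∈ U q ↔ w.length ≤ q.length := by
  simp [U]

theorem parity {X : (List Bool → Bool) → List Bool → Bool}
    (h : ∀ A B q, X (fun w => xor (A w) (B w)) q = xor (X A q) (X B q)) (q : List Bool)
    (T : Finset (List Bool)) :
    ch (X (fun w => decide (w ∈ T)) q) = ∑ v ∈ T, ch (X (dl v) q) := by
  induction T using Finset.induction_on with
  | empty =>
    have h0 := h (fun _ => false) (fun _ => false) q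
    simp only [Bool.xor_self] at h0
    simp only [notMem_empty, decide_false, h0, sum_empty]
    rfl
  | insert a T ha ih =>
    have h1 : (fun w => decide (w ∈ insert a T)) =
        fun w => xor (dl a w) (decide (w ∈ T)) := by
      funext w
      by_cases hw : w = a
      · subst hw; simp [dl, ha]
      · simp [dl, hw]
    rw [h1, h, ch_xor, ih, sum_insert ha]

end SchP

open SchP in
theorem pSch : PSch := by
  intro X h1 h2 h3
  refine ⟨⟨fun q => (U q).filter fun v => X (dl v) q = true,
    fun q w hw => mem_U.1 (mem_filter.1 hw).1, fun w => ?_⟩, fun A => funext fun q => ?_⟩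
  · ext v
    simp only [mem_filter, mem_U, h3, dl, decide_eq_true_eq, mem_singleton, List.length_cons]
    exact ⟨fun h => h.2.symm, fun h => ⟨by rw [h]; omega, h.symm⟩⟩
  · have e1 : X A q = X (fun w => decide (w ∈ (U q).filter fun v => A v = true)) q :=
      h2 _ _ q fun w hw => by simp [mem_U, hw]
    have e2 : ch (X A q) = ∑ w ∈ (U q).filter fun v => X (dl v) q = true,
        (if A w = true then 1 else 0 : F2) := by
      rw [e1, parity h1, sum_filter, sum_filter]
      refine sum_congr rfl fun w _ => ?_
      cases A w <;> cases X (dl w) q <;> simp [ch]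
    rw [eq_dec (X A q), e2]
    simp only [Sch.ext]

end Pool.Agent.P.MP_d3fb3e_lc.AF
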