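import Pool.Agent.P.MP_d3fb3e_lc.AF.Cell

/-! Deciding instances and new seeds. -/

namespace Pool.Agent.P.MP_d3fb3e_lc.AF

open Finset Classical
open Pool.Agent.Lib.helper21 (sz)

namespace Seed

variable {c : Cx} {γ γ' γ'' : St}

theorem le_ag (h : c.le γ γ') {ω : Var → F2} (hω : c.Ag γ' ω) : c.Ag γ ω :=
  fun a ha => (hω a (h.2.1 ha)).trans (h.2.2.2 a ha)

theorem le_trans' (h : c.le γ γ') (h' : c.le γ' γ'') : c.le γ γ'' :=
  ⟨h.1.trans h'.1, h.2.1.trans h'.2.1, fun a ha => (h'.2.2.1 a (h.1 ha)).trans (h.2.2.1 a ha),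
    le_ag h h'.2.2.2⟩

theorem good_mono {q : Cell} {v : Bool} (h : c.Good γ q v) (hle : c.le γ γ') : c.Good γ' q v := by
  have key : rds q ⊆ γ.P → ∀ ω, (src (c.O γ'.κ ω) q ↔ src (c.O γ.κ ω) q) := fun h1 ω =>
    wcs_loc fun a ha => c.O_congr (hle.2.2.1 a (h1 ha)) rfl
  exact h.imp (fun ⟨h1, h2⟩ => ⟨h1.trans hle.1, fun ω hω => (key h1 ω).trans (h2 ω (le_ag hle hω))⟩)
    fun ⟨h0, h1, h2, h3⟩ => ⟨h0, h1.trans hle.1, h2, fun ω hω hf h4 =>
      h3 ω (le_ag hle hω) hf ((key h1 ω).1 h4)⟩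

theorem comp_anti {P P' : Finset (List Bool)} {z : Cell} (h : c.Comp P z) (h' : P' ⊆ P) :
    c.Comp P' z :=
  let ⟨u, a, b, d⟩ := h
  ⟨u, a, b, fun x hx => d x (h' hx)⟩

theorem fam_mono {Q Q' : Finset Sd} {Y Y' : Finset Cell} (h : Q ⊆ Q') (h' : Y ⊆ Y') :
    c.fam Q Y ⊆ c.fam Q' Y' :=
  biUnion_subset_biUnion_of_subset_left _ (filter_subset_filter _
    (union_subset_union h (image_subset_image h')))

theorem comp_big {P : Finset (List Bool)} {z : Cell} (h : ∀ a ∈ P, a.length ≤ sz z) :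
    c.Comp P z := by
  refine ⟨fun ν => if ν.1 = z then 1 else 0, fun ν hν => ?_, fun _ _ => if_pos rfl,
    fun a ha => sum_eq_zero fun ν hν => if_neg fun e => ?_⟩
  · have : ν.1 = z := by
      by_contra e
      exact hν (if_neg e)
    exact ⟨by rw [this], fun _ => this⟩
  · have := Sch.S_lt hν
    have := h a ha
    rw [e] at *
    omega

theorem inv_P (h : c.Inv γ) {Q : Finset Sd} {T : Finset (List Bool)}
    (hT : ∀ a ∈ T, a.length ≤ c.M) : c.le γ { γ with Q := Q, P := γ.P ∪ T } ∧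
      c.Inv { γ with Q := Q, P := γ.P ∪ T } := by
  have h1 : c.le γ { γ with Q := Q, P := γ.P ∪ T } :=
    ⟨subset_union_left, subset_rfl, fun _ _ => rfl, fun _ _ => rfl⟩
  exact ⟨h1, h.af, fun z hz h2 => good_mono (h.good z hz h2) h1, h.sub.trans subset_union_left,
    fun a ha => (mem_union.1 ha).elim (h.len a) (hT a), h.old, h.bk⟩

end Seed

open Seed

theorem pStep : PStep := by
  intro c γ q hM hK hγ hq hx hs
  have key : ∀ (R : Finset (List Bool)) (ω ω' : Var → F2),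
      c.Ag { γ with R := γ.R ∪ R, ω := ω } ω' → ∀ a ∈ R, c.O γ.κ ω a = c.O γ.κ ω' a :=
    fun R ω ω' h a ha => c.O_congr rfl (h a (mem_union_right _ ha)).symm
  have inv : ∀ (R : Finset (List Bool)) (ω : Var → F2), R ⊆ rds q → c.Ag γ ω → c.AF ω →
      c.le γ { γ with R := γ.R ∪ R, ω := ω } ∧ c.Inv { γ with R := γ.R ∪ R, ω := ω } :=
    fun R ω h1 h2 h3 => by
      have h4 : c.le γ { γ with R := γ.R ∪ R, ω := ω } :=
        ⟨subset_rfl, subset_union_left, fun _ _ => rfl, h2⟩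
      exact ⟨h4, h3, fun z hz h5 => good_mono (hγ.good z hz h5) h4,
        union_subset hγ.sub (h1.trans hq), hγ.len, hγ.old, hγ.bk⟩
  have hc : ∀ R : Finset (List Bool), R.card ≤ c.M ^ (c.K + 2) →
      (γ.R ∪ R).card ≤ γ.R.card + c.M ^ (c.K + 2) := fun R hR =>
    (card_union_le _ _).trans (Nat.add_le_add_left hR _)
  rcases hs with hs | hs
  · obtain ⟨a1, a2⟩ := inv (rds q) γ.ω subset_rfl (fun _ _ => rfl) hγ.af
    refine ⟨_, γ.ω, decide (src (c.O γ.κ γ.ω) q), a1, a2,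
      hc _ ((card_reads _ _ _ hM hx).trans (Nat.pow_le_pow_right (by omega) ?_)),
      Or.inl ⟨hq, fun ω hω => ?_⟩⟩
    · unfold par at hs
      omega
    · rw [decide_eq_true_eq]
      exact (wcs_loc (key _ _ _ hω)).symm
  by_cases h1 : ∃ ω, c.Ag γ ω ∧ c.AF ω ∧ src (c.O γ.κ ω) q
  · obtain ⟨ω, h1, h2, h3⟩ := h1
    obtain ⟨R, h0, h4, h5⟩ := wcs_wit h3
    obtain ⟨a1, a2⟩ := inv R ω h0 h1 h2
    refine ⟨_, ω, true, a1, a2, hc _ (h4.trans ?_),
      Or.inl ⟨hq, fun ω' hω => iff_of_true (h5 _ (key _ _ _ hω)) rfl⟩⟩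
    have h6 := hs.2.1
    unfold par at h6
    calc _ ≤ c.M * c.M := Nat.mul_le_mul (by omega) hx
      _ ≤ _ := by rw [← sq]; exact Nat.pow_le_pow_right (by omega) (by omega)
  · exact ⟨γ.R, γ.ω, false, ⟨subset_rfl, subset_rfl, fun _ _ => rfl, fun _ _ => rfl⟩, hγ, by omega,
      Or.inr ⟨rfl, hq, hs, fun ω h2 h3 h4 => h1 ⟨ω, h2, h3, h4⟩⟩⟩

namespace Seed

variable {c : Cx} {γ : St}

theorem flip (hγ : c.Inv γ) {z : Cell} (h1 : c.n ≤ sz z) (h2 : ¬ c.U z) (h3 : z ∉ γ.Z)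
    (h4 : c.Comp γ.P z) {v : Bool} (h5 : z.1 + 1 ∈ c.S → c.Good γ (up z) v) :
    ∃ κ b, c.le γ { γ with Z := insert z γ.Z, b := b, κ := κ } ∧
      c.Inv { γ with Z := insert z γ.Z, b := b, κ := κ } := by
  obtain ⟨u, u1, u2, u3⟩ := h4
  have u4 : ∀ ν, ν.2.1 = ptr c.π ν.1 → ν.1 ≠ z → u ν = 0 := fun ν a b => by
    by_contra e
    exact b ((u1 ν e).2 a)
  have a1 : c.le γ { γ with
      Z := insert z γ.Z, b := Function.update γ.b z v
      κ := fun ν => γ.κ ν + if v = true then u ν else 0 } := by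
    refine ⟨subset_rfl, subset_rfl, fun a ha => ?_, fun _ _ => rfl⟩
    have : ∑ ν ∈ c.e.S a, (if v = true then u ν else 0) = 0 := by
      split_ifs
      exacts [u3 a ha, sum_const_zero]
    refine Eq.trans ?_ ((congrArg (c.lN a γ.κ + ·) this).trans (add_zero _))
    rw [Cx.lN, Cx.lN, ← sum_add_distrib]
    refine sum_congr rfl fun ν _ => ?_
    unfold Cx.wld
    by_cases e : c.isU ν
    · simp [e, u4 ν e.2.2 fun e' => h2 (e' ▸ e.2.1)]
    · simp only [e, if_false]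
  refine ⟨_, _, a1, hγ.af, fun y hy a => ?_, hγ.sub, hγ.len, fun ν a => ?_, fun y a b X w => ?_⟩
  · rcases mem_insert.1 hy with rfl | hy
    · simpa using good_mono (h5 a) a1
    · have := good_mono (hγ.good y hy a) a1
      rwa [← Function.update_of_ne (ne_of_mem_of_not_mem hy h3) v γ.b] at this
  · have : u ν = 0 := by
      by_contra e
      have := (u1 ν e).1
      omega
    simp [this, hγ.old ν a]
  · have := hγ.bk y a b X w
    by_cases e : y = z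
    · subst e
      simp [this, h3, u2]
    · simp [this, e, u4 (y, ptr c.π y, X, w) rfl e]

theorem close (hM : 2 ≤ c.M) (hK : c.K' ≤ c.M) (ht : c.t ∉ c.S) {i : ℕ} (hγ : c.Ok i γ)
    (T : Finset Cell) : (∀ z ∈ T, c.n ≤ sz z ∧ sz z ≤ c.M ∧ ¬ c.U z ∧ z ∉ γ.Z) →
    ∃ γ', c.le γ γ' ∧ c.Inv γ' ∧ γ'.Z = γ.Z ∪ T ∧
      (∀ a ∈ γ'.P, a ∈ γ.P ∨ ∃ z ∈ T, c.sd z.2 ∧ a ∈ rd z.2) ∧
      γ'.R.card ≤ γ.R.card + T.card * c.M ^ (c.K + 2) := by
  induction T using Finset.induction_on_max_value (fun z : Cell => sz z) with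
  | empty =>
    exact fun _ => ⟨γ, ⟨subset_rfl, subset_rfl, fun _ _ => rfl, fun _ _ => rfl⟩, hγ.inv, by simp,
      fun _ => Or.inl, by simp⟩
  | insert z T hz hmax ih =>
    intro hT
    obtain ⟨γ₁, a1, a2, a3, a4, a5⟩ := ih fun y hy => hT y (mem_insert_of_mem hy)
    obtain ⟨z1, z2, z3, z4⟩ := hT z (mem_insert_self _ _)
    have z5 : z.2.2.2.length ≤ c.M := by have := cell_len z; omega
    obtain ⟨γ₂, v, b1, b2, b3, b4, b5, b6⟩ : ∃ γ₂ v, c.le γ₁ γ₂ ∧ c.Inv γ₂ ∧ γ₂.Z = γ₁.Z ∧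
        (∀ a ∈ γ₂.P, a ∈ γ₁.P ∨ (c.sd z.2 ∧ a ∈ rd z.2)) ∧
        γ₂.R.card ≤ γ₁.R.card + c.M ^ (c.K + 2) ∧ (z.1 + 1 ∈ c.S → c.Good γ₂ (up z) v) := by
      by_cases h3 : z.1 + 1 ∈ c.S
      · have h4 := not_or.1 fun h => z3 ⟨Or.inr h3, h⟩
        obtain ⟨d1, d2⟩ := inv_P a2 (Q := γ₁.Q) (T := rd z.2) fun a ha => (rd_len ha).trans z5
        obtain ⟨R, ω, v, e1, e2, e3, e4⟩ := pStep c _ (up z) hM hK d2
          ((rds_sub _).trans subset_union_right) z5 (by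
            by_cases h6 : par z ≤ c.K
            · exact Or.inl h6
            · have h7 : ¬ c.t ≤ dp c.S z := fun h => h4.2 ⟨h, by omega⟩
              rw [dp, if_pos h3] at h7
              have h8 : z.1 + 1 ≠ c.t := fun h => ht (h ▸ h3)
              exact Or.inr ⟨show z.1 + 2 ≤ _ by omega, not_lt.1 h4.1, z5⟩)
        exact ⟨_, v, le_trans' d1 e1, e2, rfl, fun a ha => (mem_union.1 ha).imp_right
          fun b => ⟨⟨not_lt.1 h4.1, z5⟩, b⟩, e3, fun _ => e4⟩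
      · exact ⟨γ₁, false, ⟨subset_rfl, subset_rfl, fun _ _ => rfl, fun _ _ => rfl⟩, a2, rfl,
          fun _ => Or.inl, by omega, fun h => absurd h h3⟩
    have b7 : ∀ a ∈ γ₂.P, a ∈ γ.P ∨ ∃ y ∈ insert z T, c.sd y.2 ∧ a ∈ rd y.2 := fun a ha => by
      rcases b4 a ha with h | h
      · exact (a4 a h).imp_right fun ⟨y, y1, y2⟩ => ⟨y, mem_insert_of_mem y1, y2⟩
      · exact Or.inr ⟨z, mem_insert_self _ _, h⟩
    obtain ⟨κ, b, d1, d2⟩ := flip b2 z1 z3 (by rw [b3, a3]; simp [z4, hz]) (by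
      obtain ⟨u, u1, u2, u3⟩ := hγ.comp z z1 z3 z4
      refine ⟨u, u1, u2, fun a ha => (b7 a ha).elim (u3 a) fun ⟨y, y1, _, y2⟩ =>
        sum_eq_zero fun ν hν => ?_⟩
      by_contra e
      have e1 := (u1 ν e).1
      have e2 := Sch.S_lt hν
      have e3 := rd_len y2
      have e4 := cell_len y
      rcases mem_insert.1 y1 with rfl | y1
      · omega
      · have := hmax y y1
        omega) b6
    refine ⟨_, le_trans' a1 (le_trans' b1 d1), d2, ?_, b7, ?_⟩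
    · show insert z γ₂.Z = _
      rw [b3, a3, union_insert]
    · show γ₂.R.card ≤ _
      rw [card_insert_of_notMem hz, Nat.succ_mul]
      omega

end Seed

theorem pSeed : PSeed := by
  intro c i γ q hM hK ht hP hi hγ hq
  have q1 : (insert q γ.Q).card ≤ i + 1 := (card_insert_le _ _).trans (Nat.succ_le_succ hγ.cq)
  obtain ⟨Y₀, -, y0⟩ := hP (insert q γ.Q) (by omega)
  obtain ⟨Y, y1, y2⟩ : ∃ Y, c.Cl (insert q γ.Q) Y ∧ ∀ Y', c.Cl (insert q γ.Q) Y' → Y ⊆ Y' := by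
    have : ∀ Y', c.Cl (insert q γ.Q) Y' →
        Y₀.filter (fun z => ∀ Y', c.Cl (insert q γ.Q) Y' → z ∈ Y') ⊆ Y' :=
      fun Y' h z hz => (mem_filter.1 hz).2 Y' h
    refine ⟨_, fun z z1 z2 => ?_, this⟩
    obtain ⟨Y', a, b⟩ : ∃ Y', c.Cl (insert q γ.Q) Y' ∧ z ∉ Y' := by
      by_contra h
      push Not at h
      exact z2 (mem_filter.2 ⟨h _ y0, h⟩)
    exact comp_anti (a z z1 b) (fam_mono subset_rfl (this Y' a))
  obtain ⟨γ₁, a1, a2, a3, a4, a5⟩ := close hM hK ht hγ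
    (Y.filter fun z => c.n ≤ sz z ∧ sz z ≤ c.M ∧ ¬ c.U z ∧ z ∉ γ.Z) fun z hz => (mem_filter.1 hz).2
  obtain ⟨b1, b2⟩ := inv_P a2 (Q := insert q γ.Q) (T := rd q) fun a ha => (rd_len ha).trans hq.2
  have b3 : ∀ Y', c.Cl (insert q γ.Q) Y' → γ₁.Z ⊆ Y' ∧ γ₁.P ∪ rd q ⊆ c.fam (insert q γ.Q) Y' :=
    fun Y' h => by
      obtain ⟨d1, d2⟩ := hγ.least Y' fun z z1 z2 =>
        comp_anti (h z z1 z2) (fam_mono (subset_insert _ _) subset_rfl)
      refine ⟨a3 ▸ union_subset d1 ((filter_subset _ _).trans (y2 Y' h)), union_subset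
        (fun a ha => (a4 a ha).elim (fun e => fam_mono (subset_insert _ _) subset_rfl (d2 e))
          fun ⟨z, z1, z2, z3⟩ => mem_biUnion.2 ⟨z.2, mem_filter.2 ⟨mem_union_right _
            (mem_image_of_mem _ (y2 Y' h (mem_filter.1 z1).1)), z2⟩, z3⟩)
        (subset_biUnion_of_mem rd (mem_filter.2 ⟨mem_union_left _ (mem_insert_self _ _), hq⟩))⟩
  have b4 : γ₁.R.card ≤ (γ₁.Z.card + i) * c.M ^ (c.K + 2) := by
    have := hγ.cr
    rw [a3, card_union_of_disjoint (disjoint_left.2 fun z a b => (mem_filter.1 b).2.2.2.2 a)]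
    rw [add_mul] at this
    rw [add_mul, add_mul]
    omega
  refine ⟨_, le_trans' a1 b1, subset_union_right, ⟨b2, q1, b3, fun z z1 z2 z3 => ?_,
    b4.trans (Nat.mul_le_mul_right _ (Nat.add_le_add_left i.le_succ _))⟩, b4⟩
  by_cases h : z ∈ Y
  · refine comp_big fun a ha => (b2.len a ha).trans (not_lt.1 fun e => z3 ?_)
    show z ∈ γ₁.Z
    rw [a3]
    by_cases e' : z ∈ γ.Z
    exacts [mem_union_left _ e', mem_union_right _ (mem_filter.2 ⟨h, z1, e.le, z2, e'⟩)]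
  · exact comp_anti (y1 z z1 h) (b3 Y y1).2

end Pool.Agent.P.MP_d3fb3e_lc.AF
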