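import Pool.Agent.P.MP_d3fb3e_lc.AF.Defs

/-! Shifting the masks hides the invisible cells. -/

namespace Pool.Agent.P.MP_d3fb3e_lc.AF

open Finset Classical
open Pool.Agent.P.MP_d1c5a4_lc (pr pr_mono pr_bij)

namespace Shift

variable {Z J : Type} {N : ℕ}

/-- The difference vector on the special rows of the cells of size `k` outside `Y`. -/
noncomputable def U (sz : Z → ℕ) (r : Z → Fin N) (u0 u1 : Z → J → F2) (Y : Finset Z) (k : ℕ)
    (b : Z → Prop) : Z × Fin N × J → F2 := fun ν =>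
  if ν.2.1 = r ν.1 ∧ ν.1 ∉ Y ∧ sz ν.1 = k ∧ b ν.1 then u1 ν.1 ν.2.2 + u0 ν.1 ν.2.2 else 0

theorem U_congr (sz : Z → ℕ) (r : Z → Fin N) (u0 u1 : Z → J → F2) (Y : Finset Z) (k : ℕ)
    {b b' : Z → Prop} (h : ∀ z, sz z = k → (b z ↔ b' z)) :
    U sz r u0 u1 Y k b = U sz r u0 u1 Y k b' := by
  funext ν
  unfold U
  refine if_congr ?_ rfl rfl
  exact and_congr_right fun _ => and_congr_right fun _ => and_congr_right fun e => h _ e

/-- A choice of masking vectors. -/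
theorem exists_ch {sz : Z → ℕ} {M : ℕ} {r : Z → Fin N} {Λ : Finset (Finset (Z × Fin N × J))}
    {Y : Finset Z} (h : Msk (fun ν => some (ν.1, ν.2.1)) (fun ν => sz ν.1) Λ M r Y) :
    ∃ ch : ℕ → (Z × Fin N × J → F2) → Z × Fin N × J → F2,
      (∀ k u ν, ch k u ν ≠ 0 → sz ν.1 = k ∧ ν.2.1 ≠ r ν.1) ∧
      ∀ k < M, ∀ u : Z × Fin N × J → F2, (∀ ν, u ν ≠ 0 → sz ν.1 = k ∧ ν.1 ∉ Y) →
        ∀ s ∈ Λ, ∑ ν ∈ s, ch k u ν = ∑ ν ∈ s, u ν := by
  have key : ∀ (k : ℕ) (u : Z × Fin N × J → F2), ∃ c : Z × Fin N × J → F2,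
      (∀ ν, c ν ≠ 0 → sz ν.1 = k ∧ ν.2.1 ≠ r ν.1) ∧
      (k < M → (∀ ν, u ν ≠ 0 → sz ν.1 = k ∧ ν.1 ∉ Y) →
        ∀ s ∈ Λ, ∑ ν ∈ s, c ν = ∑ ν ∈ s, u ν) := by
    intro k u
    by_cases hk : k < M ∧ ∀ ν, u ν ≠ 0 → sz ν.1 = k ∧ ν.1 ∉ Y
    · obtain ⟨c, h1, h2⟩ := h k hk.1 u fun ν hν => ⟨(hk.2 ν hν).1, fun z hz e => by
        have e' : ν.1 = z := congrArg Prod.fst (Option.some.inj e)
        exact (hk.2 ν hν).2 (e' ▸ hz)⟩
      refine ⟨c, fun ν hν => ⟨(h1 ν hν).1, fun e => (h1 ν hν).2 ν.1 ?_⟩, fun _ _ => h2⟩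
      show some (ν.1, ν.2.1) = some (ν.1, r ν.1)
      rw [e]
    · exact ⟨0, fun ν hν => absurd rfl hν, fun a b => absurd ⟨a, b⟩ hk⟩
  choose ch h1 h2 using key
  exact ⟨ch, h1, fun k hk u hu => h2 k u hk hu⟩

end Shift

open Shift in
theorem pShift : PShift := by
  intro Z J _ _ _ _ sz M N r Λ T β u0 u1 Y re hM hT hβ hK hre
  obtain ⟨ch, h1, h2⟩ := exists_ch hK
  have hsum : ∀ (f : ℕ → Z × Fin N × J → F2), (∀ k ν, f k ν ≠ 0 → sz ν.1 = k) →
      ∀ ν, ∑ k ∈ range M, f k ν = f (sz ν.1) ν := by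
    intro f hf ν
    refine sum_eq_single _ (fun k _ hk => ?_) fun h => absurd (mem_range.2 (hM _)) h
    by_contra e
    exact hk (hf k ν e).symm
  have hU : ∀ k b ν, U sz r u0 u1 Y k b ν ≠ 0 → sz ν.1 = k ∧ ν.1 ∉ Y := by
    intro k b ν h
    unfold U at h
    split_ifs at h with h'
    · exact ⟨h'.2.2.1, h'.2.1⟩
    · exact absurd rfl h
  let φ : (Z × Fin N × J → F2) → Z × Fin N × J → F2 := fun μ ν =>
    μ ν + ch (sz ν.1) (U sz r u0 u1 Y (sz ν.1) (β (re μ))) ν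
  have hinj : Function.Injective φ := by
    intro μ μ' e
    have P : ∀ s ν, sz ν.1 < s → μ ν = μ' ν ∧ re μ ν = re μ' ν := by
      intro s
      induction s with
      | zero => exact fun ν h => absurd h (Nat.not_lt_zero _)
      | succ s ih =>
        intro ν hν
        rcases Nat.lt_succ_iff_lt_or_eq.1 hν with h | h
        · exact ih ν h
        · have hb : ∀ z, sz z = sz ν.1 → (β (re μ) z ↔ β (re μ') z) := fun z hz =>
            hβ _ _ z fun ν' h' => (ih ν' (by omega)).2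
          have e1 : μ ν = μ' ν := by
            have := congrFun e ν
            simp only [φ] at this
            rw [U_congr sz r u0 u1 Y _ hb] at this
            exact add_right_cancel this
          refine ⟨e1, ?_⟩
          rw [congrFun (hre μ) ν, congrFun (hre μ') ν]
          simp only [put]
          rw [e1, if_congr (hb ν.1 rfl) rfl rfl]
    exact funext fun ν => (P _ ν (Nat.lt_succ_self _)).1
  refine le_trans ?_ (pr_bij (Finite.injective_iff_bijective.1 hinj) _).le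
  refine pr_mono fun μ hμ => ⟨Y.filter (β (re μ)), mem_powerset.2 (filter_subset _ _), ?_⟩
  refine (hT _ _ fun s hs => ?_).1 hμ
  have hp : ∀ ν, re μ ν =
      put r (φ μ) (fun z => if z ∈ Y.filter (β (re μ)) then u1 z else u0 z) ν +
        (∑ k ∈ range M, ch k (U sz r u0 u1 Y k (β (re μ))) ν +
          ∑ k ∈ range M, U sz r u0 u1 Y k (β (re μ)) ν) := by
    intro ν
    rw [hsum (fun k => ch k (U sz r u0 u1 Y k (β (re μ)))) (fun k ν h => (h1 k _ ν h).1),
      hsum (fun k => U sz r u0 u1 Y k (β (re μ))) (fun k ν h => (hU k _ ν h).1),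
      congrFun (hre μ) ν]
    by_cases hr : ν.2.1 = r ν.1
    · have h0 : ch (sz ν.1) (U sz r u0 u1 Y (sz ν.1) (β (re μ))) ν = 0 := by
        by_contra h
        exact (h1 _ _ ν h).2 hr
      rw [h0]
      by_cases hy : ν.1 ∈ Y <;> by_cases hb : β (re μ) ν.1 <;> simp [put, U, hr, hy, hb]
      have := F2.add_self (u0 ν.1 ν.2.2)
      linear_combination -this
    · have := F2.add_self (ch (sz ν.1) (U sz r u0 u1 Y (sz ν.1) (β (re μ))) ν)
      have h0 : U sz r u0 u1 Y (sz ν.1) (β (re μ)) ν = 0 := by simp [U, hr]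
      rw [h0]
      simp only [put, if_neg hr, φ]
      linear_combination -this
  rw [sum_congr rfl fun ν _ => hp ν, sum_add_distrib, sum_add_distrib, sum_comm,
    sum_comm (s := s),
    sum_congr rfl fun k hk => h2 k (mem_range.1 hk) _ (hU k _) s hs, F2.add_self, add_zero]

end Pool.Agent.P.MP_d3fb3e_lc.AF
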