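import Pool.Agent.P.MP_d3fb3e_lc.AF.Defs
import Pool.Agent.P.MP_d3fb3e_lc.Proj

/-! The read-once NOR tree and its projection to the standard tree. -/

namespace Pool.Agent.P.MP_d3fb3e_lc.AF

open Finset Classical
open Pool.Agent.P.MP_d1c5a4_lc (pr pr_congr pr_not pr_bij pr_pi)

namespace TreeAux

theorem dv {m w i : ℕ} (hi : i < m) : (w * m + i) / m = w := by
  rw [Nat.add_comm, Nat.add_mul_div_right _ _ (by omega), Nat.div_eq_of_lt hi, Nat.zero_add]

/-- A subtree only reads its own leaves. -/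
theorem Tm_loc {m : ℕ} {κ κ' : ℕ → Bool} (d : ℕ) : ∀ (c : Bool) (w : ℕ),
    (∀ v, v / m ^ d = w → κ v = κ' v) → (Tm m κ d c w ↔ Tm m κ' d c w) := by
  induction d with
  | zero =>
    intro c w h
    simp only [Tm]
    rw [h w (by simp)]
  | succ d ih =>
    intro c w h
    have h1 : ∀ c, ∀ i < m, Tm m κ d c (w * m + i) ↔ Tm m κ' d c (w * m + i) :=
      fun c i hi => ih c _ fun v hv => h v (by
        rw [pow_succ, ← Nat.div_div_eq_div_mul, hv, dv hi])
    cases c
    · exact ⟨fun ⟨i, hi, a⟩ => ⟨i, hi, (h1 _ i hi).1 a⟩,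
        fun ⟨i, hi, a⟩ => ⟨i, hi, (h1 _ i hi).2 a⟩⟩
    · exact ⟨fun a i hi => (h1 _ i hi).1 (a i hi), fun a i hi => (h1 _ i hi).2 (a i hi)⟩

/-- Independent copies. -/
theorem pr_all {J Ξ : Type} [Fintype J] [DecidableEq J] [Fintype Ξ] (n : ℕ)
    (E : (J → Ξ) → Prop) :
    pr (fun ξ : Fin n × J → Ξ => ∀ i, E fun x => ξ (i, x)) = pr E ^ n := by
  have h := pr_bij (Equiv.curry (Fin n) J Ξ).bijective fun f => ∀ i, E (f i)
  rw [pr_pi fun _ : Fin n => E, prod_const, card_univ, Fintype.card_fin] at h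
  exact h

theorem key (m0 : ℕ) (F : ℕ → ℕ) (hF : ∀ j, 1 ≤ F j ∧ F j ≤ m0) (j : ℕ) :
    ∃ (J : Type) (_ : Fintype J) (_ : DecidableEq J) (G : Bool → (J → F2) → Prop),
      (∀ (Ξ : Type) [Fintype Ξ] [Nonempty Ξ] (φ : Ξ → F2),
        pr (fun ξ : J → Ξ => G true fun x => φ (ξ x)) =
          nor F (if Even j then pr (fun x => φ x = 1) else 1 - pr fun x => φ x = 1) j ∧
        pr (fun ξ : J → Ξ => G false fun x => φ (ξ x)) =
          1 - nor F (if Even j then 1 - pr (fun x => φ x = 1) else pr fun x => φ x = 1) j) ∧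
      ∀ m, m0 ≤ m → ∃ π : ℕ → J, ∀ (y : J → F2) (c : Bool) (w : ℕ),
        Tm m (fun v => decide (y (π v) = 1)) j c w ↔ G c y := by
  induction j with
  | zero =>
    refine ⟨Unit, inferInstance, inferInstance, fun _ y => y () = 1, fun Ξ _ _ φ => ?_,
      fun m _ => ⟨fun _ => (), fun y c w => by simp [Tm]⟩⟩
    have h : pr (fun ξ : Unit → Ξ => φ (ξ ()) = 1) = pr fun x => φ x = 1 :=
      pr_bij (Equiv.funUnique Unit Ξ).bijective fun x => φ x = 1
    simp only [Even.zero, if_true, nor, h, sub_sub_cancel, and_self]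
  | succ j ih =>
    obtain ⟨J, _, _, G, h1, h2⟩ := ih
    refine ⟨Fin (F j) × J, inferInstance, inferInstance, fun c y =>
      if c = true then ∀ i, G false fun x => y (i, x) else ∃ i, G true fun x => y (i, x),
      fun Ξ _ _ φ => ⟨?_, ?_⟩, fun m hm => ?_⟩
    · simp only [if_true]
      rw [pr_all (F j) fun ξ : J → Ξ => G false fun x => φ (ξ x), (h1 Ξ φ).2, nor]
      by_cases h : Even j <;> simp [h, Nat.even_add_one]
    · simp only [Bool.false_eq_true, if_false]
      rw [pr_congr (F := fun ξ : Fin (F j) × J → Ξ => ¬ ∀ i, ¬ G true fun x => φ (ξ (i, x)))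
        fun ξ => by simp, pr_not, pr_all (F j) fun ξ : J → Ξ => ¬ G true fun x => φ (ξ x),
        pr_not, (h1 Ξ φ).1, nor]
      by_cases h : Even j <;> simp [h, Nat.even_add_one]
    · obtain ⟨π, hπ⟩ := h2 m hm
      have : Nonempty (Fin (F j)) := ⟨⟨0, (hF j).1⟩⟩
      obtain ⟨σ, hσ⟩ := surj_lt (Fin (F j)) (m := m) (by simpa using (hF j).2.trans hm)
      refine ⟨fun v => (σ (v / m ^ j % m), π v), fun y c w => ?_⟩
      have h3 : ∀ c, ∀ i < m, Tm m (fun v => decide (y (σ (v / m ^ j % m), π v) = 1)) j c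
          (w * m + i) ↔ G c fun x => y (σ i, x) := fun c i hi =>
        (Tm_loc j c _ fun v hv => by rw [hv, Nat.mul_add_mod_of_lt hi]).trans
          (hπ (fun x => y (σ i, x)) c _)
      cases c
      · simp only [Bool.false_eq_true, if_false, Tm]
        refine ⟨fun ⟨i, hi, a⟩ => ⟨σ i, (h3 _ i hi).1 a⟩, fun ⟨b, a⟩ => ?_⟩
        obtain ⟨i, hi, rfl⟩ := hσ b
        exact ⟨i, hi, (h3 _ i hi).2 a⟩
      · simp only [if_true, Tm]
        refine ⟨fun a b => ?_, fun a i hi => (h3 _ i hi).2 (a _)⟩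
        obtain ⟨i, hi, rfl⟩ := hσ b
        exact (h3 _ i hi).1 (a i hi)

end TreeAux

open TreeAux in
theorem pTree : PTree := by
  intro t m0 F hF
  obtain ⟨J, _, _, G, h1, h2⟩ := key m0 F hF t
  refine ⟨Fin (F t) × J, inferInstance, inferInstance, fun y => ∀ i, G false fun x => y (i, x),
    fun Ξ _ _ φ => ?_, fun m d hm hd => ?_⟩
  · rw [pr_all (F t) fun ξ : J → Ξ => G false fun x => φ (ξ x), (h1 Ξ φ).2, nor]
  · obtain ⟨π, hπ⟩ := h2 m hm.le
    have : Nonempty (Fin (F t)) := ⟨⟨0, (hF t).1⟩⟩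
    obtain ⟨σ, hσ⟩ := surj_lt (Fin (F t)) (m := m - 1) (by
      have := (hF t).2
      rw [Fintype.card_fin]
      omega)
    obtain ⟨e, rfl⟩ : ∃ e, d = e + (t + 1) := ⟨d - (t + 1), by omega⟩
    have hm1 : 1 ≤ m := by omega
    let ρ : ℕ → Option (Fin (F t) × J) := fun u =>
      if u / m ^ t = 0 then none else some (σ (u / m ^ t - 1), π u)
    refine ⟨fun v => ρ (v / m ^ e), fun g y => ?_⟩
    refine (Tm_pad hm1 e (t + 1) (fun u => decide ((ρ u).elim g y = 1)) true 0).trans ?_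
    have h0 : Tm m (fun u => decide ((ρ u).elim g y = 1)) t false 0 ↔ g = 1 := by
      refine (Tm_loc (κ' := fun _ => decide (g = 1)) t false _ fun v hv => ?_).trans ?_
      · simp only [ρ, hv, if_true, Option.elim]
      · rw [Tm_const hm1, decide_eq_true_iff]
    have h3 : ∀ i, Tm m (fun u => decide ((ρ u).elim g y = 1)) t false (i + 1) ↔
        G false fun x => y (σ i, x) := fun i =>
      (Tm_loc (κ' := fun v => decide (y (σ i, π v) = 1)) t false _ fun v hv => by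
        simp only [ρ, hv, Nat.add_one_ne_zero, if_false, Option.elim, Nat.add_sub_cancel]).trans
        (hπ (fun x => y (σ i, x)) false _)
    simp only [Tm, Nat.zero_mul, Nat.zero_add]
    refine ⟨fun a => ⟨h0.1 (a 0 hm1), fun b => ?_⟩, fun a i hi => ?_⟩
    · obtain ⟨i, hi, rfl⟩ := hσ b
      exact (h3 i).1 (a _ (by omega))
    · cases i with
      | zero => exact h0.2 a.1
      | succ i => exact (h3 i).2 (a.2 _)

open TreeAux in
theorem pTmOne : PTmOne := by
  intro m d v0 κ hm hd hκ hT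
  obtain ⟨d, rfl⟩ : ∃ e, d = e + 1 := ⟨d - 1, by omega⟩
  simp only [Tm, Nat.zero_mul, Nat.zero_add] at hT
  obtain ⟨i, hi, hne⟩ : ∃ i < m, v0 / m ^ d ≠ i := by
    by_cases h : v0 / m ^ d = 0
    · exact ⟨1, by omega, by omega⟩
    · exact ⟨0, by omega, h⟩
  have h1 := (Tm_loc (κ' := fun _ => false) d false i fun v hv =>
    hκ v fun e => hne (e ▸ hv)).1 (hT i hi)
  rw [Tm_const (by omega)] at h1
  exact absurd h1 (by simp)

end Pool.Agent.P.MP_d3fb3e_lc.AF
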