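import Pool.Agent.P.MP_d3fb3e_lc.AF.StageA
import Pool.Agent.P.MP_d3fb3e_lc.AF.Mle
import Pool.Agent.P.MP_d3fb3e_lc.AF.Raz1
import Pool.Agent.P.MP_d3fb3e_lc.AF.Raz2
import Pool.Agent.P.MP_d3fb3e_lc.AF.Interp
import Pool.Agent.P.MP_d3fb3e_lc.AF.Rank
import Pool.Agent.P.MP_d3fb3e_lc.AF.NW
import Pool.Agent.P.MP_d3fb3e_lc.AF.BiasA
import Pool.Agent.P.MP_d3fb3e_lc.AF.Coin
import Pool.Agent.P.MP_d3fb3e_lc.AF.Tree
import Pool.Agent.P.MP_d3fb3e_lc.AF.Gad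
import Pool.Agent.P.MP_d3fb3e_lc.AF.Info
import Pool.Agent.P.MP_d3fb3e_lc.AF.Cmp
import Pool.Agent.P.MP_d3fb3e_lc.AF.Chain
import Pool.Agent.P.MP_d3fb3e_lc.AF.Hyb
import Pool.Agent.P.MP_d3fb3e_lc.AF.Shift
import Pool.Agent.P.MP_d3fb3e_lc.AF.Box
import Pool.Agent.P.MP_d3fb3e_lc.AF.Sch
import Pool.Agent.P.MP_d3fb3e_lc.AF.DecA
import Pool.Agent.P.MP_d3fb3e_lc.AF.HideA
import Pool.Agent.P.MP_d3fb3e_lc.AF.Seed
import Pool.Agent.P.MP_d3fb3e_lc.AF.Sw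
import Pool.Agent.P.MP_d3fb3e_lc.AF.Mid
import Pool.Agent.P.MP_d3fb3e_lc.AF.Final
import Pool.Agent.P.MP_d3fb3e_lc.AF.Num

/-! Affine oracles: all collapse patterns of the W-hierarchy. -/

namespace Pool.Agent.P.MP_d3fb3e_lc.AF

theorem gad : PGad := pGad (pBiasA (pNW pInterp pRank)) pCoin pTree

theorem vis : PVis := pVis pInfo pChain

theorem patterns (X : (List Bool → Bool) → List Bool → Bool)
    (add : ∀ A B q, X (fun w => xor (A w) (B w)) q = xor (X A q) (X B q))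
    (loc : ∀ A B q, (∀ w : List Bool, w.length ≤ q.length → A w = B w) → X A q = X B q)
    (emb : ∀ A w, X A (false :: w) = A w) (S : Set ℕ) :
    ∃ A : List Bool → Bool, ∀ t, 1 ≤ t → (W (X A) t = W (X A) (t + 1) ↔ t ∈ S) := by
  obtain ⟨e, he⟩ := pSch X add loc emb
  simp only [he]
  exact oracleA gad pNum (pHide vis) pSeed pStep (pFinal (pSw pZero) pFix (pMid pCmp pTmOne)
    (pBox vis pHyb pShift) (pRaz2 pRaz1)) pDec e S

/-- The instance: `A` joined with the bits of its multilinear extensions in characteristic two. -/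
theorem aff_patterns {F : List Bool → Type} [∀ q, CommRing (F q)] [∀ q, CharP (F q) 2]
    (pt : ∀ q, List (F q)) (fn : ∀ q, F q →+ ZMod 2) (h : ∀ q, (pt q).length ≤ q.length + 1)
    (S : Set ℕ) : ∃ A : List Bool → Bool,
      ∀ t, 1 ≤ t → (W (aff pt fn A) t = W (aff pt fn A) (t + 1) ↔ t ∈ S) :=
  patterns (aff pt fn) (aff_xor pt fn) (aff_loc pt fn h) (fun _ _ => rfl) S

end Pool.Agent.P.MP_d3fb3e_lc.AF
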