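import Pool.Agent.P.MP_d3fb3e_lc.AF.Cell

/-! Affine oracles: one stage of the construction, and the oracle. -/

namespace Pool.Agent.P.MP_d3fb3e_lc.AF

open Finset Classical Filter
open Pool.Agent.Lib.helper21 (sz)

/-- The data of a cell: pointer bits and the contents of all locations. -/
abbrev Dt : Type := (ℕ → Bool) × (List Bool × List Bool × ℕ → F2)

/-- The pointers. -/
def pi (σ : Cell → Dt) (z : Cell) : ℕ → Bool := (σ z).1

/-- The contents. -/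
def ka (σ : Cell → Dt) (ν : Var) : F2 := (σ ν.1).2 ν.2

/-- The cell `z` stores the truth value of the instance that it codes. -/
def ValidA (e : Sch) (S : Set ℕ) (σ : Cell → Dt) (z : Cell) : Prop :=
  z.1 + 1 ∈ S → (En (dp S z) z (blk (pi σ) (ka σ) z) ↔ src (e.O (pi σ) (ka σ)) (up z))

theorem O_agr (e : Sch) {σ τ : Cell → Dt} {a : List Bool} (h : Agr sz a.length σ τ) :
    e.O (pi σ) (ka σ) a = e.O (pi τ) (ka τ) a :=
  Sch.O_loc (fun z hz => by rw [pi, pi, h z hz]) fun ν hν => by rw [ka, ka, h _ hν]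

theorem src_agr (e : Sch) {σ τ : Cell → Dt} {z : Cell} (h : Agr sz (sz z) σ τ) :
    src (e.O (pi σ) (ka σ)) (up z) ↔ src (e.O (pi τ) (ka τ)) (up z) :=
  wcs_loc fun _ ha => O_agr e fun y hy => h y (hy.trans ((reads_len ha).trans_lt (cell_len z)))

theorem blk_eq {σ τ : Cell → Dt} {z : Cell} (h : σ z = τ z) :
    blk (pi σ) (ka σ) z = blk (pi τ) (ka τ) z := by
  funext X v
  exact decide_eq_decide.2 (by simp only [ka, ptr, pi, h])

theorem ValidA.loc (e : Sch) (S : Set ℕ) (σ τ : Cell → Dt) (z : Cell)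
    (h : Agr sz (sz z + 1) σ τ) (hz : ValidA e S σ z) : ValidA e S τ z := fun h1 => by
  rw [← blk_eq (h z (by omega)), hz h1, src_agr e fun y hy => h y (by omega)]

theorem Cx.le.trans {c : Cx} {γ γ' γ'' : St} (h : c.le γ γ') (h' : c.le γ' γ'') : c.le γ γ'' :=
  ⟨h.1.trans h'.1, h.2.1.trans h'.2.1, fun a ha => (h'.2.2.1 a (h.1 ha)).trans (h.2.2.1 a ha),
    fun a ha => (h'.2.2.2 a (h.2.1 ha)).trans (h.2.2.2 a ha)⟩

theorem Cx.sem_anti {c : Cx} {γ γ' : St} (h : c.le γ γ') (hs : γ.R ⊆ γ.P) : c.sem γ' ⊆ c.sem γ :=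
  fun _ hA a ha => (hA a (h.2.1 ha)).trans (c.O_congr (h.2.2.1 a (hs ha)) (h.2.2.2 a ha))

theorem Cx.Good.ins {c : Cx} {γ : St} {q : Cell} {v : Bool} (h : c.Good γ q v) (a : List Bool) :
    c.Good { γ with R := insert a γ.R } q v :=
  h.imp (fun ⟨h1, h2⟩ => ⟨h1, fun ω hω => h2 ω fun b hb => hω b (mem_insert_of_mem hb)⟩)
    fun ⟨h1, h2, h3, h4⟩ => ⟨h1, h2, h3, fun ω hω => h4 ω fun b hb => hω b (mem_insert_of_mem hb)⟩

theorem Cx.query (hs : PSeed) {c : Cx} (hM : 2 ≤ c.M) (hK : c.K' ≤ c.M) (ht : c.t ∉ c.S)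
    (hP : c.HP) (i : ℕ) (γ : St) (a : List Bool) (ha : a.length ≤ c.M)
    (hγ : i ≤ c.M → c.Ok i γ) : ∃ γ' v, (i + 1 ≤ c.M → c.Ok (i + 1) γ') ∧ c.sem γ' ⊆ c.sem γ ∧
      ∀ A ∈ c.sem γ', A a = v := by
  by_cases hi : i + 1 ≤ c.M
  swap
  · exact ⟨{ γ with R := insert a γ.R }, c.O γ.κ γ.ω a, fun h => absurd h hi,
      fun A hA b hb => hA b (mem_insert_of_mem hb), fun A hA => hA a (mem_insert_self _ _)⟩
  obtain ⟨γ', h1, h2, h3, h4⟩ := hs c i γ (0, 0, a) hM hK ht hP (by omega) (hγ (by omega))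
    ⟨Nat.zero_le _, ha⟩
  refine ⟨{ γ' with R := insert a γ'.R }, c.O γ'.κ γ'.ω a, fun _ => ⟨⟨h3.inv.af,
    fun z hz h => (h3.inv.good z hz h).ins a, insert_subset (h2 (mem_insert_self _ _)) h3.inv.sub,
    h3.inv.len, h3.inv.old, h3.inv.bk⟩, h3.cq, h3.least, h3.comp, (card_insert_le _ _).trans ?_⟩,
    fun A hA => Cx.sem_anti h1 (hγ (by omega)).inv.sub fun b hb => hA b (mem_insert_of_mem hb),
    fun A hA => hA a (mem_insert_self _ _)⟩
  have : 1 ≤ c.M ^ (c.K + 2) := Nat.one_le_pow _ _ (by omega)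
  show _ ≤ (γ'.Z.card + (i + 1)) * _
  rw [← add_assoc, Nat.succ_mul]
  omega

theorem Cx.final (hs : PSeed) (hs' : PStep) {c : Cx} (hM : 2 ≤ c.M) (hK : c.K' ≤ c.M)
    (ht : c.t ∉ c.S) (hP : c.HP) {i : ℕ} (hi : i ≤ c.M) {γ : St} (hγ : c.Ok i γ) {q : Cell}
    (hq : c.small q) : ∃ γ' v, c.Ok (i + 1) γ' ∧ c.sem γ' ⊆ c.sem γ ∧ c.Good γ' q v := by
  obtain ⟨γ', h1, h2, h3, h4⟩ := hs c i γ q.2 hM hK ht hP hi hγ ⟨hq.2.1, hq.2.2⟩
  obtain ⟨R, ω, v, a1, a2, a3, a4⟩ := hs' c γ' q hM hK h3.inv ((rds_sub q).trans h2) hq.2.2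
    (Or.inr hq)
  refine ⟨_, v, ⟨a2, h3.cq, h3.least, h3.comp, a3.trans ?_⟩,
    Cx.sem_anti (h1.trans a1) hγ.inv.sub, a4⟩
  show _ ≤ (γ'.Z.card + (i + 1)) * _
  rw [← add_assoc, Nat.succ_mul]
  omega

theorem Cx.card_fam (c : Cx) (hM : 2 ≤ c.M) (Q : Finset Sd) (Y : Finset Cell) :
    (c.fam Q Y).card ≤ (Q.card + Y.card) * c.M ^ (c.K' + 2) :=
  (card_biUnion_le_card_mul _ _ _ fun _ hq =>
    card_rd hM (mem_filter.1 hq).2.2 (mem_filter.1 hq).2.1).trans (Nat.mul_le_mul_right _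
      ((card_filter_le _ _).trans ((card_union_le _ _).trans
        (Nat.add_le_add_left card_image_le _))))

theorem Cx.ok_zero (c : Cx) :
    c.Ok 0 ⟨∅, ∅, fun _ => false, ∅, ∅, fun ν => if sz ν.1 < c.n then c.old ν else 0, 0⟩ := by
  refine ⟨⟨fun z X => ?_, by simp, by simp, by simp, fun ν h => if_pos h, fun z h _ X v => ?_⟩,
    by simp, by simp, fun z _ _ _ => ⟨fun ν => if ν.1 = z ∧ ν.2.1 = ptr c.π z then 1 else 0,
      fun ν h => ?_, by simp, by simp⟩, by simp⟩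
  · have : blk c.π 0 z X = fun _ => false := by
      funext v
      simp [blk]
    simp only [this]
    simp [Tm_const (show 1 ≤ sz z by have := cell_len z; omega)]
  · simp [not_lt.2 h]
  · have : ν.1 = z := by
      by_contra h'
      simp [h'] at h
    exact ⟨by rw [this], fun _ => this⟩

theorem rows_mid {n e k : ℕ} {z : Cell} (hn : 2 ≤ n) (hz : n ≤ sz z) (hk : 5 * e ≤ k)
    (hp : k < par z) : (n ^ e) ^ (2 * k + 11) ≤ (rows z).card := by
  refine le_trans ?_ ((Nat.pow_le_pow_left hz _).trans (card_rows z))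
  rw [← pow_mul]
  refine Nat.pow_le_pow_right (by omega) (le_trans ?_ (Nat.pow_le_pow_left (n := k + 2)
    (Nat.succ_le_succ hp) 2))
  nlinarith

/-- The program `P` does not reduce the test language of level `j + 2` to level `j + 1`. -/
def ReqA (e : Sch) (S : Set ℕ) (i : Prog ℕ × ℕ × ℕ × ℕ × ℕ) (σ : Cell → Dt) : Prop :=
  i.2.2.2.1 + 1 ∉ S → ∃ x, ∀ x' k' t,
    Run (e.O (pi σ) (ka σ)) i.1 (fun r => if r = 0 then code x (5 * (i.2.1 + 2) + 1) else []) t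
      (i.2.2.2.2 * (x.length + 1) ^ i.2.1) → t 0 = code x' k' → k' ≤ i.2.2.2.2 →
    ¬ (En (i.2.2.2.1 + 1) (i.2.2.2.1, 0, 5 * (i.2.1 + 2) + 1, x)
        (blk (pi σ) (ka σ) (i.2.2.2.1, 0, 5 * (i.2.1 + 2) + 1, x)) ↔
      (x', k') ∈ WCS (e.O (pi σ) (ka σ)) (i.2.2.2.1 + 1) i.2.2.1)

theorem stageA (hG : PGad) (hN : PNum) (hH : PHide) (hs : PSeed) (hs' : PStep) (hF : PFinal)
    (e : Sch) (S : Set ℕ) (i : Prog ℕ × ℕ × ℕ × ℕ × ℕ) (σ : Cell → Dt) (n₀ : ℕ)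
    (hσ : ∀ z, ValidA e S σ z) : ∃ τ n', (∀ z, ValidA e S τ z) ∧ Agr sz n₀ σ τ ∧
      ∀ τ', Agr sz n' τ τ' → ReqA e S i τ' := by
  obtain ⟨P, c, h, j, F⟩ := i
  by_cases hj : j + 1 ∈ S
  · exact ⟨σ, 0, hσ, fun _ _ => rfl, fun _ _ h => absurd hj h⟩
  set K := 5 * (c + 2) with hK
  set K' := K + F + h with hK'
  obtain ⟨C1, B, hC1, hN⟩ := hN (c + 2) K' (by omega)
  obtain ⟨L, ⟨G⟩, l2, l3⟩ := ((hG j (2 ^ K' * C1 ^ j) B).and (hN.and
    (eventually_ge_atTop (F * 2 ^ c + 2 * K' + n₀ + 16)))).exists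
  rw [mul_assoc, ← mul_pow] at G
  set n := 4 ^ (L + 2) with hn
  set M := n ^ (c + 2) with hM
  obtain ⟨l1, l2⟩ := l2 M rfl
  have n1 : L ≤ n := by
    have := Nat.lt_pow_self (n := L + 2) (show 1 < 4 by omega)
    omega
  have n2 : n ≤ n ^ (c + 1) := Nat.le_self_pow (by omega) _
  have n3 : F * (n + 1) ^ c ≤ n ^ (c + 1) := by
    calc _ ≤ F * (2 * n) ^ c := Nat.mul_le_mul_left _ (Nat.pow_le_pow_left (by omega) _)
      _ = n ^ c * (F * 2 ^ c) := by rw [mul_pow]; ring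
      _ ≤ _ := Nat.mul_le_mul_left _ (by omega)
  have n4 : n ^ (c + 1) * 3 ≤ M := Nat.mul_le_mul_left _ (by omega)
  have n0 : 16 ≤ M := by omega
  have n5 : M + 1 + (M + 2) ^ 2 ≤ M ^ 3 := by nlinarith
  let x := List.replicate n false
  let zs : Cell := (j, 0, K + 1, x)
  obtain ⟨π, p1, p2⟩ := hH ⟨e, S, j + 1, K, K', n, M, zs, ka σ, pi σ⟩
    (show 2 ≤ M by omega) (show K' ≤ M by omega) l1
  set X : Cx := ⟨e, S, j + 1, K, K', n, M, zs, ka σ, π⟩ with hX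
  have x1 : 2 ≤ X.M := show 2 ≤ M by omega
  have x2 : X.K' ≤ X.M := show K' ≤ M by omega
  obtain ⟨γ₁, c', g1, g2, g3⟩ := adversary X.sem (fun i γ => i ≤ M → X.Ok i γ) M
    (Cx.query hs x1 x2 hj p2)
    ([P], fun r => if r = 0 then code x (K + 1) else []) (2 * (K + 1) + n + 1) (fun r => by
      simp only
      split_ifs
      · simp [length_code, x]
      · simp) _ (fun _ => X.ok_zero) (F * (n + 1) ^ c) (by omega)
  obtain ⟨q, q1, q2⟩ : ∃ q, X.small q ∧ ∀ x' k', c'.2 0 = code x' k' → k' ≤ F →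
      q = (j + 1, h, k', x') := by
    by_cases a : ∃ x' k', c'.2 0 = code x' k' ∧ k' ≤ F
    · obtain ⟨x', k', a1, a2⟩ := a
      have a3 := g2 0
      rw [a1, length_code] at a3
      exact ⟨(j + 1, h, k', x'), ⟨le_rfl, show k' + h ≤ K' by omega, show x'.length ≤ M by omega⟩,
        fun x'' k'' a4 _ => by obtain ⟨rfl, rfl⟩ := code_inj (a1.symm.trans a4); rfl⟩
    · exact ⟨(0, 0, 0, []), ⟨Nat.zero_le _, Nat.zero_le _, Nat.zero_le _⟩,
        fun x' k' a1 a2 => absurd ⟨x', k', a1, a2⟩ a⟩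
  have t0 : F * (n + 1) ^ c ≤ M := by omega
  obtain ⟨γ, v, i1, i4, i5⟩ := Cx.final hs hs' x1 x2 hj p2 t0 (g1 t0) q1
  obtain ⟨Y, y1, y2⟩ := p2 γ.Q (i1.cq.trans (Nat.succ_le_succ t0))
  obtain ⟨y3, y4⟩ := i1.least Y y2
  have i2 : γ.Z.card ≤ (M + 2) ^ 2 := (card_le_card y3).trans y1
  have i3 : γ.P.card ≤ M ^ (K' + 6) :=
    calc _ ≤ (γ.Q.card + Y.card) * M ^ (K' + 2) := (card_le_card y4).trans (X.card_fam x1 _ _)
      _ ≤ M ^ 3 * M ^ (K' + 2) := Nat.mul_le_mul_right _ (by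
          have := i1.cq
          have y1' : Y.card ≤ (M + 2) ^ 2 := y1
          omega)
      _ ≤ _ := by rw [← pow_add]; exact Nat.pow_le_pow_right (by omega) (by omega)
  have i6 : γ.R.card ≤ M ^ (K + 5) :=
    calc _ ≤ M ^ 3 * M ^ (K + 2) := i1.cr.trans (Nat.mul_le_mul_right _ (by omega))
      _ = _ := by ring
  let β : (Var → F2) → Cell → Prop := fun κ z =>
    if z = zs then v = false else src (e.O π κ) (up z)
  obtain ⟨κ', ω, f1, f2, f3, f4, f5, f6⟩ := hF X _ γ (C1 * L) (K' + 6) _ _ G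
    ((insert q (γ.Z.image up)).filter (X.Neg γ)) β i1 (Nat.le_add_left _ _)
    (show 2 ≤ n by omega) x1 x2 (Nat.mul_pos hC1 (by omega)) (one_le_pow₀ one_le_two)
    (by positivity)
    (fun z h1 h2 => i3.trans_lt (rows_big (n := n) (e := c + 2) (k := K') (by omega) h1 (by omega)
      (by omega) h2))
    (fun z h1 h2 => le_trans (by
      have a1 : γ.R.card ^ 2 ≤ M ^ (2 * K + 10) :=
        (Nat.pow_le_pow_left i6 2).trans_eq (by ring)
      have a2 : M ^ (K + 5) ≤ M ^ (2 * K + 10) := Nat.pow_le_pow_right (by omega) (by omega)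
      have a3 : M ^ 5 ≤ M ^ (2 * K + 10) := Nat.pow_le_pow_right (by omega) (by omega)
      have a4 : M ^ (2 * K + 10) * 3 ≤ M ^ (2 * K + 11) := Nat.mul_le_mul_left _ (by omega)
      show _ + _ + M ^ 5 ≤ M ^ (2 * K + 11)
      omega) (rows_mid (n := n) (e := c + 2) (k := K) (by omega) h1 le_rfl h2))
    (fun q hq => (mem_filter.1 hq).2)
    (fun κ κ' z hz => iff_of_eq (if_congr Iff.rfl rfl (propext (wcs_loc fun a ha =>
      Sch.O_loc (fun _ _ => rfl) fun ν hν =>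
        hz ν (hν.trans ((reads_len ha).trans_lt (cell_len z)))))))
    (lt_of_le_of_lt (mul_le_mul_of_nonneg_right (Nat.cast_le.2 (Nat.mul_le_mul_right _
      ((card_filter_le _ _).trans ((card_insert_le _ _).trans
        (Nat.succ_le_succ (card_image_le.trans i2)))))) (by positivity)) l2)
  let τ : Cell → Dt := fun z => (π z, fun p => κ' (z, p))
  have t2 : ∀ q' ∈ insert q (γ.Z.image up), ∀ w, X.Good γ q' w →
      (src (e.O π κ') q' ↔ w = true) := by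
    intro q' hq w hw
    rcases hw with ⟨a1, a2⟩ | ⟨rfl, a⟩
    · exact (wcs_loc fun a ha => f5 a (a1 ha)).trans (a2 ω f4)
    · exact iff_of_false (fun b => f6 q' (mem_filter.2 ⟨hq, a⟩)
        ((wcs_loc fun b hb => f5 b (a.1 hb)).1 b)) (by simp)
  have t3 : Agr sz n σ τ := fun z hz =>
    Prod.ext (p1 z hz).symm (funext fun p => (f1 (z, p) hz).symm)
  refine ⟨τ, M + sz zs + 1, fun z => ?_, fun z hz => t3 z (by omega), fun τ' hτ' _ =>
    ⟨x, fun x' k' t r1 r2 r3 r4 => ?_⟩⟩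
  · by_cases h1 : sz z < n
    · exact ValidA.loc e S σ τ z (fun y hy => t3 y (by omega)) (hσ z)
    intro h2
    by_cases h4 : X.U z ∨ z ∉ γ.Z
    · refine (f3 z (not_lt.1 h1) h4).trans (iff_of_eq (if_neg fun h => hj ?_))
      rwa [h] at h2
    · rw [not_or, not_not] at h4
      exact (f2 z (not_lt.1 h1) h4.1 h4.2).trans
        (t2 _ (mem_insert_of_mem (mem_image_of_mem up h4.2)) _ (i1.inv.good z h4.2 h2)).symm
  · have a1 : ∀ a : List Bool, a.length ≤ M → e.O (pi τ') (ka τ') a = e.O π κ' a := fun a ha =>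
      (O_agr e fun z hz => hτ' z (by omega)).symm
    have a2 := g3 (e.O (pi τ') (ka τ')) (i4 fun a ha =>
      (a1 a (i1.inv.len a (i1.inv.sub ha))).trans ((f5 a (i1.inv.sub ha)).trans
        (X.O_congr rfl (f4 a ha))))
    have a3 := r1.sim'
    simp only [x, List.length_replicate] at a3
    obtain rfl := a3.symm.trans a2
    obtain rfl := q2 x' k' r2 r3
    have a4 : n ≤ sz zs := by
      have := cell_len zs
      simp only [zs, x, List.length_replicate] at this ⊢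
      omega
    have a5 : dp S zs = j + 1 := if_neg hj
    have a7 := f3 zs a4 (Or.inl ⟨Or.inl rfl, Or.inr ⟨a5.ge, Nat.lt_succ_self _⟩⟩)
    have a8 : blk π κ' zs = blk (pi τ') (ka τ') zs := blk_eq (hτ' zs (by omega))
    have a9 := (wcs_loc fun a ha => a1 a ((reads_len ha).trans q1.2.2)).trans
      (t2 _ (mem_insert_self _ _) v i5)
    rw [show β κ' zs = (v = false) from if_pos rfl, show dp X.S zs = j + 1 from a5,
      show X.π = π from rfl, a8] at a7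
    have := a7.symm.trans (r4.trans a9)
    simp at this

theorem oracleA (hG : PGad) (hN : PNum) (hH : PHide) (hs : PSeed) (hs' : PStep) (hF : PFinal)
    (hD : PDec) (e : Sch) (S : Set ℕ) :
    ∃ A, ∀ t, 1 ≤ t → (W (e.ext A) t = W (e.ext A) (t + 1) ↔ t ∈ S) := by
  obtain ⟨σ₀, h0⟩ := fix_exists sz (fun (σ : Cell → Dt) z =>
    (fun _ => false, fun _ => if src (e.O (pi σ) (ka σ)) (up z) then 1 else 0)) fun σ τ z hz => by
      simp only [src_agr e hz]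
  have : Nonempty (Prog ℕ) := ⟨.skip⟩
  obtain ⟨σ, h1, h2⟩ := generic sz (ValidA e S) (ValidA.loc e S) (ReqA e S) σ₀
    (fun z _ => by
      have : blk (pi σ₀) (ka σ₀) z = fun _ _ => decide (src (e.O (pi σ₀) (ka σ₀)) (up z)) := by
        funext X v
        rw [blk, ka, h0 z]
        simp
      rw [this, En_const, decide_eq_true_eq]) (stageA hG hN hH hs hs' hF e S)
  refine ⟨orc (pi σ) (ka σ), fun t ht => ?_⟩
  obtain ⟨j, rfl⟩ := Nat.exists_eq_add_of_le' ht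
  refine ⟨fun h => by_contra fun hj => ?_, fun hj => (W_mono _ _).antisymm fun L ⟨h, hL⟩ =>
    hD e _ _ _ _ hL j h j fun x k => ?_⟩
  · have a1 := hD e (pi σ) (ka σ) _ _ (Red.refl {p : List Bool × ℕ | En (j + 1) (j, 0, p.2, p.1)
      (blk (pi σ) (ka σ) (j, 0, p.2, p.1))}) j 0 (j + 1) fun _ _ => Iff.rfl
    rw [Sch.O, ← h] at a1
    obtain ⟨h, P, f, c, -, a1⟩ := a1
    obtain ⟨x, a2⟩ := h2 (P, c, h, j, f (5 * (c + 2) + 1)) hj
    obtain ⟨x', k', t, b1, b2, b3, b4⟩ := a1 x (5 * (c + 2) + 1)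
    exact a2 x' k' t b1 b2 b3 b4
  · have := h1 (j, h, k, x) hj
    rw [dp, if_pos hj] at this
    exact this.symm

end Pool.Agent.P.MP_d3fb3e_lc.AF
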