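import Pool.Agent.P.MP_d3fb3e_lc.AF.Cell

/-! Affine oracles: the switching vectors and switching by recursion on the size. -/

namespace Pool.Agent.P.MP_d3fb3e_lc.AF

open Finset Classical
open Pool.Agent.Lib.helper21 (sz)

namespace Sw

theorem sz_pos (z : Cell) : 1 ≤ sz z := by
  have := cell_len z
  omega

theorem rows_ne (z : Cell) : (rows z).Nonempty :=
  card_pos.1 ((Nat.one_le_pow _ _ (sz_pos z)).trans (card_rows z))

/-- The vector that makes the row `X` of `z` true. -/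
noncomputable def row (π : Cell → ℕ → Bool) (ω : Var → F2) (z : Cell) (X : List Bool) (ν : Var) :
    F2 := if ν.1 = z ∧ ν.2.1 = ptr π z ∧ ν.2.2.1 = X then ω ν + 1 else 0

theorem undecided (h : PZero) (c : Cx) (γ : St) (hI : c.Inv γ)
    (hr : ∀ z, c.n ≤ sz z → c.K' < par z → γ.P.card < (rows z).card) (z : Cell)
    (hn : c.n ≤ sz z) (hm : ¬ c.mid z) (hU : c.U z) :
    ∃ G ⊆ rows z, G.Nonempty ∧ ∀ a ∈ γ.P, ∑ X ∈ G, ∑ ν ∈ c.e.S a, row c.π γ.ω z X ν = 0 := by
  by_cases hp : c.K' < par z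
  · exact h _ _ γ.P (rows z) (fun X a => ∑ ν ∈ c.e.S a, row c.π γ.ω z X ν) (hr z hn hp)
  · have hM : c.M < sz z := by
      by_contra hM
      exact hm ⟨hn, by omega, hU, by omega⟩
    refine ⟨rows z, subset_rfl, rows_ne z, fun a ha => sum_eq_zero fun X _ =>
      sum_eq_zero fun ν hν => if_neg fun h1 => ?_⟩
    have h2 := Sch.S_lt hν
    have h3 := hI.len a ha
    rw [h1.1] at h2
    omega

/-- One step of the recursion. -/
noncomputable def nxt (sw : Cell → Prop) (u : Cell → Var → F2) (β : (Var → F2) → Cell → Prop)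
    (κ σ : Var → F2) (ν : Var) : F2 :=
  κ ν + ∑ z ∈ (cell_fin (sz ν.1)).toFinset, if sw z ∧ β σ z then u z ν else 0

theorem nxt_loc {sw : Cell → Prop} {u : Cell → Var → F2} {β : (Var → F2) → Cell → Prop}
    (hβ : ∀ κ κ' z, (∀ ν : Var, sz ν.1 < sz z → κ ν = κ' ν) → (β κ z ↔ β κ' z))
    {κ κ' σ σ' : Var → F2} {ν : Var} (h1 : κ ν = κ' ν)
    (h2 : ∀ μ : Var, sz μ.1 < sz ν.1 → σ μ = σ' μ) : nxt sw u β κ σ ν = nxt sw u β κ' σ' ν := by
  rw [nxt, nxt, h1]
  congr 1
  refine sum_congr rfl fun z hz => ?_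
  have h3 : sz z ≤ sz ν.1 := by simpa using hz
  have h4 := hβ σ σ' z fun μ hμ => h2 μ (hμ.trans_le h3)
  simp only [h4]

end Sw

open Sw

theorem pSw (h : PZero) : PSw := by
  intro c i γ hγ hr
  have key : ∀ z, ∃ u : Var → F2, c.sw γ z →
      (∀ ν, u ν ≠ 0 → sz ν.1 = sz z ∧ (ν.2.1 = ptr c.π ν.1 → ν.1 = z)) ∧
      (∀ a ∈ γ.P, ∑ ν ∈ c.e.S a, u ν = 0) ∧
      ¬ En (dp c.S z) z (blk c.π (c.wld γ.κ γ.ω) z) ∧
      En (dp c.S z) z (blk c.π (fun ν => c.wld γ.κ γ.ω ν + u ν) z) := by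
    intro z
    by_cases hs : c.sw γ z
    swap
    · exact ⟨0, fun h => absurd h hs⟩
    obtain ⟨hn, hm, hz⟩ := hs
    by_cases hU : c.U z
    · obtain ⟨G, hG, ⟨X₀, hX₀⟩, hs⟩ := undecided h c γ hγ.inv hr z hn hm hU
      have hw : ∀ X v, c.wld γ.κ γ.ω (z, ptr c.π z, X, v) = γ.ω (z, ptr c.π z, X, v) :=
        fun X v => if_pos ⟨hn, hU, rfl⟩
      refine ⟨fun ν => ∑ X ∈ G, row c.π γ.ω z X ν, fun _ => ⟨fun ν hν => ?_, fun a ha => ?_, ?_, ?_⟩⟩
      · obtain ⟨X, -, hX⟩ := exists_ne_zero_of_sum_ne_zero hν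
        have h1 : ν.1 = z := by
          by_contra h1
          exact hX (if_neg fun h2 => h1 h2.1)
        exact ⟨by rw [h1], fun _ => h1⟩
      · rw [sum_comm]
        exact hs a ha
      · rintro ⟨X, -, hX⟩
        refine hγ.inv.af z X ?_
        have h1 : blk c.π (c.wld γ.κ γ.ω) z X = blk c.π γ.ω z X := by
          funext v
          simp only [blk, hw]
        rwa [h1] at hX
      · refine ⟨X₀, hG hX₀, ?_⟩
        have h1 : blk c.π (fun ν => c.wld γ.κ γ.ω ν + ∑ X ∈ G, row c.π γ.ω z X ν) z X₀ =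
            fun _ => true := by
          funext v
          have h2 : ∑ X ∈ G, row c.π γ.ω z X (z, ptr c.π z, X₀, v) =
              γ.ω (z, ptr c.π z, X₀, v) + 1 := by
            rw [sum_eq_single X₀]
            · exact if_pos ⟨rfl, rfl, rfl⟩
            · exact fun X _ hX => if_neg fun h3 => hX h3.2.2.symm
            · exact fun h3 => absurd hX₀ h3
          simp only [blk, hw, h2, decide_eq_true_eq]
          rw [← add_assoc, F2.add_self, zero_add]
        rw [h1]
        exact (Tm_const (sz_pos z) _ _ _ _).2 rfl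
    · have hZ : z ∉ γ.Z := hz.resolve_left hU
      obtain ⟨u, h1, h2, h3⟩ := hγ.comp z hn hU hZ
      have hw : ∀ X v, c.wld γ.κ γ.ω (z, ptr c.π z, X, v) = 0 := fun X v => by
        rw [Cx.wld, if_neg fun h4 : c.isU (z, ptr c.π z, X, v) => hU h4.2.1,
          hγ.inv.bk z hn hU, if_neg fun h4 => hZ h4.1]
      refine ⟨u, fun _ => ⟨h1, h3, ?_, ?_⟩⟩
      · have h4 : blk c.π (c.wld γ.κ γ.ω) z = fun _ _ => false := by
          funext X v
          simp [blk, hw]
        rw [h4, En_const]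
        simp
      · have h4 : blk c.π (fun ν => c.wld γ.κ γ.ω ν + u ν) z = fun _ _ => true := by
          funext X v
          simp [blk, hw, h2]
        rw [h4, En_const]
  choose u hu using key
  exact ⟨u, hu⟩

theorem pFix : PFix := by
  intro sw u β hu hβ
  have key : ∀ κ : Var → F2, ∃ σ : Var → F2, ∀ ν, σ ν = nxt sw u β κ σ ν := fun κ =>
    fix_exists (fun ν : Var => sz ν.1) (nxt sw u β κ) fun σ τ ν hν => nxt_loc hβ rfl hν
  choose Φ hΦ using key
  refine ⟨Φ, fun κ κ' s => ?_, fun κ s hs => ?_, fun κ ν hν => ?_⟩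
  · induction s with
    | zero => exact fun _ ν hν => absurd hν (Nat.not_lt_zero _)
    | succ s ih =>
      intro h ν hν
      rw [hΦ κ ν, hΦ κ' ν]
      exact nxt_loc hβ (h ν hν) fun μ hμ => ih (fun ξ hξ => h ξ (by omega)) μ (by omega)
  · have h1 : ∀ ν ∈ s, Φ κ ν = κ ν + ∑ z ∈ (cell_fin (s.sup fun μ => sz μ.1)).toFinset,
        if sw z ∧ β (Φ κ) z then u z ν else 0 := by
      intro ν hν
      rw [hΦ κ ν, nxt]
      congr 1
      refine sum_subset (fun z hz => ?_) fun z _ hz => ?_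
      · have h2 : sz z ≤ sz ν.1 := by simpa using hz
        have h3 : sz ν.1 ≤ s.sup fun μ => sz μ.1 := le_sup (f := fun μ : Var => sz μ.1) hν
        simpa using h2.trans h3
      · have h2 : ¬ sz z ≤ sz ν.1 := by simpa using hz
        split_ifs with h3
        · by_contra h4
          exact h2 (hu z h3.1 ν h4).ge
        · rfl
    rw [sum_congr rfl h1, sum_add_distrib, sum_comm, add_eq_left]
    refine sum_eq_zero fun z _ => ?_
    split_ifs with h2
    · exact hs z h2.1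
    · simp
  · rw [hΦ κ ν, nxt, sum_eq_single ν.1]
    · intro z _ hz
      split_ifs with h2
      · exact hν z h2.1 hz
      · rfl
    · intro h2
      exact absurd (by simp) h2

end Pool.Agent.P.MP_d3fb3e_lc.AF
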